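import Mathlib

set_option autoImplicit false

namespace Pool.Agent.Helper829.AF

/-- A bilinear product `mul` on the complex vector space `V` is anti-Frobenius: there is a
nondegenerate antisymmetric bilinear form `ω` with
`ω(x, yz) + ω(y, zx) + ω(z, xy) = 0` for all `x, y, z`. -/
def AntiFrobenius {V : Type} [AddCommGroup V] [Module ℂ V] (mul : V → V → V) : Prop :=
  ∃ ω : V →ₗ[ℂ] V →ₗ[ℂ] ℂ,
    (∀ x, (∀ y, ω x y = 0) → x = 0) ∧
    (∀ x y, ω x y = - ω y x) ∧
    (∀ x y z, ω x (mul y z) + ω y (mul z x) + ω z (mul x y) = 0)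

/-- A (not necessarily unital) bimodule structure on the complex vector space `M` over the
algebra `S`: a left action `L` and a right action `R` which commute. -/
structure Bimod (S : Type) [Ring S] [Algebra ℂ S] (M : Type) [AddCommGroup M] [Module ℂ M] where
  L : S →ₗ[ℂ] (M →ₗ[ℂ] M)
  R : S →ₗ[ℂ] (M →ₗ[ℂ] M)
  L_mul : ∀ s t x, L (s * t) x = L s (L t x)
  R_mul : ∀ s t x, R (s * t) x = R t (R s x)
  comm : ∀ s t x, L s (R t x) = R t (L s x)

/-- The product `(s, m)(s', m') = (s s', s m' + m s')` on `S ⊕ M`. -/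
def Bimod.mul {S : Type} [Ring S] [Algebra ℂ S] {M : Type} [AddCommGroup M] [Module ℂ M]
    (B : Bimod S M) (X Y : S × M) : S × M :=
  (X.1 * Y.1, B.L X.1 Y.2 + B.R Y.1 X.2)

/-- For a bimodule over `ℂ^k` and `i, j ∈ {none, 1, …, k}`: the subspace of those `x` on which
the `l`-th idempotent acts from the left as `1` if `i = l` and as `0` otherwise, and from the
right as `1` if `j = l` and as `0` otherwise (`none` stands for the action by zero). -/
def Bimod.comp {k : ℕ} {M : Type} [AddCommGroup M] [Module ℂ M] (B : Bimod (Fin k → ℂ) M)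
    (i j : Option (Fin k)) : Submodule ℂ M where
  carrier := {x | (∀ l : Fin k, B.L (Pi.single l 1) x = if i = some l then x else 0) ∧
    (∀ l : Fin k, B.R (Pi.single l 1) x = if j = some l then x else 0)}
  add_mem' := by
    rintro x y ⟨hx, hx'⟩ ⟨hy, hy'⟩
    refine ⟨fun l => ?_, fun l => ?_⟩
    · rw [map_add, hx, hy]; split_ifs <;> simp
    · rw [map_add, hx', hy']; split_ifs <;> simp
  zero_mem' := by
    refine ⟨fun l => ?_, fun l => ?_⟩ <;> simp
  smul_mem' := by
    rintro c x ⟨hx, hx'⟩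
    refine ⟨fun l => ?_, fun l => ?_⟩
    · rw [map_smul, hx]; split_ifs <;> simp
    · rw [map_smul, hx']; split_ifs <;> simp

/-- the multiplicity `m_{ij}`, the dimension of `comp i j` -/
noncomputable def Bimod.m {k : ℕ} {M : Type} [AddCommGroup M] [Module ℂ M]
    (B : Bimod (Fin k → ℂ) M) (i j : Option (Fin k)) : ℕ := Module.finrank ℂ (B.comp i j)

/-- the graph on `{none, 1, …, k}` in which `i, j` are joined exactly when `m_{ij} ≠ m_{ji}` -/
def Bimod.graph {k : ℕ} {M : Type} [AddCommGroup M] [Module ℂ M]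
    (B : Bimod (Fin k → ℂ) M) : SimpleGraph (Option (Fin k)) where
  Adj i j := B.m i j ≠ B.m j i
  symm := ⟨fun _ _ h => Ne.symm h⟩
  loopless := ⟨fun _ h => h rfl⟩

end Pool.Agent.Helper829.AF
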