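import Mathlib

set_option autoImplicit false

namespace Pool.Agent.Helper829.AF

open Finset

variable {k : ℕ} {I : Type} [Fintype I] [DecidableEq I] (σ τ : I → Option (Fin k))

def ex (s : Fin k → ℂ) (o : Option (Fin k)) : ℂ := o.elim 0 s

def dl (s : Fin k → ℂ) (a : I) : ℂ := ex s (σ a) - ex s (τ a)

theorem ex_add (s t : Fin k → ℂ) (o : Option (Fin k)) : ex (s + t) o = ex s o + ex t o := by
  cases o <;> simp [ex]

theorem ex_smul (c : ℂ) (s : Fin k → ℂ) (o : Option (Fin k)) : ex (c • s) o = c * ex s o := by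
  cases o <;> simp [ex]

theorem ex_mul (s t : Fin k → ℂ) (o : Option (Fin k)) : ex (s * t) o = ex s o * ex t o := by
  cases o <;> simp [ex]

theorem ex_zero (o : Option (Fin k)) : ex (0 : Fin k → ℂ) o = 0 := by
  cases o <;> simp [ex]

structure Good (lam : I → ℂ) (B : I → I → ℂ) : Prop where
  anti : ∀ a b, B a b = - B b a
  supp : ∀ a b, B a b ≠ 0 → σ a = τ b ∧ τ a = σ b
  nd : ∀ (s : Fin k → ℂ) (x : I → ℂ), (∀ a, dl σ τ s a * lam a + ∑ b, x b * B b a = 0) →
    (∀ t : Fin k → ℂ, ∑ a, dl σ τ t a * lam a * x a = 0) → s = 0 ∧ x = 0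

def cnt (i j : Option (Fin k)) : ℕ := (univ.filter fun a => σ a = i ∧ τ a = j).card

abbrev Blk (i j : Option (Fin k)) : Type := {a : I // σ a = i ∧ τ a = j}

theorem card_blk (i j : Option (Fin k)) : Fintype.card (Blk σ τ i j) = cnt σ τ i j := by
  unfold cnt
  rw [Fintype.card_subtype]

/-- extension by zero -/
def ez {i j : Option (Fin k)} (x : Blk σ τ i j → ℂ) (a : I) : ℂ :=
  if h : σ a = i ∧ τ a = j then x ⟨a, h⟩ else 0

theorem sum_ez {i j : Option (Fin k)} (x : Blk σ τ i j → ℂ) (f : I → ℂ) :
    ∑ a, ez σ τ x a * f a = ∑ a : Blk σ τ i j, x a * f a.1 := by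
  have h1 : ∑ a, ez σ τ x a * f a
      = ∑ a ∈ univ.filter (fun a => σ a = i ∧ τ a = j), ez σ τ x a * f a := by
    symm
    apply Finset.sum_subset (Finset.filter_subset _ _)
    intro a _ ha
    simp only [mem_filter, mem_univ, true_and] at ha
    simp [ez, ha]
  rw [h1]
  rw [Finset.sum_subtype (p := fun a => σ a = i ∧ τ a = j) (univ.filter (fun a => σ a = i ∧ τ a = j))
    (by intro a; simp)]
  apply Finset.sum_congr rfl
  rintro ⟨a, ha⟩ _
  simp [ez, ha]

variable {σ τ}

section fwd

variable {lam : I → ℂ} {B : I → I → ℂ}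

theorem ez_supp {i j : Option (Fin k)} (x : Blk σ τ i j → ℂ) (a : I) (h : ¬ (σ a = i ∧ τ a = j)) :
    ez σ τ x a = 0 := by simp [ez, h]

theorem ez_kernel (hG : Good σ τ lam B) {i j : Option (Fin k)} (x : Blk σ τ i j → ℂ)
    (h : ∀ a : Blk σ τ j i, ∑ b : Blk σ τ i j, x b * B b.1 a.1 = 0) (a : I) :
    ∑ b, ez σ τ x b * B b a = 0 := by
  by_cases ha : σ a = j ∧ τ a = i
  · rw [sum_ez σ τ x (fun b => B b a)]
    exact h ⟨a, ha⟩
  · rw [sum_ez σ τ x (fun b => B b a)]
    apply Finset.sum_eq_zero
    rintro ⟨b, hb⟩ _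
    have : B b a = 0 := by
      by_contra hne
      obtain ⟨h1, h2⟩ := hG.supp b a hne
      apply ha
      exact ⟨by rw [← h2]; exact hb.2, by rw [← h1]; exact hb.1⟩
    simp [this]

theorem ez_ne {i j : Option (Fin k)} (x : Blk σ τ i j → ℂ) (h : x ≠ 0) : ez σ τ x ≠ 0 := by
  intro h0
  apply h
  funext a
  have := congrFun h0 a.1
  have h2 : σ a.1 = i ∧ τ a.1 = j := a.2
  simp only [ez, h2, and_self, dif_pos, Pi.zero_apply] at this
  exact this

theorem dl_blk (t : Fin k → ℂ) {i j : Option (Fin k)} (x : Blk σ τ i j → ℂ) :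
    ∑ a, dl σ τ t a * lam a * ez σ τ x a = (ex t i - ex t j) * ∑ a : Blk σ τ i j, x a * lam a.1 := by
  have : ∑ a, dl σ τ t a * lam a * ez σ τ x a = ∑ a, ez σ τ x a * (dl σ τ t a * lam a) := by
    apply Finset.sum_congr rfl
    intro a _
    ring
  rw [this, sum_ez σ τ x (fun a => dl σ τ t a * lam a), Finset.mul_sum]
  apply Finset.sum_congr rfl
  rintro ⟨a, ha⟩ _
  simp only [dl, ha.1, ha.2]
  ring

theorem even_diag (hG : Good σ τ lam B) (i : Option (Fin k)) : Even (cnt σ τ i i) := by
  by_contra hodd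
  rw [Nat.not_even_iff_odd] at hodd
  let N : Matrix (Blk σ τ i i) (Blk σ τ i i) ℂ := fun a b => B a.1 b.1
  have hN : N.transpose = -N := by
    ext a b
    simp only [Matrix.transpose_apply, Matrix.neg_apply, N]
    exact hG.anti _ _
  have hdet : N.det = 0 := by
    have h1 : N.det = (-N).det := by rw [← hN, Matrix.det_transpose]
    rw [Matrix.det_neg, card_blk, hodd.neg_one_pow] at h1
    have h2 : (2 : ℂ) * N.det = 0 := by linear_combination h1
    have h3 : (2 : ℂ) ≠ 0 := by norm_num
    exact (mul_eq_zero.mp h2).resolve_left h3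
  obtain ⟨x, hx0, hx⟩ := Matrix.exists_vecMul_eq_zero_iff.mpr hdet
  have hk : ∀ a : Blk σ τ i i, ∑ b : Blk σ τ i i, x b * B b.1 a.1 = 0 := by
    intro a
    have := congrFun hx a
    simpa [Matrix.vecMul, dotProduct, N] using this
  have h := hG.nd 0 (ez σ τ x) (by
    intro a
    rw [ez_kernel hG x hk a]
    simp [dl, ex_zero]) (by
    intro t
    rw [dl_blk]
    simp)
  exact ez_ne x hx0 h.2

theorem diff_le (hG : Good σ τ lam B) (i j : Option (Fin k)) :
    cnt σ τ i j ≤ cnt σ τ j i + 1 := by
  by_contra hlt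
  push Not at hlt
  let T1 : (Blk σ τ i j → ℂ) →ₗ[ℂ] (Blk σ τ j i → ℂ) :=
    Matrix.toLin' (Matrix.of fun (a : Blk σ τ j i) (b : Blk σ τ i j) => B b.1 a.1)
  let T2 : (Blk σ τ i j → ℂ) →ₗ[ℂ] ℂ :=
    { toFun := fun x => ∑ a : Blk σ τ i j, x a * lam a.1
      map_add' := by intro x y; simp [add_mul, Finset.sum_add_distrib]
      map_smul' := by intro c x; simp [Finset.mul_sum, mul_assoc] }
  have hrank : Module.finrank ℂ ((Blk σ τ j i → ℂ) × ℂ) < Module.finrank ℂ (Blk σ τ i j → ℂ) := by
    simp [card_blk]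
    omega
  have hker := LinearMap.ker_ne_bot_of_finrank_lt (f := T1.prod T2) hrank
  obtain ⟨x, hx, hx0⟩ := (Submodule.ne_bot_iff _).mp hker
  rw [LinearMap.mem_ker] at hx
  have hx1 : T1 x = 0 := congrArg Prod.fst hx
  have hx2 : T2 x = 0 := congrArg Prod.snd hx
  have hk : ∀ a : Blk σ τ j i, ∑ b : Blk σ τ i j, x b * B b.1 a.1 = 0 := by
    intro a
    have := congrFun hx1 a
    simp only [T1, Matrix.toLin'_apply, Matrix.mulVec, dotProduct, Matrix.of_apply, Pi.zero_apply] at this
    rw [← this]
    apply Finset.sum_congr rfl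
    intro b _
    ring
  have h := hG.nd 0 (ez σ τ x) (by
    intro a
    rw [ez_kernel hG x hk a]
    simp [dl, ex_zero]) (by
    intro t
    rw [dl_blk]
    have : ∑ a : Blk σ τ i j, x a * lam a.1 = 0 := hx2
    rw [this, mul_zero])
  exact ez_ne x hx0 h.2

/-- blocks with equal dimensions carry a perfect pairing -/
theorem perfect (hG : Good σ τ lam B) {i j : Option (Fin k)} (hij : i ≠ j)
    (hc : cnt σ τ i j = cnt σ τ j i) (y : Blk σ τ i j → ℂ)
    (hy : ∀ a : Blk σ τ j i, ∑ b : Blk σ τ i j, y b * B b.1 a.1 = 0) : y = 0 := by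
  by_contra hy0
  have hcard : Fintype.card (Blk σ τ i j) = Fintype.card (Blk σ τ j i) := by
    rw [card_blk, card_blk, hc]
  let e : Blk σ τ i j ≃ Blk σ τ j i := Fintype.equivOfCardEq hcard
  let N : Matrix (Blk σ τ i j) (Blk σ τ i j) ℂ := fun a b => B a.1 (e b).1
  have hdet : N.det = 0 := by
    apply Matrix.exists_vecMul_eq_zero_iff.mp
    refine ⟨y, hy0, ?_⟩
    funext a
    simp only [Matrix.vecMul, dotProduct, N, Pi.zero_apply]
    exact hy (e a)
  obtain ⟨w, hw0, hw⟩ := Matrix.exists_mulVec_eq_zero_iff.mpr hdet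
  let w' : Blk σ τ j i → ℂ := fun b => w (e.symm b)
  have hw'0 : w' ≠ 0 := by
    intro h
    apply hw0
    funext a
    have := congrFun h (e a)
    simpa [w'] using this
  have hwk : ∀ a : Blk σ τ i j, ∑ b : Blk σ τ j i, w' b * B b.1 a.1 = 0 := by
    intro a
    have h1 := congrFun hw a
    simp only [Matrix.mulVec, dotProduct, N, Pi.zero_apply] at h1
    rw [← e.sum_comp]
    have : ∑ b, w' (e b) * B (e b).1 a.1 = - ∑ b, B a.1 (e b).1 * w b := by
      rw [← Finset.sum_neg_distrib]
      apply Finset.sum_congr rfl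
      intro b _
      rw [hG.anti (e b).1 a.1]
      simp [w']
      ring
    rw [this, h1, neg_zero]
  set Ly := ∑ a : Blk σ τ i j, y a * lam a.1 with hLy
  set Lw := ∑ a : Blk σ τ j i, w' a * lam a.1 with hLw
  -- a nonzero combination in the kernel
  have key : ∀ α β : ℂ, α * Ly = β * Lw → α • ez σ τ y + β • ez σ τ w' = 0 := by
    intro α β hab
    refine (hG.nd 0 (α • ez σ τ y + β • ez σ τ w') ?_ ?_).2
    · intro a
      have h1 := ez_kernel hG y hy a
      have h2 := ez_kernel hG w' hwk a
      have : ∑ b, (α • ez σ τ y + β • ez σ τ w') b * B b a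
          = α * ∑ b, ez σ τ y b * B b a + β * ∑ b, ez σ τ w' b * B b a := by
        rw [Finset.mul_sum, Finset.mul_sum, ← Finset.sum_add_distrib]
        apply Finset.sum_congr rfl
        intro b _
        simp only [Pi.add_apply, Pi.smul_apply, smul_eq_mul]
        ring
      rw [this, h1, h2]
      simp [dl, ex_zero]
    · intro t
      have h1 := dl_blk (lam := lam) t y
      have h2 := dl_blk (lam := lam) t w'
      have : ∑ a, dl σ τ t a * lam a * (α • ez σ τ y + β • ez σ τ w') a
          = α * ∑ a, dl σ τ t a * lam a * ez σ τ y a + β * ∑ a, dl σ τ t a * lam a * ez σ τ w' a := by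
        rw [Finset.mul_sum, Finset.mul_sum, ← Finset.sum_add_distrib]
        apply Finset.sum_congr rfl
        intro b _
        simp only [Pi.add_apply, Pi.smul_apply, smul_eq_mul]
        ring
      rw [this, h1, h2, ← hLy, ← hLw]
      linear_combination (ex t i - ex t j) * hab
  -- evaluate on the blocks
  have ev1 : ∀ α β : ℂ, α • ez σ τ y + β • ez σ τ w' = 0 → α = 0 := by
    intro α β h
    obtain ⟨a, ha⟩ := Function.ne_iff.mp hy0
    have h2 : σ a.1 = i ∧ τ a.1 = j := a.2
    have h3 := congrFun h a.1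
    have h4 : ¬ (σ a.1 = j ∧ τ a.1 = i) := by
      rintro ⟨h5, _⟩
      exact hij (h2.1.symm.trans h5)
    simp only [Pi.add_apply, Pi.smul_apply, smul_eq_mul, Pi.zero_apply] at h3
    rw [ez_supp w' a.1 h4] at h3
    simp only [ez, h2, and_self, dif_pos, mul_zero, add_zero] at h3
    rcases mul_eq_zero.mp h3 with h6 | h6
    · exact h6
    · exact absurd h6 ha
  have ev2 : ∀ α β : ℂ, α • ez σ τ y + β • ez σ τ w' = 0 → β = 0 := by
    intro α β h
    obtain ⟨a, ha⟩ := Function.ne_iff.mp hw'0
    have h2 : σ a.1 = j ∧ τ a.1 = i := a.2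
    have h3 := congrFun h a.1
    have h4 : ¬ (σ a.1 = i ∧ τ a.1 = j) := by
      rintro ⟨h5, _⟩
      exact hij (h5.symm.trans h2.1)
    simp only [Pi.add_apply, Pi.smul_apply, smul_eq_mul, Pi.zero_apply] at h3
    rw [ez_supp y a.1 h4] at h3
    simp only [ez, h2, and_self, dif_pos, mul_zero, zero_add] at h3
    rcases mul_eq_zero.mp h3 with h6 | h6
    · exact h6
    · exact absurd h6 ha
  have c1 := key Lw Ly (by ring)
  have h1 := ev1 _ _ c1
  have h2 := ev2 _ _ c1
  have c2 := key 1 0 (by rw [h1, h2]; ring)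
  exact one_ne_zero (ev1 _ _ c2)


/-- the kernel of the form on the bimodule detects the semisimple part -/
theorem s_inj (hG : Good σ τ lam B) (s : Fin k → ℂ)
    (h : ∀ y : I → ℂ, (∀ a, ∑ b, y b * B b a = 0) → ∑ a, dl σ τ s a * lam a * y a = 0) : s = 0 := by
  let T : (I → ℂ) →ₗ[ℂ] (I → ℂ) := Matrix.toLin' (Matrix.of fun b a => B b a)
  let φ : Module.Dual ℂ (I → ℂ) :=
    { toFun := fun y => ∑ a, dl σ τ s a * lam a * y a
      map_add' := by intro x y; simp [mul_add, Finset.sum_add_distrib]
      map_smul' := by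
        intro c x
        simp only [Pi.smul_apply, smul_eq_mul, RingHom.id_apply, Finset.mul_sum]
        apply Finset.sum_congr rfl
        intro a _
        ring }
  have hφ : φ ∈ (LinearMap.ker T).dualAnnihilator := by
    rw [Submodule.mem_dualAnnihilator]
    intro y hy
    rw [LinearMap.mem_ker] at hy
    apply h
    intro a
    have h1 := congrFun hy a
    simp only [T, Matrix.toLin'_apply, Matrix.mulVec, dotProduct, Matrix.of_apply, Pi.zero_apply] at h1
    have : ∑ b, y b * B b a = - ∑ b, B a b * y b := by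
      rw [← Finset.sum_neg_distrib]
      apply Finset.sum_congr rfl
      intro b _
      rw [hG.anti b a]
      ring
    rw [this, h1, neg_zero]
  rw [← LinearMap.range_dualMap_eq_dualAnnihilator_ker] at hφ
  obtain ⟨ψ, hψ⟩ := hφ
  let x : I → ℂ := fun b => - ψ (Pi.single b 1)
  have hψx : ∀ z : I → ℂ, ψ z = - ∑ b, z b * x b := by
    intro z
    have : z = ∑ b, z b • (Pi.single b (1 : ℂ) : I → ℂ) := by
      funext a
      simp [Finset.sum_apply, Pi.single_apply]
    conv_lhs => rw [this]
    rw [map_sum, ← Finset.sum_neg_distrib]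
    apply Finset.sum_congr rfl
    intro b _
    simp [x]
  have hx : ∀ a, dl σ τ s a * lam a + ∑ b, x b * B b a = 0 := by
    intro a
    have h1 : ψ (T (Pi.single a 1)) = φ (Pi.single a 1) := by
      rw [← hψ]; rfl
    rw [hψx] at h1
    have h2 : φ (Pi.single a 1) = dl σ τ s a * lam a := by
      show ∑ b, dl σ τ s b * lam b * (Pi.single a (1 : ℂ) : I → ℂ) b = _
      simp [Pi.single_apply]
    have h3 : ∀ b, T (Pi.single a 1) b = B b a := by
      intro b
      simp [T, Matrix.toLin'_apply, Matrix.mulVec, dotProduct, Pi.single_apply]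
    rw [h2] at h1
    rw [← h1]
    have : ∑ b, T (Pi.single a 1) b * x b = ∑ b, x b * B b a := by
      apply Finset.sum_congr rfl
      intro b _
      rw [h3]
      ring
    rw [this]
    ring
  -- restrict x to the support of dl s
  let x' : I → ℂ := fun a => if dl σ τ s a ≠ 0 then x a else 0
  have hdl : ∀ (t : Fin k → ℂ) (a b : I), B b a ≠ 0 → dl σ τ t b = - dl σ τ t a := by
    intro t a b hne
    obtain ⟨h1, h2⟩ := hG.supp b a hne
    simp only [dl, h1, h2]
    ring
  have hx' : ∀ a, dl σ τ s a * lam a + ∑ b, x' b * B b a = 0 := by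
    intro a
    by_cases ha : dl σ τ s a = 0
    · rw [ha, zero_mul, zero_add]
      apply Finset.sum_eq_zero
      intro b _
      by_cases hne : B b a = 0
      · rw [hne, mul_zero]
      · have h1 := hdl s a b hne
        rw [ha, neg_zero] at h1
        simp [x', h1]
    · rw [← hx a]
      congr 1
      apply Finset.sum_congr rfl
      intro b _
      by_cases hne : B b a = 0
      · rw [hne, mul_zero, mul_zero]
      · have h1 := hdl s a b hne
        have h2 : dl σ τ s b ≠ 0 := by
          rw [h1]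
          exact neg_ne_zero.mpr ha
        simp [x', h2]
  refine (hG.nd s x' hx' ?_).1
  intro t
  -- antisymmetry kills the sum
  let g : I → ℂ := fun a => dl σ τ t a / dl σ τ s a
  have h1 : ∑ a, dl σ τ t a * lam a * x' a = - ∑ a, ∑ b, g a * x' a * x' b * B b a := by
    rw [← Finset.sum_neg_distrib]
    apply Finset.sum_congr rfl
    intro a _
    by_cases ha : dl σ τ s a = 0
    · have h0 : x' a = 0 := by simp [x', ha]
      rw [h0, mul_zero]
      simp
    · have h2 := hx' a
      have h3 : ∑ b, g a * x' a * x' b * B b a = g a * x' a * ∑ b, x' b * B b a := by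
        rw [Finset.mul_sum]
        apply Finset.sum_congr rfl
        intro b _
        ring
      rw [h3]
      have h4 : ∑ b, x' b * B b a = - (dl σ τ s a * lam a) := by linear_combination h2
      rw [h4]
      simp only [g]
      field_simp
  rw [h1]
  have hsym : ∑ a, ∑ b, g a * x' a * x' b * B b a = - ∑ a, ∑ b, g a * x' a * x' b * B b a := by
    conv_lhs => rw [Finset.sum_comm]
    rw [← Finset.sum_neg_distrib]
    apply Finset.sum_congr rfl
    intro a _
    rw [← Finset.sum_neg_distrib]
    apply Finset.sum_congr rfl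
    intro b _
    by_cases hne : B b a = 0
    · have h5 : B a b = 0 := by rw [hG.anti a b, hne, neg_zero]
      rw [hne, h5]; ring
    · have h6 : g b = g a := by
        simp only [g]
        rw [hdl t a b hne, hdl s a b hne, neg_div_neg_eq]
      rw [hG.anti a b, h6]
      ring
  have h7 : (2 : ℂ) * ∑ a, ∑ b, g a * x' a * x' b * B b a = 0 := by linear_combination hsym
  have h8 : (2 : ℂ) ≠ 0 := by norm_num
  rw [(mul_eq_zero.mp h7).resolve_left h8, neg_zero]

/-- restriction of a kernel vector to a block -/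
def rs (y : I → ℂ) (i j : Option (Fin k)) : Blk σ τ i j → ℂ := fun a => y a.1

theorem rs_kernel (hG : Good σ τ lam B) (y : I → ℂ) (hy : ∀ a, ∑ b, y b * B b a = 0)
    (i j : Option (Fin k)) (a : Blk σ τ j i) :
    ∑ b : Blk σ τ i j, rs (σ := σ) (τ := τ) y i j b * B b.1 a.1 = 0 := by
  rw [← hy a.1]
  have h1 := sum_ez σ τ (rs (σ := σ) (τ := τ) y i j) (fun b => B b a.1)
  rw [← h1]
  apply Finset.sum_congr rfl
  intro b _
  by_cases hb : σ b = i ∧ τ b = j
  · simp [ez, hb, rs]
  · have : B b a.1 = 0 := by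
      by_contra hne
      obtain ⟨h2, h3⟩ := hG.supp b a.1 hne
      apply hb
      have h4 : σ a.1 = j ∧ τ a.1 = i := a.2
      exact ⟨h2.trans h4.2, h3.trans h4.1⟩
    rw [this, mul_zero, mul_zero]

end fwd

section tree

/-- the graph of unbalanced pairs -/
def grm {O : Type} (c : O → O → ℕ) : SimpleGraph O where
  Adj i j := c i j ≠ c j i
  symm := ⟨fun _ _ h => Ne.symm h⟩
  loopless := ⟨fun _ h => h rfl⟩

abbrev Edm {O : Type} (c : O → O → ℕ) : Type := {p : O × O // c p.2 p.1 < c p.1 p.2}

theorem card_edge {O : Type} [Fintype O] (c : O → O → ℕ) :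
    Nat.card (grm c).edgeSet = Fintype.card (Edm c) := by
  rw [← Nat.card_eq_fintype_card]
  symm
  refine Nat.card_congr (Equiv.ofBijective (fun p : Edm c =>
    (⟨s(p.1.1, p.1.2), by
      rw [SimpleGraph.mem_edgeSet]
      exact (ne_of_lt p.2).symm⟩ : (grm c).edgeSet)) ⟨?_, ?_⟩)
  · rintro ⟨⟨a, b⟩, hab⟩ ⟨⟨c, d⟩, hcd⟩ h
    simp only [Subtype.mk.injEq, Sym2.eq_iff] at h
    rcases h with ⟨h1, h2⟩ | ⟨h1, h2⟩
    · subst h1; subst h2; rfl
    · subst h1; subst h2
      exact absurd hab (not_lt.mpr (le_of_lt hcd))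
  · rintro ⟨e, he⟩
    induction e using Sym2.ind with
    | _ a b =>
      rw [SimpleGraph.mem_edgeSet] at he
      have he' : c a b ≠ c b a := he
      rcases lt_or_gt_of_ne he' with h | h
      · refine ⟨⟨(b, a), h⟩, ?_⟩
        simp [Sym2.eq_swap]
      · exact ⟨⟨(a, b), h⟩, rfl⟩

variable (σ τ)

abbrev gr : SimpleGraph (Option (Fin k)) := grm (cnt σ τ)

variable {σ τ} {lam : I → ℂ} {B : I → I → ℂ}

theorem gr_connected (hG : Good σ τ lam B) : (gr σ τ).Connected := by
  have key : ∀ i, (gr σ τ).Reachable none i := by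
    by_contra hcon
    push Not at hcon
    obtain ⟨i0, hi0⟩ := hcon
    classical
    let C : Option (Fin k) → Prop := fun i => ¬ (gr σ τ).Reachable none i
    let s : Fin k → ℂ := fun p => if C (some p) then 1 else 0
    have hnone : ¬ C none := by
      simp only [C, not_not]
      exact SimpleGraph.Reachable.refl none
    have hex : ∀ o, ex s o = if C o then 1 else 0 := by
      intro o
      cases o with
      | none => simp [ex, hnone]
      | some p => simp [ex, s]
    have hcross : ∀ i j, C i → ¬ C j → cnt σ τ i j = cnt σ τ j i := by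
      intro i j hi hj
      by_contra hne
      apply hi
      have hj' : (gr σ τ).Reachable none j := not_not.mp hj
      exact hj'.trans (SimpleGraph.Adj.reachable (G := gr σ τ) (Ne.symm hne))
    have hs : s = 0 := by
      apply s_inj hG
      intro y hy
      apply Finset.sum_eq_zero
      intro a _
      by_cases h1 : C (σ a) ↔ C (τ a)
      · have : dl σ τ s a = 0 := by
          simp only [dl, hex, h1, sub_self]
        rw [this]; ring
      · have hne : σ a ≠ τ a := by
          intro h; apply h1; rw [h]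
        have hc : cnt σ τ (σ a) (τ a) = cnt σ τ (τ a) (σ a) := by
          by_cases h2 : C (σ a)
          · have h3 : ¬ C (τ a) := fun h4 => h1 ⟨fun _ => h4, fun _ => h2⟩
            exact hcross _ _ h2 h3
          · have h3 : C (τ a) := by
              by_contra h4
              exact h1 ⟨fun h => absurd h h2, fun h => absurd h4 h⟩
            exact (hcross _ _ h3 h2).symm
        have hz := perfect hG hne hc (rs y (σ a) (τ a)) (rs_kernel hG y hy (σ a) (τ a))
        have : y a = 0 := congrFun hz ⟨a, rfl, rfl⟩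
        rw [this, mul_zero]
    cases i0 with
    | none => exact hi0 (SimpleGraph.Reachable.refl none)
    | some p =>
      have h1 := congrFun hs p
      have h2 : C (some p) := hi0
      simp [s, h2] at h1
  rw [SimpleGraph.connected_iff]
  refine ⟨?_, ⟨none⟩⟩
  intro i j
  exact (key i).symm.trans (key j)

variable (σ τ) in
abbrev Ed : Type := Edm (cnt σ τ)

theorem edges_le (hG : Good σ τ lam B) : Fintype.card (Ed σ τ) ≤ k := by
  have hex : ∀ p : Ed σ τ, ∃ x : Blk σ τ p.1.1 p.1.2 → ℂ, x ≠ 0 ∧
      ∀ a : Blk σ τ p.1.2 p.1.1, ∑ b : Blk σ τ p.1.1 p.1.2, x b * B b.1 a.1 = 0 := by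
    rintro ⟨⟨i, j⟩, hp⟩
    let T1 : (Blk σ τ i j → ℂ) →ₗ[ℂ] (Blk σ τ j i → ℂ) :=
      Matrix.toLin' (Matrix.of fun (a : Blk σ τ j i) (b : Blk σ τ i j) => B b.1 a.1)
    have hrank : Module.finrank ℂ (Blk σ τ j i → ℂ) < Module.finrank ℂ (Blk σ τ i j → ℂ) := by
      rw [Module.finrank_fintype_fun_eq_card, Module.finrank_fintype_fun_eq_card, card_blk, card_blk]
      exact hp
    have hker := LinearMap.ker_ne_bot_of_finrank_lt (f := T1) hrank
    obtain ⟨x, hx, hx0⟩ := (Submodule.ne_bot_iff _).mp hker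
    rw [LinearMap.mem_ker] at hx
    refine ⟨x, hx0, ?_⟩
    intro a
    have := congrFun hx a
    simp only [T1, Matrix.toLin'_apply, Matrix.mulVec, dotProduct, Matrix.of_apply, Pi.zero_apply] at this
    rw [← this]
    apply Finset.sum_congr rfl
    intro b _
    ring
  choose x hx0 hx using hex
  let X : (Ed σ τ → ℂ) → I → ℂ := fun c a => ∑ p, c p * ez σ τ (x p) a
  let Φ : (Ed σ τ → ℂ) →ₗ[ℂ] Module.Dual ℂ (Fin k → ℂ) :=
    LinearMap.mk₂ ℂ (fun c t => ∑ a, dl σ τ t a * lam a * X c a)
      (by
        intro c d t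
        rw [← Finset.sum_add_distrib]
        apply Finset.sum_congr rfl
        intro a _
        simp only [X, Pi.add_apply, add_mul, Finset.sum_add_distrib]
        ring)
      (by
        intro c d t
        simp only [X, Pi.smul_apply, smul_eq_mul, Finset.mul_sum]
        apply Finset.sum_congr rfl
        intro a _
        apply Finset.sum_congr rfl
        intro b _
        ring)
      (by
        intro c t u
        rw [← Finset.sum_add_distrib]
        apply Finset.sum_congr rfl
        intro a _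
        simp only [dl, ex_add]
        ring)
      (by
        intro r c t
        rw [smul_eq_mul, Finset.mul_sum]
        apply Finset.sum_congr rfl
        intro a _
        simp only [dl, ex_smul]
        ring)
  have hinj : Function.Injective Φ := by
    rw [injective_iff_map_eq_zero]
    intro c hc
    have h := hG.nd 0 (X c) (by
      intro a
      have : ∑ b, X c b * B b a = ∑ p, c p * ∑ b, ez σ τ (x p) b * B b a := by
        simp only [X, Finset.sum_mul, Finset.mul_sum]
        rw [Finset.sum_comm]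
        apply Finset.sum_congr rfl
        intro p _
        apply Finset.sum_congr rfl
        intro b _
        ring
      rw [this]
      have h2 : ∀ p : Ed σ τ, c p * ∑ b, ez σ τ (x p) b * B b a = 0 := by
        intro p
        rw [ez_kernel hG (x p) (hx p) a, mul_zero]
      simp [h2, dl, ex_zero]) (by
      intro t
      have : Φ c t = 0 := by rw [hc]; rfl
      exact this)
    funext p
    obtain ⟨a, ha⟩ := Function.ne_iff.mp (hx0 p)
    have h1 := congrFun h.2 a.1
    have h2 : X c a.1 = c p * x p a := by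
      simp only [X]
      rw [Finset.sum_eq_single p]
      · have h3 : σ a.1 = p.1.1 ∧ τ a.1 = p.1.2 := a.2
        simp [ez, h3]
      · intro q _ hq
        rw [ez_supp, mul_zero]
        rintro ⟨h4, h5⟩
        apply hq
        have h3 : σ a.1 = p.1.1 ∧ τ a.1 = p.1.2 := a.2
        apply Subtype.ext
        apply Prod.ext
        · rw [← h4, h3.1]
        · rw [← h5, h3.2]
      · intro h; exact absurd (Finset.mem_univ p) h
    rw [h2] at h1
    rcases mul_eq_zero.mp h1 with h3 | h3
    · exact h3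
    · exact absurd h3 ha
  have h1 := LinearMap.finrank_le_finrank_of_injective hinj
  rw [Subspace.dual_finrank_eq, Module.finrank_fintype_fun_eq_card, Module.finrank_fintype_fun_eq_card,
    Fintype.card_fin] at h1
  exact h1

theorem gr_tree (hG : Good σ τ lam B) : (gr σ τ).IsTree := by
  rw [SimpleGraph.isTree_iff_connected_and_card]
  refine ⟨gr_connected hG, ?_⟩
  have h1 : Fintype.card (Edm (cnt σ τ)) ≤ k := edges_le hG
  have h2 := (gr_connected hG).card_vert_le_card_edgeSet_add_one
  rw [card_edge] at h2 ⊢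
  have h3 : Nat.card (Option (Fin k)) = k + 1 := by simp
  rw [h3] at h2 ⊢
  omega

end tree

end Pool.Agent.Helper829.AF
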