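import Mathlib
import Pool.Agent.Helper829.AFa

set_option autoImplicit false

namespace Pool.Agent.Helper829.AF

open Finset

variable {k : ℕ} (m : Option (Fin k) → Option (Fin k) → ℕ)

abbrev Idx : Type := Σ p : Option (Fin k) × Option (Fin k), Fin (m p.1 p.2)

def sg' (a : Idx m) : Option (Fin k) := a.1.1
def tg' (a : Idx m) : Option (Fin k) := a.1.2

theorem cnt_model (i j : Option (Fin k)) : cnt (sg' m) (tg' m) i j = m i j := by
  rw [← card_blk]
  rw [← Fintype.card_fin (m i j)]
  apply Fintype.card_congr
  refine
    { toFun := fun a => Fin.cast (congrArg₂ m a.2.1 a.2.2) a.1.2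
      invFun := fun u => ⟨⟨(i, j), u⟩, rfl, rfl⟩
      left_inv := ?_
      right_inv := ?_ }
  · rintro ⟨⟨⟨i', j'⟩, u⟩, h1, h2⟩
    simp only [sg', tg'] at h1 h2
    subst h1; subst h2
    rfl
  · intro u
    rfl

def ord (o : Option (Fin k)) : ℕ := o.elim 0 (fun p => p.val + 1)

theorem ord_inj {i j : Option (Fin k)} (h : ord i = ord j) : i = j := by
  cases i <;> cases j <;> simp [ord, Fin.ext_iff] at h ⊢
  exact h

def sgn (i j : Option (Fin k)) : ℂ := if ord i < ord j then 1 else -1

theorem sgn_anti {i j : Option (Fin k)} (h : i ≠ j) : sgn i j = - sgn j i := by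
  have h1 : ord i ≠ ord j := fun h2 => h (ord_inj h2)
  unfold sgn
  rcases lt_or_gt_of_ne h1 with h2 | h2
  · rw [if_pos h2, if_neg (by omega)]; ring
  · rw [if_neg (by omega), if_pos h2]

theorem sgn_ne (i j : Option (Fin k)) : sgn i j ≠ 0 := by
  unfold sgn; split_ifs <;> norm_num

def JJ (u v : ℕ) : ℂ := if Even u ∧ v = u + 1 then 1 else if Even v ∧ u = v + 1 then -1 else 0

theorem JJ_anti (u v : ℕ) : JJ u v = - JJ v u := by
  unfold JJ
  by_cases h1 : Even u ∧ v = u + 1
  · have h2 : ¬ (Even v ∧ u = v + 1) := by
      rintro ⟨_, h⟩; omega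
    rw [if_pos h1, if_neg h2, if_pos h1]; ring
  · by_cases h2 : Even v ∧ u = v + 1
    · rw [if_neg h1, if_pos h2, if_pos h2]
    · rw [if_neg h1, if_neg h2, if_neg h2, if_neg h1]; ring

def Bm (a b : Idx m) : ℂ :=
  if a.1.1 = b.1.2 ∧ a.1.2 = b.1.1 then
    (if a.1.1 = a.1.2 then JJ a.2.val b.2.val else if a.2.val = b.2.val then sgn a.1.1 a.1.2 else 0)
  else 0

def lm (a : Idx m) : ℂ := if m a.1.2 a.1.1 ≤ a.2.val then 1 else 0

variable {m}

theorem model_good (h1 : ∀ i, Even (m i i)) (h2 : ∀ i j, m i j ≤ m j i + 1)
    (h3 : (grm m).IsTree) : Good (sg' m) (tg' m) (lm m) (Bm m) := by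
  refine ⟨?_, ?_, ?_⟩
  · rintro ⟨⟨i, j⟩, u⟩ ⟨⟨i', j'⟩, v⟩
    simp only [Bm]
    by_cases hc : i = j' ∧ j = i'
    · obtain ⟨rfl, rfl⟩ := hc
      simp only [and_self, if_true]
      by_cases hij : i = j
      · subst hij
        simp only [if_true]
        exact JJ_anti _ _
      · rw [if_neg hij, if_neg (Ne.symm hij)]
        by_cases huv : u.val = v.val
        · rw [if_pos huv, if_pos huv.symm]
          exact sgn_anti hij
        · rw [if_neg huv, if_neg (Ne.symm huv)]; ring
    · have hc' : ¬ (i' = j ∧ j' = i) := by
        rintro ⟨rfl, rfl⟩; exact hc ⟨rfl, rfl⟩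
      rw [if_neg hc, if_neg hc']; ring
  · rintro a b hne
    by_contra hcon
    apply hne
    have : ¬ (a.1.1 = b.1.2 ∧ a.1.2 = b.1.1) := hcon
    simp only [Bm, if_neg this]
  · intro s x E1 E2
    -- step 1
    have st1 : ∀ (s : Fin k → ℂ), (∀ p : Edm m, ex s p.1.1 = ex s p.1.2) → s = 0 := by
      intro s hs
      have hadj : ∀ i j, (grm m).Adj i j → ex s i = ex s j := by
        intro i j hij
        have hij' : m i j ≠ m j i := hij
        rcases lt_or_gt_of_ne hij' with h | h
        · exact (hs ⟨(j, i), h⟩).symm
        · exact hs ⟨(i, j), h⟩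
      have hreach : ∀ o, ex s o = 0 := by
        intro o
        obtain ⟨w⟩ := h3.1.preconnected o none
        have : ∀ (a b : Option (Fin k)) (w : (grm m).Walk a b), ex s a = ex s b := by
          intro a b w
          induction w with
          | nil => rfl
          | cons h _ ih => exact (hadj _ _ h).trans ih
        rw [this _ _ w]
        rfl
      funext p
      exact hreach (some p)
    have hs0 : s = 0 := by
      apply st1
      rintro ⟨⟨i, j⟩, hp⟩
      have h := E1 ⟨(i, j), ⟨m j i, hp⟩⟩
      have hz : ∑ b, x b * Bm m b ⟨(i, j), ⟨m j i, hp⟩⟩ = 0 := by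
        apply Finset.sum_eq_zero
        rintro ⟨⟨i', j'⟩, v⟩ _
        have : Bm m ⟨(i', j'), v⟩ ⟨(i, j), ⟨m j i, hp⟩⟩ = 0 := by
          simp only [Bm]
          by_cases hc : i' = j ∧ j' = i
          · obtain ⟨rfl, rfl⟩ := hc
            have hij : i' ≠ j' := by
              rintro rfl
              exact lt_irrefl _ hp
            have hv : v.val ≠ m i' j' := ne_of_lt v.2
            simp only [and_self, if_true, if_neg hij, if_neg hv]
          · rw [if_neg hc]
        rw [this, mul_zero]
      rw [hz, add_zero] at h
      have hl : lm m ⟨(i, j), ⟨m j i, hp⟩⟩ = 1 := by simp [lm]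
      rw [hl, mul_one] at h
      exact sub_eq_zero.mp h
    refine ⟨hs0, ?_⟩
    subst hs0
    have E1' : ∀ a, ∑ b, x b * Bm m b a = 0 := by
      intro a
      have := E1 a
      simpa [dl, ex_zero] using this
    -- unpaired coordinates
    let ae : Edm m → Idx m := fun p => ⟨(p.1.1, p.1.2), ⟨m p.1.2 p.1.1, p.2⟩⟩
    have hae : Function.Injective ae := by
      rintro ⟨⟨i, j⟩, hp⟩ ⟨⟨i', j'⟩, hp'⟩ h
      simp only [ae, Sigma.mk.injEq] at h
      exact Subtype.ext h.1
    have E2' : ∀ t : Fin k → ℂ, ∑ p : Edm m, (ex t p.1.1 - ex t p.1.2) * x (ae p) = 0 := by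
      intro t
      rw [← E2 t]
      apply Fintype.sum_of_injective ae hae
      · rintro ⟨⟨i, j⟩, u⟩ hu
        have : lm m ⟨(i, j), u⟩ = 0 := by
          simp only [lm]
          apply if_neg
          intro hle
          apply hu
          have h5 := h2 i j
          have h6 := u.2
          have h7 : m j i < m i j := lt_of_le_of_lt hle u.2
          refine ⟨⟨(i, j), h7⟩, ?_⟩
          simp only [ae]
          congr 1
          apply Fin.ext
          show m j i = u.val
          simp only at h6
          omega
        rw [this]; ring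
      · rintro ⟨⟨i, j⟩, hp⟩
        have : lm m (ae ⟨(i, j), hp⟩) = 1 := by simp [lm, ae]
        rw [this]
        simp [dl, sg', tg', ae]
    let D : (Fin k → ℂ) →ₗ[ℂ] (Edm m → ℂ) :=
      { toFun := fun t p => ex t p.1.1 - ex t p.1.2
        map_add' := by
          intro s t; funext p
          simp only [ex_add, Pi.add_apply]; ring
        map_smul' := by
          intro c t; funext p
          simp only [ex_smul, Pi.smul_apply, smul_eq_mul, RingHom.id_apply]; ring }
    have hD : Function.Injective D := by
      rw [injective_iff_map_eq_zero]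
      intro t ht
      apply st1
      intro p
      exact sub_eq_zero.mp (congrFun ht p)
    have hcard : Fintype.card (Edm m) = k := by
      have h4 := (SimpleGraph.isTree_iff_connected_and_card.mp h3).2
      rw [card_edge] at h4
      have h5 : Nat.card (Option (Fin k)) = k + 1 := by simp
      omega
    have hsurj : Function.Surjective D := by
      rw [← LinearMap.injective_iff_surjective_of_finrank_eq_finrank]
      · exact hD
      · simp [hcard]
    have hun : ∀ p : Edm m, x (ae p) = 0 := by
      intro p
      obtain ⟨t, ht⟩ := hsurj (Pi.single p 1)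
      have h4 := E2' t
      have h5 : ∀ q : Edm m, ex t q.1.1 - ex t q.1.2 = (Pi.single p (1 : ℂ) : Edm m → ℂ) q :=
        fun q => congrFun ht q
      simp only [h5] at h4
      simpa [Pi.single_apply] using h4
    funext a
    obtain ⟨⟨i, j⟩, u⟩ := a
    show x ⟨(i, j), u⟩ = 0
    by_cases hij : i = j
    · subst hij
      have hev := h1 i
      rcases Nat.even_or_odd u.val with hu | hu
      · have hlt : u.val + 1 < m i i := by
          have h6 : u.val < m i i := u.2
          rcases Nat.lt_or_ge (u.val + 1) (m i i) with h | h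
          · exact h
          · have h7 : m i i = u.val + 1 := by omega
            rw [h7] at hev
            exact absurd hev (by simpa [Nat.even_add_one] using hu)
        have h := E1' ⟨(i, i), ⟨u.val + 1, hlt⟩⟩
        rw [Finset.sum_eq_single (⟨(i, i), u⟩ : Idx m)] at h
        · have hB : Bm m ⟨(i, i), u⟩ ⟨(i, i), ⟨u.val + 1, hlt⟩⟩ = 1 := by
            simp [Bm, JJ, hu]
          rw [hB, mul_one] at h
          exact h
        · rintro ⟨⟨i', j'⟩, v⟩ _ hv
          have : Bm m ⟨(i', j'), v⟩ ⟨(i, i), ⟨u.val + 1, hlt⟩⟩ = 0 := by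
            simp only [Bm]
            by_cases hc : i' = i ∧ j' = i
            · obtain ⟨rfl, rfl⟩ := hc
              simp only [and_self, if_true, JJ]
              have hvu : v.val ≠ u.val := by
                intro h8
                apply hv
                congr 1
                exact Fin.ext h8
              rw [if_neg (by rintro ⟨_, h9⟩; omega), if_neg]
              rintro ⟨h9, _⟩
              rw [Nat.even_add_one] at h9
              exact h9 hu
            · rw [if_neg hc]
          rw [this, mul_zero]
        · intro h; exact absurd (Finset.mem_univ _) h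
      · have hpos : 0 < u.val := hu.pos
        have hlt : u.val - 1 < m i i := by
          have h6 : u.val < m i i := u.2
          omega
        have heu : Even (u.val - 1) := by
          obtain ⟨r, hr⟩ := hu
          exact ⟨r, by omega⟩
        have h := E1' ⟨(i, i), ⟨u.val - 1, hlt⟩⟩
        rw [Finset.sum_eq_single (⟨(i, i), u⟩ : Idx m)] at h
        · have hB : Bm m ⟨(i, i), u⟩ ⟨(i, i), ⟨u.val - 1, hlt⟩⟩ = -1 := by
            have hne : ¬ Even u.val := Nat.not_even_iff_odd.mpr hu
            simp only [Bm, and_self, if_true, JJ]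
            rw [if_neg (by rintro ⟨h9, _⟩; exact hne h9), if_pos ⟨heu, by omega⟩]
          rw [hB] at h
          linear_combination -h
        · rintro ⟨⟨i', j'⟩, v⟩ _ hv
          have : Bm m ⟨(i', j'), v⟩ ⟨(i, i), ⟨u.val - 1, hlt⟩⟩ = 0 := by
            simp only [Bm]
            by_cases hc : i' = i ∧ j' = i
            · obtain ⟨rfl, rfl⟩ := hc
              simp only [and_self, if_true, JJ]
              have hvu : v.val ≠ u.val := by
                intro h8
                apply hv
                congr 1
                exact Fin.ext h8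
              rw [if_neg, if_neg (by rintro ⟨_, h9⟩; omega)]
              rintro ⟨h9, h10⟩
              rw [h10, Nat.even_add_one] at heu
              exact heu h9
            · rw [if_neg hc]
          rw [this, mul_zero]
        · intro h; exact absurd (Finset.mem_univ _) h
    · by_cases hu : u.val < m j i
      · have h := E1' ⟨(j, i), ⟨u.val, hu⟩⟩
        rw [Finset.sum_eq_single (⟨(i, j), u⟩ : Idx m)] at h
        · have hB : Bm m ⟨(i, j), u⟩ ⟨(j, i), ⟨u.val, hu⟩⟩ = sgn i j := by
            simp [Bm, hij]
          rw [hB] at h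
          exact (mul_eq_zero.mp h).resolve_right (sgn_ne i j)
        · rintro ⟨⟨i', j'⟩, v⟩ _ hv
          have : Bm m ⟨(i', j'), v⟩ ⟨(j, i), ⟨u.val, hu⟩⟩ = 0 := by
            simp only [Bm]
            by_cases hc : i' = i ∧ j' = j
            · obtain ⟨rfl, rfl⟩ := hc
              have hvu : v.val ≠ u.val := by
                intro h8
                apply hv
                congr 1
                exact Fin.ext h8
              simp only [and_self, if_true, if_neg hij, if_neg hvu]
            · rw [if_neg hc]
          rw [this, mul_zero]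
        · intro h; exact absurd (Finset.mem_univ _) h
      · have h6 : u.val < m i j := u.2
        have h7 := h2 i j
        have h8 : m j i < m i j := by omega
        have h9 := hun ⟨(i, j), h8⟩
        rw [← h9]
        congr 1
        simp only [ae]
        congr 1
        apply Fin.ext
        show u.val = m j i
        omega

end Pool.Agent.Helper829.AF
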