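import Mathlib
import Pool.Agent.Helper829.AFDefs
import Pool.Agent.Helper829.AFb

set_option autoImplicit false
set_option linter.unusedSectionVars false
set_option linter.unusedSimpArgs false

namespace Pool.Agent.Helper829.AF

open Finset

variable {k : ℕ} {M : Type} [AddCommGroup M] [Module ℂ M] {I : Type} [Fintype I] [DecidableEq I]
  {σ τ : I → Option (Fin k)}

/-- coordinates adapted to a bimodule -/
structure Coord (B : Bimod (Fin k → ℂ) M) (σ τ : I → Option (Fin k)) where
  e : M ≃ₗ[ℂ] (I → ℂ)
  eL : ∀ s x a, e (B.L s x) a = ex s (σ a) * e x a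
  eR : ∀ s x a, e (B.R s x) a = ex s (τ a) * e x a

theorem ex_single (l : Fin k) (o : Option (Fin k)) :
    ex (Pi.single l 1) o = if o = some l then 1 else 0 := by
  cases o with
  | none => simp [ex]
  | some l' =>
    simp only [ex, Option.elim_some, Option.some.injEq]
    rw [Pi.single_apply]

theorem ex_one (o : Option (Fin k)) : ex (1 : Fin k → ℂ) o = if o = none then 0 else 1 := by
  cases o <;> simp [ex]

theorem dl_add (s t : Fin k → ℂ) (a : I) : dl σ τ (s + t) a = dl σ τ s a + dl σ τ t a := by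
  simp only [dl, ex_add]; ring

theorem dl_smul (c : ℂ) (s : Fin k → ℂ) (a : I) : dl σ τ (c • s) a = c * dl σ τ s a := by
  simp only [dl, ex_smul]; ring

section back

variable (σ τ) (lam : I → ℂ) (Bf : I → I → ℂ)

def Dd (s : Fin k → ℂ) (u : I → ℂ) : ℂ := ∑ a, dl σ τ s a * lam a * u a
def Cc (u v : I → ℂ) : ℂ := ∑ a, ∑ b, u a * v b * Bf a b

theorem Dd_add_left (s t : Fin k → ℂ) (u : I → ℂ) :
    Dd σ τ lam (s + t) u = Dd σ τ lam s u + Dd σ τ lam t u := by
  simp only [Dd, ← Finset.sum_add_distrib]
  exact Finset.sum_congr rfl fun a _ => by rw [dl_add]; ring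

theorem Dd_smul_left (c : ℂ) (s : Fin k → ℂ) (u : I → ℂ) :
    Dd σ τ lam (c • s) u = c * Dd σ τ lam s u := by
  simp only [Dd, Finset.mul_sum]
  exact Finset.sum_congr rfl fun a _ => by rw [dl_smul]; ring

theorem Dd_add_right (s : Fin k → ℂ) (u v : I → ℂ) :
    Dd σ τ lam s (u + v) = Dd σ τ lam s u + Dd σ τ lam s v := by
  simp only [Dd, ← Finset.sum_add_distrib]
  exact Finset.sum_congr rfl fun a _ => by rw [Pi.add_apply]; ring

theorem Dd_smul_right (c : ℂ) (s : Fin k → ℂ) (u : I → ℂ) :
    Dd σ τ lam s (c • u) = c * Dd σ τ lam s u := by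
  simp only [Dd, Finset.mul_sum]
  exact Finset.sum_congr rfl fun a _ => by rw [Pi.smul_apply, smul_eq_mul]; ring

theorem Cc_add_left (u u' v : I → ℂ) : Cc Bf (u + u') v = Cc Bf u v + Cc Bf u' v := by
  simp only [Cc, ← Finset.sum_add_distrib]
  exact Finset.sum_congr rfl fun a _ => Finset.sum_congr rfl fun b _ => by
    rw [Pi.add_apply]; ring

theorem Cc_add_right (u v v' : I → ℂ) : Cc Bf u (v + v') = Cc Bf u v + Cc Bf u v' := by
  simp only [Cc, ← Finset.sum_add_distrib]
  exact Finset.sum_congr rfl fun a _ => Finset.sum_congr rfl fun b _ => by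
    rw [Pi.add_apply]; ring

theorem Cc_smul_left (c : ℂ) (u v : I → ℂ) : Cc Bf (c • u) v = c * Cc Bf u v := by
  simp only [Cc, Finset.mul_sum]
  exact Finset.sum_congr rfl fun a _ => Finset.sum_congr rfl fun b _ => by
    rw [Pi.smul_apply, smul_eq_mul]; ring

theorem Cc_smul_right (c : ℂ) (u v : I → ℂ) : Cc Bf u (c • v) = c * Cc Bf u v := by
  simp only [Cc, Finset.mul_sum]
  exact Finset.sum_congr rfl fun a _ => Finset.sum_congr rfl fun b _ => by
    rw [Pi.smul_apply, smul_eq_mul]; ring

/-- the form built from coordinates -/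
noncomputable def om (e : M ≃ₗ[ℂ] (I → ℂ)) :
    ((Fin k → ℂ) × M) →ₗ[ℂ] ((Fin k → ℂ) × M) →ₗ[ℂ] ℂ :=
  LinearMap.mk₂ ℂ (fun X Y => Dd σ τ lam X.1 (e Y.2) - Dd σ τ lam Y.1 (e X.2)
      + Cc Bf (e X.2) (e Y.2))
    (by
      intro X X' Y
      simp only [Prod.fst_add, Prod.snd_add, map_add, Dd_add_left, Dd_add_right, Cc_add_left]
      ring)
    (by
      intro c X Y
      simp only [Prod.smul_fst, Prod.smul_snd, map_smul, Dd_smul_left, Dd_smul_right,
        Cc_smul_left, smul_eq_mul]
      ring)
    (by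
      intro X Y Y'
      simp only [Prod.fst_add, Prod.snd_add, map_add, Dd_add_left, Dd_add_right, Cc_add_right]
      ring)
    (by
      intro c X Y
      simp only [Prod.smul_fst, Prod.smul_snd, map_smul, Dd_smul_left, Dd_smul_right,
        Cc_smul_right, smul_eq_mul]
      ring)

variable {σ τ lam Bf}

theorem om_apply (e : M ≃ₗ[ℂ] (I → ℂ)) (X Y : (Fin k → ℂ) × M) :
    om σ τ lam Bf e X Y = Dd σ τ lam X.1 (e Y.2) - Dd σ τ lam Y.1 (e X.2)
      + Cc Bf (e X.2) (e Y.2) := by
  simp [om]

theorem Cc_inv (hG : Good σ τ lam Bf) (p q u u' : I → ℂ) (t : Fin k → ℂ)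
    (hu : ∀ a, u a = ex t (τ a) * q a) (hu' : ∀ a, u' a = ex t (σ a) * p a) :
    Cc Bf p u + Cc Bf q u' = 0 := by
  have h1 : Cc Bf q u' = ∑ a, ∑ b, q b * u' a * Bf b a := by
    unfold Cc
    rw [Finset.sum_comm]
  rw [h1]
  unfold Cc
  rw [← Finset.sum_add_distrib]
  apply Finset.sum_eq_zero
  intro a _
  rw [← Finset.sum_add_distrib]
  apply Finset.sum_eq_zero
  intro b _
  rw [hu, hu', hG.anti b a]
  by_cases h : Bf a b = 0
  · rw [h]; ring
  · obtain ⟨h2, h3⟩ := hG.supp a b h
    rw [h2]; ring

theorem anti_of_good (B : Bimod (Fin k → ℂ) M) (Cd : Coord B σ τ) (hG : Good σ τ lam Bf) :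
    AntiFrobenius B.mul := by
  refine ⟨om σ τ lam Bf Cd.e, ?_, ?_, ?_⟩
  · intro X hX
    have h1 : ∀ a, dl σ τ X.1 a * lam a + ∑ b, Cd.e X.2 b * Bf b a = 0 := by
      intro a
      have h := hX (0, Cd.e.symm (Pi.single a 1))
      rw [om_apply] at h
      simp only [LinearEquiv.apply_symm_apply] at h
      have hD0 : Dd σ τ lam (0 : Fin k → ℂ) (Cd.e X.2) = 0 := by
        have := Dd_smul_left σ τ lam 0 0 (Cd.e X.2)
        simpa using this
      rw [hD0] at h
      have hD : Dd σ τ lam X.1 (Pi.single a 1) = dl σ τ X.1 a * lam a := by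
        unfold Dd
        rw [Finset.sum_eq_single a]
        · simp
        · intro b _ hb
          simp [Pi.single_apply, hb]
        · simp
      have hC : Cc Bf (Cd.e X.2) (Pi.single a 1) = ∑ b, Cd.e X.2 b * Bf b a := by
        unfold Cc
        apply Finset.sum_congr rfl
        intro b _
        rw [Finset.sum_eq_single a]
        · simp
        · intro c _ hc
          simp [Pi.single_apply, hc]
        · simp
      rw [hD, hC] at h
      linear_combination h
    have h2 : ∀ t : Fin k → ℂ, ∑ a, dl σ τ t a * lam a * Cd.e X.2 a = 0 := by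
      intro t
      have h := hX (t, 0)
      rw [om_apply] at h
      simp only [map_zero] at h
      have hD0 : Dd σ τ lam X.1 (0 : I → ℂ) = 0 := by
        simp [Dd]
      have hC0 : Cc Bf (Cd.e X.2) (0 : I → ℂ) = 0 := by
        simp [Cc]
      rw [hD0, hC0] at h
      have : Dd σ τ lam t (Cd.e X.2) = 0 := by linear_combination -h
      exact this
    obtain ⟨h3, h4⟩ := hG.nd X.1 (Cd.e X.2) h1 h2
    apply Prod.ext
    · exact h3
    · exact (LinearEquiv.map_eq_zero_iff Cd.e).mp h4
  · intro X Y
    rw [om_apply, om_apply]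
    have : Cc Bf (Cd.e X.2) (Cd.e Y.2) = - Cc Bf (Cd.e Y.2) (Cd.e X.2) := by
      unfold Cc
      rw [Finset.sum_comm, ← Finset.sum_neg_distrib]
      apply Finset.sum_congr rfl
      intro a _
      rw [← Finset.sum_neg_distrib]
      apply Finset.sum_congr rfl
      intro b _
      rw [hG.anti b a]
      ring
    rw [this]
    ring
  · intro X Y Z
    simp only [om_apply, Bimod.mul, map_add, Cc_add_right]
    have c1 := Cc_inv hG (Cd.e Z.2) (Cd.e X.2) (Cd.e (B.R Y.1 X.2)) (Cd.e (B.L Y.1 Z.2)) Y.1
      (fun a => Cd.eR _ _ a) (fun a => Cd.eL _ _ a)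
    have c2 := Cc_inv hG (Cd.e X.2) (Cd.e Y.2) (Cd.e (B.R Z.1 Y.2)) (Cd.e (B.L Z.1 X.2)) Z.1
      (fun a => Cd.eR _ _ a) (fun a => Cd.eL _ _ a)
    have c3 := Cc_inv hG (Cd.e Y.2) (Cd.e Z.2) (Cd.e (B.R X.1 Z.2)) (Cd.e (B.L X.1 Y.2)) X.1
      (fun a => Cd.eR _ _ a) (fun a => Cd.eL _ _ a)
    have key : ∀ (s t : Fin k → ℂ) (x : M),
        Dd σ τ lam s (Cd.e (B.L t x)) + Dd σ τ lam t (Cd.e (B.R s x))
          - Dd σ τ lam (s * t) (Cd.e x) = 0 := by
      intro s t x
      simp only [Dd, ← Finset.sum_add_distrib, ← Finset.sum_sub_distrib]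
      apply Finset.sum_eq_zero
      intro a _
      rw [Cd.eL, Cd.eR]
      simp only [dl, ex_mul]
      ring
    have k1 := key X.1 Y.1 Z.2
    have k2 := key Y.1 Z.1 X.2
    have k3 := key Z.1 X.1 Y.2
    simp only [Dd_add_right]
    linear_combination c1 + c2 + c3 + k1 + k2 + k3

end back

section forw

variable (B : Bimod (Fin k → ℂ) M) (Cd : Coord B σ τ)

/-- the basis vector -/
noncomputable def vv (a : I) : M := Cd.e.symm (Pi.single a 1)

theorem L_vv (s : Fin k → ℂ) (a : I) : B.L s (vv B Cd a) = ex s (σ a) • vv B Cd a := by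
  apply Cd.e.injective
  funext b
  rw [Cd.eL, map_smul]
  simp only [vv, LinearEquiv.apply_symm_apply, Pi.smul_apply, smul_eq_mul, Pi.single_apply]
  split_ifs with h
  · rw [h]
  · simp

theorem R_vv (s : Fin k → ℂ) (a : I) : B.R s (vv B Cd a) = ex s (τ a) • vv B Cd a := by
  apply Cd.e.injective
  funext b
  rw [Cd.eR, map_smul]
  simp only [vv, LinearEquiv.apply_symm_apply, Pi.smul_apply, smul_eq_mul, Pi.single_apply]
  split_ifs with h
  · rw [h]
  · simp

theorem M_ext (f : M →ₗ[ℂ] ℂ) (h : ∀ a, f (vv B Cd a) = 0) (x : M) : f x = 0 := by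
  have : f.comp Cd.e.symm.toLinearMap = 0 := by
    apply LinearMap.pi_ext'
    intro a
    apply LinearMap.ext_ring
    simp only [LinearMap.comp_apply, LinearMap.single_apply, LinearMap.zero_apply,
      LinearEquiv.coe_coe]
    exact h a
  have h2 := LinearMap.congr_fun this (Cd.e x)
  simpa using h2

theorem S_ext (f : (Fin k → ℂ) →ₗ[ℂ] ℂ) (h : ∀ j, f (Pi.single j 1) = 0) (s : Fin k → ℂ) :
    f s = 0 := by
  have : f = 0 := by
    apply LinearMap.pi_ext'
    intro a
    apply LinearMap.ext_ring
    simp only [LinearMap.comp_apply, LinearMap.single_apply, LinearMap.zero_apply]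
    exact h a
  rw [this]; rfl

theorem x_expand (x : M) : x = ∑ a, Cd.e x a • vv B Cd a := by
  apply Cd.e.injective
  rw [map_sum]
  funext b
  rw [Finset.sum_apply]
  simp only [map_smul, vv, LinearEquiv.apply_symm_apply, Pi.smul_apply, smul_eq_mul]
  rw [Finset.sum_eq_single b]
  · simp
  · intro a _ ha
    rw [Pi.single_apply, if_neg (Ne.symm ha), mul_zero]
  · simp

include Cd in
theorem good_of_anti (h : AntiFrobenius B.mul) : ∃ lam Bf, Good σ τ lam Bf := by
  obtain ⟨ω, hnd, hanti, hcyc⟩ := h
  -- G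
  have hG0 : ∀ i (t : Fin k → ℂ), ω (Pi.single i 1, 0) (t, 0) = 0 := by
    intro i t
    let f : (Fin k → ℂ) →ₗ[ℂ] ℂ := (ω (Pi.single i 1, 0)).comp (LinearMap.inl ℂ (Fin k → ℂ) M)
    have : f t = 0 := by
      apply S_ext
      intro j
      change ω (Pi.single i 1, 0) (Pi.single j 1, 0) = 0
      by_cases hij : i = j
      · subst hij
        have h1 := hanti (Pi.single i (1 : ℂ), (0 : M)) (Pi.single i 1, 0)
        have h2 : (2 : ℂ) * ω (Pi.single i 1, 0) (Pi.single i 1, 0) = 0 := by
          linear_combination h1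
        exact (mul_eq_zero.mp h2).resolve_left two_ne_zero
      · have h1 := hcyc (Pi.single i 1, 0) (Pi.single j 1, 0) (Pi.single j 1, 0)
        have e1 : (Pi.single j 1 * Pi.single j 1 : Fin k → ℂ) = Pi.single j 1 := by
          rw [← Pi.single_mul]; simp
        have e2 : (Pi.single j 1 * Pi.single i 1 : Fin k → ℂ) = 0 := by
          funext l
          simp only [Pi.mul_apply, Pi.single_apply, Pi.zero_apply]
          by_cases hl : l = j
          · rw [if_neg (c := l = i)]
            · simp
            · intro h'; apply hij; rw [← h', hl]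
          · simp [hl]
        have e3 : (Pi.single i 1 * Pi.single j 1 : Fin k → ℂ) = 0 := by
          rw [mul_comm, e2]
        simp only [Bimod.mul, e1, e2, e3, map_zero, add_zero] at h1
        have h00 : ω (Pi.single j 1, 0) ((0 : Fin k → ℂ), (0 : M)) = 0 := by
          have : ((0 : Fin k → ℂ), (0 : M)) = 0 := rfl
          rw [this, map_zero]
        rw [h00] at h1
        linear_combination h1
    exact this
  have hG : ∀ (s t : Fin k → ℂ), ω (s, 0) (t, 0) = 0 := by
    intro s t
    let f : (Fin k → ℂ) →ₗ[ℂ] ℂ := (ω.flip (t, 0)).comp (LinearMap.inl ℂ (Fin k → ℂ) M)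
    have : f s = 0 := by
      apply S_ext
      intro j
      change ω (Pi.single j 1, 0) (t, 0) = 0
      exact hG0 j t
    exact this
  -- F
  let F : (Fin k → ℂ) → M → ℂ := fun s x => ω (s, 0) (0, x)
  have hFcyc : ∀ s t x, F s (B.L t x) + F t (B.R s x) - F (s * t) x = 0 := by
    intro s t x
    have h1 := hcyc (s, 0) (t, 0) (0, x)
    simp only [Bimod.mul, map_zero, add_zero, zero_add, mul_zero, zero_mul,
      LinearMap.zero_apply] at h1
    have h2 := hanti (0, x) (s * t, 0)
    rw [h2] at h1
    simp only [F]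
    linear_combination h1
  have hFsm : ∀ s c x, F s (c • x) = c * F s x := by
    intro s c x
    have : ((0 : Fin k → ℂ), c • x) = c • ((0 : Fin k → ℂ), x) := by
      rw [Prod.smul_mk, smul_zero]
    simp only [F]
    rw [this, map_smul, smul_eq_mul]
  have hF1 : ∀ s t a, ex t (σ a) * F s (vv B Cd a) + ex s (τ a) * F t (vv B Cd a)
      - F (s * t) (vv B Cd a) = 0 := by
    intro s t a
    have h1 := hFcyc s t (vv B Cd a)
    rw [L_vv, R_vv, hFsm, hFsm] at h1
    exact h1
  have hlam : ∀ a, ∃ c : ℂ, ∀ s, F s (vv B Cd a) = dl σ τ s a * c := by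
    intro a
    by_cases hst : σ a = τ a
    · refine ⟨0, fun s => ?_⟩
      rw [mul_zero]
      let f : (Fin k → ℂ) →ₗ[ℂ] ℂ :=
        (ω.flip (0, vv B Cd a)).comp (LinearMap.inl ℂ (Fin k → ℂ) M)
      have : f s = 0 := by
        apply S_ext
        intro j
        change F (Pi.single j 1) (vv B Cd a) = 0
        have h1 := hF1 (Pi.single j 1) (Pi.single j 1) a
        have e1 : (Pi.single j 1 * Pi.single j 1 : Fin k → ℂ) = Pi.single j 1 := by
          rw [← Pi.single_mul]; simp
        rw [e1, ex_single, ex_single, ← hst] at h1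
        split_ifs at h1 with h2
        · linear_combination h1
        · linear_combination -h1
      exact this
    · have ht : ∃ t : Fin k → ℂ, dl σ τ t a = 1 := by
        cases h1 : σ a with
        | some l =>
          refine ⟨Pi.single l 1, ?_⟩
          rw [dl, ex_single, ex_single, if_pos h1, if_neg]
          · ring
          · intro h2; apply hst; rw [h1, h2]
        | none =>
          cases h2 : τ a with
          | none => exact absurd (h1.trans h2.symm) hst
          | some l =>
            refine ⟨-Pi.single l 1, ?_⟩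
            have : dl σ τ (-Pi.single l 1) a = dl σ τ ((-1 : ℂ) • Pi.single l 1) a := by simp
            rw [this, dl_smul, dl, ex_single, ex_single, if_pos h2, if_neg]
            · ring
            · rw [h1]; simp
      obtain ⟨t, ht⟩ := ht
      refine ⟨F t (vv B Cd a), fun s => ?_⟩
      have h1 := hF1 s t a
      have h2 := hF1 t s a
      rw [mul_comm t s] at h2
      have h3 : dl σ τ t a * F s (vv B Cd a) - dl σ τ s a * F t (vv B Cd a) = 0 := by
        simp only [dl]
        linear_combination h1 - h2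
      rw [ht] at h3
      linear_combination h3
  choose lam hlam using hlam
  -- C
  let C : M → M → ℂ := fun x y => ω (0, x) (0, y)
  have hCcyc : ∀ s x y, C x (B.R s y) + C y (B.L s x) = 0 := by
    intro s x y
    have h1 := hcyc (0, x) (0, y) (s, 0)
    simp only [Bimod.mul, map_zero, add_zero, zero_add, mul_zero, zero_mul,
      LinearMap.zero_apply] at h1
    have h00 : ω (s, 0) ((0 : Fin k → ℂ), (0 : M)) = 0 := by
      have : ((0 : Fin k → ℂ), (0 : M)) = 0 := rfl
      rw [this, map_zero]
    rw [h00] at h1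
    simp only [C]
    linear_combination h1
  have hCsm : ∀ c x y, C x (c • y) = c * C x y := by
    intro c x y
    have : ((0 : Fin k → ℂ), c • y) = c • ((0 : Fin k → ℂ), y) := by
      rw [Prod.smul_mk, smul_zero]
    simp only [C]
    rw [this, map_smul, smul_eq_mul]
  have hCanti : ∀ x y, C x y = - C y x := fun x y => hanti _ _
  have hsep : ∀ o o' : Option (Fin k), (∀ s : Fin k → ℂ, ex s o = ex s o') → o = o' := by
    intro o o' h
    cases o with
    | none =>
      cases o' with
      | none => rfl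
      | some l =>
        have := h (Pi.single l 1)
        rw [ex_single, ex_single] at this
        simp at this
    | some l =>
      have := h (Pi.single l 1)
      rw [ex_single, ex_single] at this
      by_contra hne
      rw [if_pos rfl, if_neg (Ne.symm hne)] at this
      exact one_ne_zero this
  have hsupp1 : ∀ a b, C (vv B Cd a) (vv B Cd b) ≠ 0 → σ a = τ b := by
    intro a b hne
    symm
    apply hsep
    intro s
    have h1 := hCcyc s (vv B Cd a) (vv B Cd b)
    rw [L_vv, R_vv, hCsm, hCsm, hCanti (vv B Cd b) (vv B Cd a)] at h1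
    have h2 : (ex s (τ b) - ex s (σ a)) * C (vv B Cd a) (vv B Cd b) = 0 := by
      linear_combination h1
    exact sub_eq_zero.mp ((mul_eq_zero.mp h2).resolve_right hne)
  refine ⟨lam, fun a b => C (vv B Cd a) (vv B Cd b), ?_, ?_, ?_⟩
  · intro a b
    exact hCanti _ _
  · intro a b hne
    refine ⟨hsupp1 a b hne, ?_⟩
    symm
    apply hsupp1 b a
    intro h0
    apply hne
    rw [hCanti, h0, neg_zero]
  · intro s x h1 h2
    have hX : ((s, Cd.e.symm x) : (Fin k → ℂ) × M) = 0 := by
      apply hnd
      rintro ⟨t, y⟩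
      have hXY : ∀ y', ω (s, Cd.e.symm x) (0, y') = 0 := by
        intro y'
        let f : M →ₗ[ℂ] ℂ := (ω (s, Cd.e.symm x)).comp (LinearMap.inr ℂ (Fin k → ℂ) M)
        have : f y' = 0 := by
          apply M_ext B Cd
          intro a
          change ω (s, Cd.e.symm x) (0, vv B Cd a) = 0
          have e1 : ((s, Cd.e.symm x) : (Fin k → ℂ) × M) = (s, 0) + (0, Cd.e.symm x) := by simp
          rw [e1, map_add, LinearMap.add_apply]
          have e2 : ω (s, 0) (0, vv B Cd a) = dl σ τ s a * lam a := hlam a s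
          have e3 : ω (0, Cd.e.symm x) (0, vv B Cd a)
              = ∑ b, x b * C (vv B Cd b) (vv B Cd a) := by
            have e4 := x_expand B Cd (Cd.e.symm x)
            simp only [LinearEquiv.apply_symm_apply] at e4
            let g : M →ₗ[ℂ] ℂ :=
              (ω.flip (0, vv B Cd a)).comp (LinearMap.inr ℂ (Fin k → ℂ) M)
            change g (Cd.e.symm x) = _
            rw [e4, map_sum]
            apply Finset.sum_congr rfl
            intro b _
            rw [map_smul, smul_eq_mul]
            rfl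
          rw [e2, e3]
          exact h1 a
        exact this
      have e1 : ((t, y) : (Fin k → ℂ) × M) = (t, 0) + (0, y) := by simp
      rw [e1, map_add, hXY y, add_zero]
      have e2 : ((s, Cd.e.symm x) : (Fin k → ℂ) × M) = (s, 0) + (0, Cd.e.symm x) := by simp
      rw [e2, map_add, LinearMap.add_apply, hG, zero_add, hanti]
      rw [neg_eq_zero]
      have e4 := x_expand B Cd (Cd.e.symm x)
      simp only [LinearEquiv.apply_symm_apply] at e4
      let g : M →ₗ[ℂ] ℂ := (ω (t, 0)).comp (LinearMap.inr ℂ (Fin k → ℂ) M)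
      change g (Cd.e.symm x) = 0
      rw [e4, map_sum]
      rw [← h2 t]
      apply Finset.sum_congr rfl
      intro a _
      rw [map_smul, smul_eq_mul]
      have : g (vv B Cd a) = dl σ τ t a * lam a := hlam a t
      rw [this]
      ring
    have h3 := congrArg Prod.fst hX
    have h4 := congrArg Prod.snd hX
    simp only [Prod.fst_zero, Prod.snd_zero] at h3 h4
    exact ⟨h3, (LinearEquiv.map_eq_zero_iff Cd.e.symm).mp h4⟩

end forw

end Pool.Agent.Helper829.AF
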