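import Mathlib
import Pool.Agent.Helper829.AFc

set_option autoImplicit false
set_option linter.unusedSectionVars false
set_option linter.unusedSimpArgs false

namespace Pool.Agent.Helper829.AF

open Finset

variable {k : ℕ} {M : Type} [AddCommGroup M] [Module ℂ M] (B : Bimod (Fin k → ℂ) M)

/-- the projections coming from the left action -/
noncomputable def Lp : Option (Fin k) → (M →ₗ[ℂ] M)
  | none => LinearMap.id - B.L 1
  | some l => B.L (Pi.single l 1)

noncomputable def Rp : Option (Fin k) → (M →ₗ[ℂ] M)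
  | none => LinearMap.id - B.R 1
  | some l => B.R (Pi.single l 1)

theorem single_mul' (l : Fin k) (s : Fin k → ℂ) :
    (Pi.single l 1 * s : Fin k → ℂ) = s l • Pi.single l (1 : ℂ) := by
  funext j
  simp only [Pi.mul_apply, Pi.smul_apply, Pi.single_apply, smul_eq_mul]
  split_ifs with h
  · rw [h]; ring
  · ring

theorem mul_single' (l : Fin k) (s : Fin k → ℂ) :
    (s * Pi.single l 1 : Fin k → ℂ) = s l • Pi.single l (1 : ℂ) := by
  rw [mul_comm, single_mul']

theorem L_Lp (s : Fin k → ℂ) (i : Option (Fin k)) (x : M) :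
    B.L s (Lp B i x) = ex s i • Lp B i x := by
  cases i with
  | none =>
    simp only [Lp, LinearMap.sub_apply, LinearMap.id_apply, map_sub, ex, Option.elim_none,
      zero_smul]
    rw [← B.L_mul, mul_one, sub_self]
  | some l =>
    simp only [Lp, ex, Option.elim_some]
    rw [← B.L_mul, mul_single', map_smul, LinearMap.smul_apply]

theorem Lp_L (s : Fin k → ℂ) (i : Option (Fin k)) (x : M) :
    Lp B i (B.L s x) = ex s i • Lp B i x := by
  cases i with
  | none =>
    simp only [Lp, LinearMap.sub_apply, LinearMap.id_apply, map_sub, ex, Option.elim_none,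
      zero_smul]
    rw [← B.L_mul, one_mul, sub_self]
  | some l =>
    simp only [Lp, ex, Option.elim_some]
    rw [← B.L_mul, single_mul', map_smul, LinearMap.smul_apply]

theorem R_Rp (s : Fin k → ℂ) (i : Option (Fin k)) (x : M) :
    B.R s (Rp B i x) = ex s i • Rp B i x := by
  cases i with
  | none =>
    simp only [Rp, LinearMap.sub_apply, LinearMap.id_apply, map_sub, ex, Option.elim_none,
      zero_smul]
    rw [← B.R_mul, one_mul, sub_self]
  | some l =>
    simp only [Rp, ex, Option.elim_some]
    rw [← B.R_mul, single_mul', map_smul, LinearMap.smul_apply]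

theorem Rp_R (s : Fin k → ℂ) (i : Option (Fin k)) (x : M) :
    Rp B i (B.R s x) = ex s i • Rp B i x := by
  cases i with
  | none =>
    simp only [Rp, LinearMap.sub_apply, LinearMap.id_apply, map_sub, ex, Option.elim_none,
      zero_smul]
    rw [← B.R_mul, mul_one, sub_self]
  | some l =>
    simp only [Rp, ex, Option.elim_some]
    rw [← B.R_mul, mul_single', map_smul, LinearMap.smul_apply]

theorem Lp_R (s : Fin k → ℂ) (i : Option (Fin k)) (x : M) :
    Lp B i (B.R s x) = B.R s (Lp B i x) := by
  cases i with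
  | none =>
    simp only [Lp, LinearMap.sub_apply, LinearMap.id_apply, map_sub]
    rw [B.comm]
  | some l =>
    simp only [Lp]
    rw [B.comm]

theorem Rp_L (s : Fin k → ℂ) (i : Option (Fin k)) (x : M) :
    Rp B i (B.L s x) = B.L s (Rp B i x) := by
  cases i with
  | none =>
    simp only [Rp, LinearMap.sub_apply, LinearMap.id_apply, map_sub]
    rw [B.comm]
  | some l =>
    simp only [Rp]
    rw [B.comm]

theorem sum_single : (∑ l : Fin k, Pi.single l (1 : ℂ) : Fin k → ℂ) = 1 := by
  funext j
  simp [Finset.sum_apply, Pi.single_apply]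

theorem sum_Lp (x : M) : ∑ i, Lp B i x = x := by
  rw [Fintype.sum_option]
  simp only [Lp, LinearMap.sub_apply, LinearMap.id_apply]
  have : ∑ l : Fin k, B.L (Pi.single l 1) x = B.L 1 x := by
    rw [← sum_single, map_sum, LinearMap.sum_apply]
  rw [this]; abel

theorem sum_Rp (x : M) : ∑ i, Rp B i x = x := by
  rw [Fintype.sum_option]
  simp only [Rp, LinearMap.sub_apply, LinearMap.id_apply]
  have : ∑ l : Fin k, B.R (Pi.single l 1) x = B.R 1 x := by
    rw [← sum_single, map_sum, LinearMap.sum_apply]
  rw [this]; abel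

theorem mem_comp (i j : Option (Fin k)) (x : M) :
    x ∈ B.comp i j ↔ (∀ l : Fin k, B.L (Pi.single l 1) x = if i = some l then x else 0) ∧
    (∀ l : Fin k, B.R (Pi.single l 1) x = if j = some l then x else 0) := Iff.rfl

theorem pi_mem (i j : Option (Fin k)) (x : M) : Lp B i (Rp B j x) ∈ B.comp i j := by
  rw [mem_comp]
  refine ⟨fun l => ?_, fun l => ?_⟩
  · rw [L_Lp, ex_single]
    split_ifs <;> simp
  · rw [← Lp_R, R_Rp, ex_single, map_smul]
    split_ifs <;> simp

theorem expand (s : Fin k → ℂ) : s = ∑ l, s l • (Pi.single l (1 : ℂ) : Fin k → ℂ) := by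
  funext j
  simp [Finset.sum_apply, Pi.single_apply]

theorem L_of_mem {i j : Option (Fin k)} {x : M} (hx : x ∈ B.comp i j) (s : Fin k → ℂ) :
    B.L s x = ex s i • x := by
  conv_lhs => rw [expand s, map_sum, LinearMap.sum_apply]
  have : ∀ l, B.L (s l • (Pi.single l (1 : ℂ) : Fin k → ℂ)) x
      = s l • (if i = some l then x else 0) := by
    intro l
    rw [map_smul, LinearMap.smul_apply, hx.1 l]
  simp only [this]
  cases i with
  | none => simp [ex]
  | some l =>
    rw [Finset.sum_eq_single l]
    · simp [ex]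
    · intro b _ hb
      rw [if_neg, smul_zero]
      intro h; apply hb; exact (Option.some.inj h).symm
    · simp

theorem R_of_mem {i j : Option (Fin k)} {x : M} (hx : x ∈ B.comp i j) (s : Fin k → ℂ) :
    B.R s x = ex s j • x := by
  conv_lhs => rw [expand s, map_sum, LinearMap.sum_apply]
  have : ∀ l, B.R (s l • (Pi.single l (1 : ℂ) : Fin k → ℂ)) x
      = s l • (if j = some l then x else 0) := by
    intro l
    rw [map_smul, LinearMap.smul_apply, hx.2 l]
  simp only [this]
  cases j with
  | none => simp [ex]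
  | some l =>
    rw [Finset.sum_eq_single l]
    · simp [ex]
    · intro b _ hb
      rw [if_neg, smul_zero]
      intro h; apply hb; exact (Option.some.inj h).symm
    · simp

theorem Lp_of_mem {i j : Option (Fin k)} {x : M} (hx : x ∈ B.comp i j) (i' : Option (Fin k)) :
    Lp B i' x = if i' = i then x else 0 := by
  cases i' with
  | none =>
    simp only [Lp, LinearMap.sub_apply, LinearMap.id_apply]
    rw [L_of_mem B hx, ex_one]
    cases i <;> simp
  | some l =>
    simp only [Lp]
    rw [hx.1 l]
    by_cases h : i = some l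
    · rw [if_pos h, if_pos h.symm]
    · rw [if_neg h, if_neg (Ne.symm h)]

theorem Rp_of_mem {i j : Option (Fin k)} {x : M} (hx : x ∈ B.comp i j) (j' : Option (Fin k)) :
    Rp B j' x = if j' = j then x else 0 := by
  cases j' with
  | none =>
    simp only [Rp, LinearMap.sub_apply, LinearMap.id_apply]
    rw [R_of_mem B hx, ex_one]
    cases j <;> simp
  | some l =>
    simp only [Rp]
    rw [hx.2 l]
    by_cases h : j = some l
    · rw [if_pos h, if_pos h.symm]
    · rw [if_neg h, if_neg (Ne.symm h)]

noncomputable def ff : M →ₗ[ℂ] (Π p : Option (Fin k) × Option (Fin k), B.comp p.1 p.2) :=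
  LinearMap.pi fun p => ((Lp B p.1).comp (Rp B p.2)).codRestrict (B.comp p.1 p.2)
    (fun x => pi_mem B p.1 p.2 x)

noncomputable def gg : (Π p : Option (Fin k) × Option (Fin k), B.comp p.1 p.2) →ₗ[ℂ] M :=
  ∑ p : Option (Fin k) × Option (Fin k), (B.comp p.1 p.2).subtype.comp (LinearMap.proj p)

theorem ff_apply (x : M) (p : Option (Fin k) × Option (Fin k)) :
    ((ff B x p : B.comp p.1 p.2) : M) = Lp B p.1 (Rp B p.2 x) := rfl

theorem gg_apply (w : Π p : Option (Fin k) × Option (Fin k), B.comp p.1 p.2) :
    gg B w = ∑ p, (w p : M) := by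
  simp [gg, LinearMap.sum_apply]

theorem gf (x : M) : gg B (ff B x) = x := by
  rw [gg_apply]
  simp only [ff_apply]
  rw [Fintype.sum_prod_type]
  simp only
  rw [Finset.sum_comm]
  simp only [sum_Lp, sum_Rp]

theorem fg (w : Π p : Option (Fin k) × Option (Fin k), B.comp p.1 p.2) : ff B (gg B w) = w := by
  funext p
  apply Subtype.ext
  rw [ff_apply, gg_apply, map_sum, map_sum]
  rw [Finset.sum_eq_single p]
  · rw [Rp_of_mem B (w p).2, if_pos rfl, Lp_of_mem B (w p).2, if_pos rfl]
  · intro q _ hq
    rw [Rp_of_mem B (w q).2]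
    by_cases h2 : p.2 = q.2
    · rw [if_pos h2, Lp_of_mem B (w q).2]
      rw [if_neg]
      intro h1
      exact hq (Prod.ext h1.symm h2.symm)
    · rw [if_neg h2, map_zero]
  · simp

theorem coord_exists [FiniteDimensional ℂ M] : Nonempty (Coord B (sg' B.m) (tg' B.m)) := by
  let E1 : M ≃ₗ[ℂ] (Π p : Option (Fin k) × Option (Fin k), B.comp p.1 p.2) :=
    { ff B with
      invFun := gg B
      left_inv := gf B
      right_inv := fg B }
  let bs : Module.Basis (Idx B.m) ℂ (Π p : Option (Fin k) × Option (Fin k), B.comp p.1 p.2) :=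
    Pi.basis fun p => Module.finBasis ℂ (B.comp p.1 p.2)
  have hval : ∀ x (a : Idx B.m), (E1.trans bs.equivFun) x a
      = (Module.finBasis ℂ (B.comp a.1.1 a.1.2)).repr (ff B x a.1) a.2 := by
    intro x a
    rw [LinearEquiv.trans_apply, Module.Basis.equivFun_apply]
    exact Pi.basis_repr _ _ _
  refine ⟨⟨E1.trans bs.equivFun, ?_, ?_⟩⟩
  · intro s x a
    rw [hval, hval]
    have : ff B (B.L s x) a.1 = ex s a.1.1 • ff B x a.1 := by
      apply Subtype.ext
      rw [ff_apply, Submodule.coe_smul, ff_apply, Rp_L, Lp_L]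
    rw [this, map_smul]
    rfl
  · intro s x a
    rw [hval, hval]
    have : ff B (B.R s x) a.1 = ex s a.1.2 • ff B x a.1 := by
      apply Subtype.ext
      rw [ff_apply, Submodule.coe_smul, ff_apply, Rp_R, map_smul]
    rw [this, map_smul]
    rfl

theorem cnt_eq : cnt (sg' B.m) (tg' B.m) = B.m := by
  funext i j
  exact cnt_model B.m i j

/-- main theorem -/
theorem main [FiniteDimensional ℂ M] :
    AntiFrobenius B.mul ↔ (∀ i, Even (B.m i i)) ∧ (∀ i j, B.m i j ≤ B.m j i + 1) ∧
      B.graph.IsTree := by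
  obtain ⟨Cd⟩ := coord_exists B
  have hgr : B.graph = grm B.m := rfl
  constructor
  · intro h
    obtain ⟨lam, Bf, hG⟩ := good_of_anti B Cd h
    have h1 := even_diag hG
    have h2 := diff_le hG
    have h3 := gr_tree hG
    unfold gr at h3
    rw [cnt_eq] at h1 h2 h3
    exact ⟨h1, h2, h3⟩
  · rintro ⟨h1, h2, h3⟩
    exact anti_of_good B Cd (model_good h1 h2 h3)

end Pool.Agent.Helper829.AF
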