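import Mathlib
import Pool.Agent.Helper829.AFDefs

set_option autoImplicit false

namespace Pool.Agent.Helper829.AF

/-- For a bimodule over `Mat_{n+1}`, the subspace of those `x` with `E_{00} x = x` (`i = true`),
respectively `1 x = 0` (`i = false`). -/
def Bimod.leftPart {n : ℕ} {M : Type} [AddCommGroup M] [Module ℂ M]
    (B : Bimod (Matrix (Fin (n + 1)) (Fin (n + 1)) ℂ) M) (i : Bool) : Submodule ℂ M :=
  match i with
  | true => LinearMap.ker (B.L (Matrix.single 0 0 1) - LinearMap.id)
  | false => LinearMap.ker (B.L 1)

/-- The subspace of those `x` with `x E_{00} = x` (`j = true`), respectively `x 1 = 0`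
(`j = false`). -/
def Bimod.rightPart {n : ℕ} {M : Type} [AddCommGroup M] [Module ℂ M]
    (B : Bimod (Matrix (Fin (n + 1)) (Fin (n + 1)) ℂ) M) (j : Bool) : Submodule ℂ M :=
  match j with
  | true => LinearMap.ker (B.R (Matrix.single 0 0 1) - LinearMap.id)
  | false => LinearMap.ker (B.R 1)

/-- The multiplicity of the simple bimodule of type `(i, j)` in `M`: of `Mat_{n+1}` for
`(true, true)`, of the column space for `(true, false)`, of the row space for `(false, true)` and
of the trivial bimodule for `(false, false)`. -/
noncomputable def Bimod.mult {n : ℕ} {M : Type} [AddCommGroup M] [Module ℂ M]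
    (B : Bimod (Matrix (Fin (n + 1)) (Fin (n + 1)) ℂ) M) (i j : Bool) : ℕ :=
  Module.finrank ℂ (B.leftPart i ⊓ B.rightPart j : Submodule ℂ M)

end Pool.Agent.Helper829.AF
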