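import Mathlib
import Pool.Agent.Helper829.AFDefs

set_option autoImplicit false
set_option linter.unusedSectionVars false
set_option linter.unusedSimpArgs false

namespace Pool.Agent.Helper829.AS

open Matrix

/-- the space `S ⊕ M` for `S = Mat_ν` -/
abbrev Sp (ν ζ π κ θ : Type) : Type :=
  Matrix ν ν ℂ × (ζ → Matrix ν ν ℂ) × Matrix ν π ℂ × Matrix κ ν ℂ × (θ → ℂ)

variable {ν ζ π κ θ : Type} [Fintype ν] [DecidableEq ν] [Fintype ζ] [DecidableEq ζ]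
  [Fintype π] [DecidableEq π] [Fintype κ] [DecidableEq κ] [Fintype θ] [DecidableEq θ]

def mul (X Y : Sp ν ζ π κ θ) : Sp ν ζ π κ θ :=
  (X.1 * Y.1, fun i => X.1 * Y.2.1 i + X.2.1 i * Y.1, X.1 * Y.2.2.1, X.2.2.2.1 * Y.1, 0)

def iS : Matrix ν ν ℂ →ₗ[ℂ] Sp ν ζ π κ θ := LinearMap.inl ℂ _ _
def iZ : (ζ → Matrix ν ν ℂ) →ₗ[ℂ] Sp ν ζ π κ θ := (LinearMap.inr ℂ _ _).comp (LinearMap.inl ℂ _ _)
def iP : Matrix ν π ℂ →ₗ[ℂ] Sp ν ζ π κ θ :=
  (LinearMap.inr ℂ _ _).comp ((LinearMap.inr ℂ _ _).comp (LinearMap.inl ℂ _ _))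
def iQ : Matrix κ ν ℂ →ₗ[ℂ] Sp ν ζ π κ θ :=
  (LinearMap.inr ℂ _ _).comp ((LinearMap.inr ℂ _ _).comp ((LinearMap.inr ℂ _ _).comp
    (LinearMap.inl ℂ _ _)))
def iT : (θ → ℂ) →ₗ[ℂ] Sp ν ζ π κ θ :=
  (LinearMap.inr ℂ _ _).comp ((LinearMap.inr ℂ _ _).comp ((LinearMap.inr ℂ _ _).comp
    (LinearMap.inr ℂ _ _)))

theorem iS_def (s : Matrix ν ν ℂ) : (iS s : Sp ν ζ π κ θ) = (s, 0, 0, 0, 0) := rfl
theorem iZ_def (Z : ζ → Matrix ν ν ℂ) : (iZ Z : Sp ν ζ π κ θ) = (0, Z, 0, 0, 0) := rfl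
theorem iP_def (P : Matrix ν π ℂ) : (iP P : Sp ν ζ π κ θ) = (0, 0, P, 0, 0) := rfl
theorem iQ_def (Q : Matrix κ ν ℂ) : (iQ Q : Sp ν ζ π κ θ) = (0, 0, 0, Q, 0) := rfl
theorem iT_def (T : θ → ℂ) : (iT T : Sp ν ζ π κ θ) = (0, 0, 0, 0, T) := rfl

theorem dec (X : Sp ν ζ π κ θ) :
    X = iS X.1 + iZ X.2.1 + iP X.2.2.1 + iQ X.2.2.2.1 + iT X.2.2.2.2 := by
  simp [iS_def, iZ_def, iP_def, iQ_def, iT_def]

section mulLemmas
variable (s t : Matrix ν ν ℂ) (Z Z' : ζ → Matrix ν ν ℂ) (P P' : Matrix ν π ℂ)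
  (Q Q' : Matrix κ ν ℂ) (T T' : θ → ℂ)

theorem pi_zero_eq : (fun _ : ζ => (0 : Matrix ν ν ℂ)) = 0 := rfl

@[simp] theorem mSS : mul (iS s : Sp ν ζ π κ θ) (iS t) = iS (s * t) := by
  simp [mul, iS_def, pi_zero_eq]
@[simp] theorem mSZ : mul (iS s : Sp ν ζ π κ θ) (iZ Z) = iZ (fun i => s * Z i) := by
  simp [mul, iS_def, iZ_def]
@[simp] theorem mZS : mul (iZ Z : Sp ν ζ π κ θ) (iS s) = iZ (fun i => Z i * s) := by
  simp [mul, iS_def, iZ_def]
@[simp] theorem mSP : mul (iS s : Sp ν ζ π κ θ) (iP P) = iP (s * P) := by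
  simp [mul, iS_def, iP_def, pi_zero_eq]
@[simp] theorem mPS : mul (iP P : Sp ν ζ π κ θ) (iS s) = 0 := by
  simp [mul, iS_def, iP_def, pi_zero_eq]
@[simp] theorem mSQ : mul (iS s : Sp ν ζ π κ θ) (iQ Q) = 0 := by
  simp [mul, iS_def, iQ_def, pi_zero_eq]
@[simp] theorem mQS : mul (iQ Q : Sp ν ζ π κ θ) (iS s) = iQ (Q * s) := by
  simp [mul, iS_def, iQ_def, pi_zero_eq]
@[simp] theorem mST : mul (iS s : Sp ν ζ π κ θ) (iT T) = 0 := by
  simp [mul, iS_def, iT_def, pi_zero_eq]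
@[simp] theorem mTS : mul (iT T : Sp ν ζ π κ θ) (iS s) = 0 := by
  simp [mul, iS_def, iT_def, pi_zero_eq]
@[simp] theorem mZZ : mul (iZ Z : Sp ν ζ π κ θ) (iZ Z') = 0 := by
  simp [mul, iZ_def, pi_zero_eq]
@[simp] theorem mZP : mul (iZ Z : Sp ν ζ π κ θ) (iP P) = 0 := by
  simp [mul, iZ_def, iP_def, pi_zero_eq]
@[simp] theorem mPZ : mul (iP P : Sp ν ζ π κ θ) (iZ Z) = 0 := by
  simp [mul, iZ_def, iP_def, pi_zero_eq]
@[simp] theorem mZQ : mul (iZ Z : Sp ν ζ π κ θ) (iQ Q) = 0 := by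
  simp [mul, iZ_def, iQ_def, pi_zero_eq]
@[simp] theorem mQZ : mul (iQ Q : Sp ν ζ π κ θ) (iZ Z) = 0 := by
  simp [mul, iZ_def, iQ_def, pi_zero_eq]
@[simp] theorem mZT : mul (iZ Z : Sp ν ζ π κ θ) (iT T) = 0 := by
  simp [mul, iZ_def, iT_def, pi_zero_eq]
@[simp] theorem mTZ : mul (iT T : Sp ν ζ π κ θ) (iZ Z) = 0 := by
  simp [mul, iZ_def, iT_def, pi_zero_eq]
@[simp] theorem mPP : mul (iP P : Sp ν ζ π κ θ) (iP P') = 0 := by
  simp [mul, iP_def, pi_zero_eq]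
@[simp] theorem mPQ : mul (iP P : Sp ν ζ π κ θ) (iQ Q) = 0 := by
  simp [mul, iP_def, iQ_def, pi_zero_eq]
@[simp] theorem mQP : mul (iQ Q : Sp ν ζ π κ θ) (iP P) = 0 := by
  simp [mul, iP_def, iQ_def, pi_zero_eq]
@[simp] theorem mPT : mul (iP P : Sp ν ζ π κ θ) (iT T) = 0 := by
  simp [mul, iP_def, iT_def, pi_zero_eq]
@[simp] theorem mTP : mul (iT T : Sp ν ζ π κ θ) (iP P) = 0 := by
  simp [mul, iP_def, iT_def, pi_zero_eq]
@[simp] theorem mQQ : mul (iQ Q : Sp ν ζ π κ θ) (iQ Q') = 0 := by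
  simp [mul, iQ_def, pi_zero_eq]
@[simp] theorem mQT : mul (iQ Q : Sp ν ζ π κ θ) (iT T) = 0 := by
  simp [mul, iQ_def, iT_def, pi_zero_eq]
@[simp] theorem mTQ : mul (iT T : Sp ν ζ π κ θ) (iQ Q) = 0 := by
  simp [mul, iQ_def, iT_def, pi_zero_eq]
@[simp] theorem mTT : mul (iT T : Sp ν ζ π κ θ) (iT T') = 0 := by
  simp [mul, iT_def, pi_zero_eq]

end mulLemmas

structure IsAF (ω : Sp ν ζ π κ θ →ₗ[ℂ] Sp ν ζ π κ θ →ₗ[ℂ] ℂ) : Prop where
  nd : ∀ x, (∀ y, ω x y = 0) → x = 0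
  anti : ∀ x y, ω x y = - ω y x
  cyc : ∀ x y z, ω x (mul y z) + ω y (mul z x) + ω z (mul x y) = 0

theorem lin_tr {m n : Type} [Fintype m] [Fintype n] [DecidableEq m] [DecidableEq n]
    (f : Matrix m n ℂ →ₗ[ℂ] ℂ) : ∃ Φ : Matrix n m ℂ, ∀ P, f P = trace (Φ * P) := by
  refine ⟨Matrix.of fun j i => f (single i j 1), fun P => ?_⟩
  conv_lhs => rw [matrix_eq_sum_single P]
  rw [map_sum]
  simp only [map_sum, trace, diag_apply, mul_apply, of_apply]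
  rw [Finset.sum_comm]
  apply Finset.sum_congr rfl
  intro j _
  apply Finset.sum_congr rfl
  intro i _
  have : (single i j (P i j) : Matrix m n ℂ) = P i j • single i j 1 := by
    rw [smul_single, smul_eq_mul, mul_one]
  rw [this, map_smul, smul_eq_mul, mul_comm]

section forms

variable {ω : Sp ν ζ π κ θ →ₗ[ℂ] Sp ν ζ π κ θ →ₗ[ℂ] ℂ} (h : IsAF ω)
include h

theorem wSP (s : Matrix ν ν ℂ) (P : Matrix ν π ℂ) : ω (iS s) (iP P) = ω (iS 1) (iP (s * P)) := by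
  have h1 := h.cyc (iS 1) (iS s) (iP P)
  simp only [mSP, mPS, mSS, map_zero, one_mul] at h1
  rw [h.anti (iP P)] at h1
  linear_combination -h1

theorem wSQ (s : Matrix ν ν ℂ) (Q : Matrix κ ν ℂ) : ω (iS s) (iQ Q) = ω (iS 1) (iQ (Q * s)) := by
  have h1 := h.cyc (iS s) (iS 1) (iQ Q)
  simp only [mSQ, mQS, mSS, map_zero, mul_one] at h1
  rw [h.anti (iQ Q)] at h1
  linear_combination -h1

theorem w1S (s : Matrix ν ν ℂ) : ω (iS 1) (iS s) = 0 := by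
  have h1 := h.cyc (iS 1) (iS 1) (iS s)
  simp only [mSS, mul_one, one_mul] at h1
  rw [h.anti (iS s)] at h1
  linear_combination h1

theorem w1Z (Z : ζ → Matrix ν ν ℂ) : ω (iS 1) (iZ Z) = 0 := by
  have h1 := h.cyc (iS 1) (iS 1) (iZ Z)
  simp only [mSZ, mZS, mSS, mul_one, one_mul] at h1
  rw [h.anti (iZ Z)] at h1
  linear_combination h1

theorem wST (s : Matrix ν ν ℂ) (T : θ → ℂ) : ω (iS s) (iT T) = 0 := by
  have h1 := h.cyc (iS s) (iS 1) (iT T)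
  simp only [mST, mTS, mSS, mul_one, map_zero] at h1
  rw [h.anti (iT T)] at h1
  linear_combination -h1

theorem wPP (P P' : Matrix ν π ℂ) : ω (iP P) (iP P') = 0 := by
  have h1 := h.cyc (iP P') (iP P) (iS 1)
  simp only [mPS, mSP, mPP, Matrix.one_mul, map_zero] at h1
  linear_combination h1

theorem wQQ (Q Q' : Matrix κ ν ℂ) : ω (iQ Q) (iQ Q') = 0 := by
  have h1 := h.cyc (iQ Q) (iQ Q') (iS 1)
  simp only [mQS, mSQ, mQQ, Matrix.mul_one, map_zero] at h1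
  linear_combination h1

theorem wPZ (P : Matrix ν π ℂ) (Z : ζ → Matrix ν ν ℂ) : ω (iP P) (iZ Z) = 0 := by
  have h1 := h.cyc (iZ Z) (iP P) (iS 1)
  simp only [mPS, mSZ, mZP, one_mul, map_zero] at h1
  linear_combination h1

theorem wQZ (Q : Matrix κ ν ℂ) (Z : ζ → Matrix ν ν ℂ) : ω (iQ Q) (iZ Z) = 0 := by
  have h1 := h.cyc (iQ Q) (iZ Z) (iS 1)
  simp only [mZS, mSQ, mQZ, mul_one, map_zero] at h1
  linear_combination h1

theorem wTP (P : Matrix ν π ℂ) (T : θ → ℂ) : ω (iT T) (iP P) = 0 := by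
  have h1 := h.cyc (iP P) (iT T) (iS 1)
  simp only [mTS, mSP, mPT, Matrix.one_mul, map_zero] at h1
  linear_combination h1

theorem wTQ (Q : Matrix κ ν ℂ) (T : θ → ℂ) : ω (iT T) (iQ Q) = 0 := by
  have h1 := h.cyc (iT T) (iQ Q) (iS 1)
  simp only [mQS, mST, mTQ, Matrix.mul_one, map_zero] at h1
  linear_combination h1

theorem wTZ (Z : ζ → Matrix ν ν ℂ) (T : θ → ℂ) : ω (iT T) (iZ Z) = 0 := by
  have h1 := h.cyc (iT T) (iZ Z) (iS 1)
  simp only [mZS, mST, mTZ, mul_one, map_zero] at h1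
  linear_combination h1

theorem wPQ' (P : Matrix ν π ℂ) (Q : Matrix κ ν ℂ) (s : Matrix ν ν ℂ) :
    ω (iP P) (iQ (Q * s)) = ω (iP (s * P)) (iQ Q) := by
  have h1 := h.cyc (iP P) (iQ Q) (iS s)
  simp only [mQS, mSP, mPQ, map_zero] at h1
  rw [h.anti (iQ Q)] at h1
  linear_combination h1

theorem wZZ1 (X Y : ζ → Matrix ν ν ℂ) (s : Matrix ν ν ℂ) :
    ω (iZ X) (iZ (fun i => Y i * s)) = ω (iZ (fun i => s * X i)) (iZ Y) := by
  have h1 := h.cyc (iZ X) (iZ Y) (iS s)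
  simp only [mZS, mSZ, mZZ, map_zero] at h1
  rw [h.anti (iZ Y)] at h1
  linear_combination h1

theorem wZZ2 (X Y : ζ → Matrix ν ν ℂ) (s : Matrix ν ν ℂ) :
    ω (iZ X) (iZ (fun i => s * Y i)) = ω (iZ (fun i => X i * s)) (iZ Y) := by
  have h1 := wZZ1 h Y X s
  rw [h.anti, h.anti (iZ (fun i => s * Y i))] at h1
  linear_combination h1

variable [Nonempty ν]

theorem wPQ : ∃ β : Matrix π κ ℂ, ∀ (P : Matrix ν π ℂ) (Q : Matrix κ ν ℂ),
    ω (iP P) (iQ Q) = trace (Q * P * β) := by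
  obtain ⟨ν0⟩ := ‹Nonempty ν›
  refine ⟨Matrix.of fun a b => ω (iP (single ν0 a 1)) (iQ (single b ν0 1)), ?_⟩
  intro P Q
  set β : Matrix π κ ℂ := Matrix.of fun a b => ω (iP (single ν0 a 1)) (iQ (single b ν0 1)) with hβ
  have key : ∀ (i : ν) (a : π) (b : κ) (j : ν),
      ω (iP (single i a (1 : ℂ))) (iQ (single b j (1 : ℂ)))
        = trace ((single b j (1 : ℂ) : Matrix κ ν ℂ) * (single i a (1 : ℂ) : Matrix ν π ℂ) * β) := by
    intro i a b j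
    have e1 : (single b j (1 : ℂ) : Matrix κ ν ℂ)
        = (single b ν0 (1 : ℂ) : Matrix κ ν ℂ) * (single ν0 j (1 : ℂ) : Matrix ν ν ℂ) := by
      rw [single_mul_single_same, mul_one]
    conv_lhs => rw [e1, wPQ' h]
    by_cases hij : j = i
    · subst hij
      rw [single_mul_single_same, mul_one, single_mul_single_same, mul_one, trace_single_mul,
        hβ, of_apply, one_smul]
    · rw [single_mul_single_of_ne _ _ _ _ hij, single_mul_single_of_ne _ _ _ _ hij, map_zero,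
        map_zero, LinearMap.zero_apply, Matrix.zero_mul, trace_zero]
  -- bilinear extension
  have hP : ∀ (b : κ) (j : ν) (P : Matrix ν π ℂ), ω (iP P) (iQ (single b j 1))
      = trace ((single b j 1 : Matrix κ ν ℂ) * P * β) := by
    intro b j P
    conv_lhs => rw [matrix_eq_sum_single P]
    conv_rhs => rw [matrix_eq_sum_single P]
    simp only [map_sum, LinearMap.sum_apply, Matrix.mul_sum, Matrix.sum_mul, trace_sum]
    apply Finset.sum_congr rfl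
    intro i _
    apply Finset.sum_congr rfl
    intro a _
    have : (single i a (P i a) : Matrix ν π ℂ) = P i a • single i a 1 := by
      rw [smul_single, smul_eq_mul, mul_one]
    rw [this, map_smul, map_smul, LinearMap.smul_apply, Matrix.mul_smul, Matrix.smul_mul,
      trace_smul, key]
  conv_lhs => rw [matrix_eq_sum_single Q]
  conv_rhs => rw [matrix_eq_sum_single Q]
  simp only [map_sum, Matrix.sum_mul, trace_sum]
  apply Finset.sum_congr rfl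
  intro b _
  apply Finset.sum_congr rfl
  intro j _
  have : (single b j (Q b j) : Matrix κ ν ℂ) = Q b j • single b j 1 := by
    rw [smul_single, smul_eq_mul, mul_one]
  rw [this, map_smul, map_smul, Matrix.smul_mul, Matrix.smul_mul, trace_smul, hP]

end forms

theorem even_of_anti {ι : Type} [Fintype ι] [DecidableEq ι] (c : Matrix ι ι ℂ)
    (hc : ∀ i j, c i j = - c j i) (hnd : ∀ a : ι → ℂ, (∀ j, ∑ i, a i * c i j = 0) → a = 0) :
    Even (Fintype.card ι) := by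
  by_contra hodd
  rw [Nat.not_even_iff_odd] at hodd
  have hN : c.transpose = -c := by
    ext a b
    simp only [Matrix.transpose_apply, Matrix.neg_apply]
    exact hc _ _
  have hdet : c.det = 0 := by
    have h1 : c.det = (-c).det := by rw [← hN, Matrix.det_transpose]
    rw [Matrix.det_neg, hodd.neg_one_pow] at h1
    have h2 : (2 : ℂ) * c.det = 0 := by linear_combination h1
    have h3 : (2 : ℂ) ≠ 0 := by norm_num
    exact (mul_eq_zero.mp h2).resolve_left h3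
  obtain ⟨v, hv, hv0⟩ := Matrix.exists_vecMul_eq_zero_iff.mpr hdet
  apply hv
  apply hnd
  intro j
  have := congrFun hv0 j
  simpa [Matrix.vecMul, dotProduct] using this

end Pool.Agent.Helper829.AS
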