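import Mathlib
import Pool.Agent.Helper829.ASa

set_option autoImplicit false
set_option linter.unusedSectionVars false
set_option linter.unusedSimpArgs false

namespace Pool.Agent.Helper829.AS

open Matrix

variable {ν ζ π κ θ : Type} [Fintype ν] [DecidableEq ν] [Fintype ζ] [DecidableEq ζ]
  [Fintype π] [DecidableEq π] [Fintype κ] [DecidableEq κ] [Fintype θ] [DecidableEq θ]

/-- the matrix tuple supported at `i` -/
def atz (i : ζ) (s : Matrix ν ν ℂ) : ζ → Matrix ν ν ℂ := Pi.single i s

theorem atz_mul_left (i : ζ) (s t : Matrix ν ν ℂ) :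
    (fun k => s * atz i t k) = atz i (s * t) := by
  funext k
  by_cases hk : k = i
  · subst hk; simp [atz]
  · simp [atz, hk]

theorem atz_mul_right (i : ζ) (s t : Matrix ν ν ℂ) :
    (fun k => atz i t k * s) = atz i (t * s) := by
  funext k
  by_cases hk : k = i
  · subst hk; simp [atz]
  · simp [atz, hk]

section forms

variable {ω : Sp ν ζ π κ θ →ₗ[ℂ] Sp ν ζ π κ θ →ₗ[ℂ] ℂ} (h : IsAF ω)
include h

/-- a vector orthogonal to all five pieces vanishes -/
theorem kill (x : Sp ν ζ π κ θ) (hS : ∀ s, ω x (iS s) = 0) (hZ : ∀ Z, ω x (iZ Z) = 0)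
    (hP : ∀ P, ω x (iP P) = 0) (hQ : ∀ Q, ω x (iQ Q) = 0) (hT : ∀ T, ω x (iT T) = 0) : x = 0 := by
  apply h.nd
  intro y
  rw [dec y, map_add, map_add, map_add, map_add, hS, hZ, hP, hQ, hT]
  ring

/-- trace-like functionals -/
theorem trace_like (f : Matrix ν ν ℂ →ₗ[ℂ] ℂ) (hf : ∀ s t, f (s * t) = f (t * s))
    (h1 : f 1 = 0) [Nonempty ν] (s : Matrix ν ν ℂ) : f s = 0 := by
  obtain ⟨ν0⟩ := ‹Nonempty ν›
  have hoff : ∀ i j : ν, i ≠ j → f (single i j 1) = 0 := by
    intro i j hij
    have e1 : (single i j (1 : ℂ) : Matrix ν ν ℂ) = single i i 1 * single i j 1 := by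
      rw [single_mul_single_same, mul_one]
    rw [e1, hf, single_mul_single_of_ne _ _ _ _ hij.symm, map_zero]
  have hdiag : ∀ i : ν, f (single i i 1) = f (single ν0 ν0 1) := by
    intro i
    have e1 : (single i i (1 : ℂ) : Matrix ν ν ℂ) = single i ν0 1 * single ν0 i 1 := by
      rw [single_mul_single_same, mul_one]
    have e2 : (single ν0 ν0 (1 : ℂ) : Matrix ν ν ℂ) = single ν0 i 1 * single i ν0 1 := by
      rw [single_mul_single_same, mul_one]
    rw [e1, e2, hf]
  have hall : ∀ s, f s = trace s * f (single ν0 ν0 1) := by
    intro s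
    conv_lhs => rw [matrix_eq_sum_single s]
    simp only [map_sum, trace, diag_apply, Finset.sum_mul]
    apply Finset.sum_congr rfl
    intro i _
    rw [Finset.sum_eq_single i]
    · have : (single i i (s i i) : Matrix ν ν ℂ) = s i i • single i i 1 := by
        rw [smul_single, smul_eq_mul, mul_one]
      rw [this, map_smul, smul_eq_mul, hdiag]
    · intro j _ hj
      have : (single i j (s i j) : Matrix ν ν ℂ) = s i j • single i j 1 := by
        rw [smul_single, smul_eq_mul, mul_one]
      rw [this, map_smul, smul_eq_mul, hoff i j hj.symm, mul_zero]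
    · simp
  have h2 := hall 1
  rw [h1, trace_one] at h2
  have h3 : (Fintype.card ν : ℂ) ≠ 0 := by
    have : 0 < Fintype.card ν := Fintype.card_pos_iff.mpr ⟨ν0⟩
    exact_mod_cast this.ne'
  have h4 : f (single ν0 ν0 1) = 0 := (mul_eq_zero.mp h2.symm).resolve_left h3
  rw [hall, h4, mul_zero]

theorem even_zeta [Nonempty ν] : Even (Fintype.card ζ) := by
  obtain ⟨ν0⟩ := id ‹Nonempty ν›
  apply even_of_anti (Matrix.of fun i j => ω (iZ (atz i (single ν0 ν0 1)))
    (iZ (atz j (single ν0 ν0 1))))
  · intro i j
    exact h.anti _ _
  · intro a ha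
    simp only [of_apply] at ha
    have hx : (iZ (fun i => a i • (1 : Matrix ν ν ℂ)) : Sp ν ζ π κ θ) = 0 := by
      apply kill h
      · intro s
        rw [h.anti, neg_eq_zero]
        let f : Matrix ν ν ℂ →ₗ[ℂ] ℂ :=
          (ω.flip (iZ (fun i => a i • (1 : Matrix ν ν ℂ)))).comp iS
        have hf : ∀ s t, f (s * t) = f (t * s) := by
          intro s t
          have e1 := h.cyc (iS s) (iS t) (iZ (fun i => a i • (1 : Matrix ν ν ℂ)))
          have e2 := h.cyc (iS t) (iS s) (iZ (fun i => a i • (1 : Matrix ν ν ℂ)))
          simp only [mSZ, mZS, mSS] at e1 e2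
          have c1 : (fun i => t * a i • (1 : Matrix ν ν ℂ))
              = (fun i => a i • (1 : Matrix ν ν ℂ) * t) := by
            funext i; simp
          have c2 : (fun i => s * a i • (1 : Matrix ν ν ℂ))
              = (fun i => a i • (1 : Matrix ν ν ℂ) * s) := by
            funext i; simp
          rw [c1] at e1
          rw [c2] at e2
          rw [h.anti (iZ _)] at e1 e2
          change ω (iS (s * t)) _ = ω (iS (t * s)) _
          linear_combination e2 - e1
        have h1 : f 1 = 0 := w1Z h _
        exact trace_like h f hf h1 s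
      · intro Z
        let f : (ζ → Matrix ν ν ℂ) →ₗ[ℂ] ℂ :=
          (ω (iZ (fun i => a i • (1 : Matrix ν ν ℂ)))).comp iZ
        have hf0 : f = 0 := by
          apply LinearMap.pi_ext'
          intro j
          apply Matrix.ext_linearMap
          intro k l
          apply LinearMap.ext_ring
          simp only [LinearMap.comp_apply, LinearMap.single_apply, LinearMap.zero_apply,
            Matrix.singleLinearMap_apply]
          change ω (iZ (fun i => a i • (1 : Matrix ν ν ℂ))) (iZ (atz j (single k l 1))) = 0
          have e1 : atz j (single k l (1 : ℂ)) = fun i => single k ν0 (1 : ℂ) *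
              (fun i' => atz j (single ν0 ν0 (1 : ℂ)) i' * single ν0 l (1 : ℂ)) i := by
            rw [atz_mul_right, atz_mul_left]
            rw [single_mul_single_same, mul_one, single_mul_single_same, mul_one]
          rw [e1, wZZ2 h, wZZ1 h]
          by_cases hkl : l = k
          · subst hkl
            have e2 : (fun i => single ν0 l (1 : ℂ) * (fun i' => a i' • (1 : Matrix ν ν ℂ) *
                single l ν0 (1 : ℂ)) i) = ∑ i, a i • atz i (single ν0 ν0 (1 : ℂ)) := by
              funext i
              simp only [smul_mul_assoc, one_mul, Matrix.mul_smul]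
              rw [single_mul_single_same, mul_one, Finset.sum_apply,
                Finset.sum_eq_single i]
              · simp [atz]
              · intro i' _ hi'
                simp [atz, Pi.single_apply, hi'.symm]
              · simp
            rw [e2, map_sum, map_sum, LinearMap.sum_apply]
            rw [← ha j]
            apply Finset.sum_congr rfl
            intro i _
            rw [map_smul, map_smul, LinearMap.smul_apply, smul_eq_mul]
          · have e2 : (fun i => single ν0 l (1 : ℂ) * (fun i' => a i' • (1 : Matrix ν ν ℂ) *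
                single k ν0 (1 : ℂ)) i) = 0 := by
              funext i
              simp only [smul_mul_assoc, one_mul, Matrix.mul_smul]
              rw [single_mul_single_of_ne _ _ _ _ hkl, smul_zero]
              rfl
            rw [e2, map_zero, map_zero, LinearMap.zero_apply]
        exact LinearMap.congr_fun hf0 Z
      · intro P
        rw [h.anti, wPZ h, neg_zero]
      · intro Q
        rw [h.anti, wQZ h, neg_zero]
      · intro T
        rw [h.anti, wTZ h, neg_zero]
    funext i
    have h1 := congrArg (fun X : Sp ν ζ π κ θ => X.2.1 i ν0 ν0) hx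
    simpa [iZ_def] using h1

theorem even_theta : Even (Fintype.card θ) := by
  apply even_of_anti (Matrix.of fun i j => ω (iT (Pi.single i 1)) (iT (Pi.single j 1)))
  · intro i j
    exact h.anti _ _
  · intro a ha
    simp only [of_apply] at ha
    have hx : (iT a : Sp ν ζ π κ θ) = 0 := by
      apply kill h
      · intro s
        rw [h.anti, wST h, neg_zero]
      · intro Z
        exact wTZ h _ _
      · intro P
        exact wTP h _ _
      · intro Q
        exact wTQ h _ _
      · intro T
        let f : (θ → ℂ) →ₗ[ℂ] ℂ := (ω (iT a)).comp iT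
        have hf0 : f = 0 := by
          apply LinearMap.pi_ext'
          intro j
          apply LinearMap.ext_ring
          simp only [LinearMap.comp_apply, LinearMap.single_apply, LinearMap.zero_apply]
          change ω (iT a) (iT (Pi.single j 1)) = 0
          have e1 : a = ∑ i, a i • (Pi.single i (1 : ℂ) : θ → ℂ) := by
            funext k; simp [Finset.sum_apply, Pi.single_apply]
          rw [e1, map_sum, map_sum, LinearMap.sum_apply]
          rw [← ha j]
          apply Finset.sum_congr rfl
          intro i _
          rw [map_smul, map_smul, LinearMap.smul_apply, smul_eq_mul]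
        exact LinearMap.congr_fun hf0 T
    have h1 := congrArg (fun X : Sp ν ζ π κ θ => X.2.2.2.2) hx
    simpa [iT_def] using h1

end forms

end Pool.Agent.Helper829.AS
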