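import Mathlib
import Pool.Agent.Helper829.ASb

set_option autoImplicit false
set_option linter.unusedSectionVars false
set_option linter.unusedSimpArgs false

namespace Pool.Agent.Helper829.AS

open Matrix

variable {ν ζ π κ θ : Type} [Fintype ν] [DecidableEq ν] [Fintype ζ] [DecidableEq ζ]
  [Fintype π] [DecidableEq π] [Fintype κ] [DecidableEq κ] [Fintype θ] [DecidableEq θ]

theorem vmv_zero {m n : Type} {a : m → ℂ} {b : n → ℂ} (h : vecMulVec a b = 0) :
    a = 0 ∨ b = 0 := by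
  by_cases ha : a = 0
  · exact Or.inl ha
  · right
    obtain ⟨i, hi⟩ := Function.ne_iff.mp ha
    funext j
    have := congrFun (congrFun h i) j
    rw [vecMulVec_apply] at this
    exact (mul_eq_zero.mp this).resolve_left hi

section forms

variable {ω : Sp ν ζ π κ θ →ₗ[ℂ] Sp ν ζ π κ θ →ₗ[ℂ] ℂ} (h : IsAF ω)
include h

/-- normal form data -/
theorem normal [Nonempty ν] : ∃ (β : Matrix π κ ℂ) (Φ : Matrix π ν ℂ) (W : Matrix ν κ ℂ),
    (∀ (P : Matrix ν π ℂ) (Q : Matrix κ ν ℂ), ω (iP P) (iQ Q) = trace (Q * P * β)) ∧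
    (∀ (s : Matrix ν ν ℂ) (P : Matrix ν π ℂ), ω (iS s) (iP P) = trace (Φ * s * P)) ∧
    (∀ (s : Matrix ν ν ℂ) (Q : Matrix κ ν ℂ), ω (iS s) (iQ Q) = trace (Q * s * W)) := by
  obtain ⟨β, hβ⟩ := wPQ h
  obtain ⟨Φ, hΦ⟩ := lin_tr ((ω (iS 1)).comp iP)
  obtain ⟨W, hW⟩ := lin_tr ((ω (iS 1)).comp iQ)
  refine ⟨β, Φ, W, hβ, ?_, ?_⟩
  · intro s P
    rw [wSP h]
    have := hΦ (s * P)
    rw [LinearMap.comp_apply] at this
    rw [this, Matrix.mul_assoc]
  · intro s Q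
    rw [wSQ h]
    have := hW (Q * s)
    rw [LinearMap.comp_apply] at this
    rw [this, trace_mul_comm]

variable {β : Matrix π κ ℂ} {Φ : Matrix π ν ℂ} {W : Matrix ν κ ℂ}
    (hβ : ∀ (P : Matrix ν π ℂ) (Q : Matrix κ ν ℂ), ω (iP P) (iQ Q) = trace (Q * P * β))
    (hΦ : ∀ (s : Matrix ν ν ℂ) (P : Matrix ν π ℂ), ω (iS s) (iP P) = trace (Φ * s * P))
    (hW : ∀ (s : Matrix ν ν ℂ) (Q : Matrix κ ν ℂ), ω (iS s) (iQ Q) = trace (Q * s * W))
include hβ hΦ hW

theorem not_both [Nonempty ν] (α : π → ℂ) (hα : α ᵥ* β = 0) (δ : κ → ℂ) (hδ : β *ᵥ δ = 0) :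
    α = 0 ∨ δ = 0 := by
  by_contra hcon
  push Not at hcon
  obtain ⟨hα0, hδ0⟩ := hcon
  -- first kernel element
  have hx : (iP (vecMulVec (W *ᵥ δ) α) - iQ (vecMulVec δ (α ᵥ* Φ)) : Sp ν ζ π κ θ) = 0 := by
    apply kill h
    · intro s
      rw [h.anti, map_sub, hΦ, hW]
      rw [mul_vecMulVec, vecMulVec_mul, vecMulVec_mul, trace_vecMulVec, trace_vecMulVec]
      rw [dotProduct_comm, dotProduct_mulVec, dotProduct_mulVec, dotProduct_comm δ]
      simp only [Matrix.vecMul_vecMul, sub_self, neg_zero]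
    · intro Z
      rw [map_sub, LinearMap.sub_apply, wPZ h, wQZ h, sub_zero]
    · intro P
      rw [map_sub, LinearMap.sub_apply, wPP h, h.anti (iQ _), hβ, vecMulVec_mul, vecMulVec_mul,
        trace_vecMulVec, dotProduct_comm, ← dotProduct_mulVec, hδ]
      simp
    · intro Q
      rw [map_sub, LinearMap.sub_apply, wQQ h, hβ, mul_vecMulVec, vecMulVec_mul, hα]
      simp
    · intro T
      rw [map_sub, LinearMap.sub_apply, h.anti, wTP h, h.anti (iQ _), wTQ h]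
      simp
  have h1 : vecMulVec (W *ᵥ δ) α = 0 := by
    have := congrArg (fun X : Sp ν ζ π κ θ => X.2.2.1) hx
    simpa [iP_def, iQ_def] using this
  have h2 : vecMulVec δ (α ᵥ* Φ) = 0 := by
    have := congrArg (fun X : Sp ν ζ π κ θ => X.2.2.2.1) hx
    simpa [iP_def, iQ_def] using this
  have h3 : α ᵥ* Φ = 0 := (vmv_zero h2).resolve_left hδ0
  have hy : (iP (vecMulVec (fun _ => 1) α) : Sp ν ζ π κ θ) = 0 := by
    apply kill h
    · intro s
      rw [h.anti, hΦ, mul_vecMulVec, trace_vecMulVec, dotProduct_comm, dotProduct_mulVec,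
        ← Matrix.vecMul_vecMul, h3]
      simp
    · intro Z
      rw [wPZ h]
    · intro P
      rw [wPP h]
    · intro Q
      rw [hβ, mul_vecMulVec, vecMulVec_mul, hα]
      simp
    · intro T
      rw [h.anti, wTP h, neg_zero]
  have h4 : vecMulVec (fun _ => 1 : ν → ℂ) α = 0 := by
    have := congrArg (fun X : Sp ν ζ π κ θ => X.2.2.1) hy
    simpa [iP_def, iQ_def] using this
  rcases vmv_zero h4 with h5 | h5
  · obtain ⟨ν0⟩ := ‹Nonempty ν›
    have := congrFun h5 ν0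
    simp at this
  · exact hα0 h5

/-- the representing element -/
theorem rep_exists (u : Matrix π π ℂ) : ∃ a : Sp ν ζ π κ θ,
    ∀ Y : Sp ν ζ π κ θ, ω a Y = trace (Φ * Y.2.2.1 * u) := by
  have hinj : Function.Injective (ω : Sp ν ζ π κ θ →ₗ[ℂ] Module.Dual ℂ (Sp ν ζ π κ θ)) := by
    rw [injective_iff_map_eq_zero]
    intro a ha
    apply h.nd
    intro y
    rw [ha]; rfl
  have hsurj : Function.Surjective (ω : Sp ν ζ π κ θ →ₗ[ℂ] Module.Dual ℂ (Sp ν ζ π κ θ)) := by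
    have hdim : Module.finrank ℂ (Sp ν ζ π κ θ)
        = Module.finrank ℂ (Module.Dual ℂ (Sp ν ζ π κ θ)) := (Subspace.dual_finrank_eq).symm
    exact (LinearMap.injective_iff_surjective_of_finrank_eq_finrank hdim).mp hinj
  let f : Sp ν ζ π κ θ →ₗ[ℂ] ℂ :=
    { toFun := fun Y => trace (Φ * Y.2.2.1 * u)
      map_add' := by
        intro X Y
        simp [Matrix.mul_add, Matrix.add_mul]
      map_smul' := by
        intro c X
        simp }
  obtain ⟨a, ha⟩ := hsurj f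
  refine ⟨a, fun Y => ?_⟩
  have := LinearMap.congr_fun ha Y
  exact this

theorem rep_unique (a a' : Sp ν ζ π κ θ) (h1 : ∀ Y, ω a Y = ω a' Y) : a = a' := by
  rw [← sub_eq_zero]
  apply h.nd
  intro y
  rw [map_sub, LinearMap.sub_apply, h1, sub_self]

/-- multiplicativity -/
theorem rep_mul {u u' : Matrix π π ℂ} (hu : u * β = 0) (hu' : u' * β = 0)
    {a a' b : Sp ν ζ π κ θ} (ha : ∀ Y : Sp ν ζ π κ θ, ω a Y = trace (Φ * Y.2.2.1 * u))
    (ha' : ∀ Y : Sp ν ζ π κ θ, ω a' Y = trace (Φ * Y.2.2.1 * u'))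
    (hb : ∀ Y : Sp ν ζ π κ θ, ω b Y = trace (Φ * Y.2.2.1 * (u * u'))) :
    b = mul a a' + iP (a.2.2.1 * u') := by
  apply rep_unique h hβ hΦ hW
  intro Y
  rw [hb, map_add, LinearMap.add_apply]
  have h1 := h.cyc Y a a'
  have h2 : ω (mul a a') Y = ω a (mul a' Y) + ω a' (mul Y a) := by
    rw [h.anti (mul a a')]
    linear_combination -h1
  rw [h2, ha, ha']
  have h3 : ω (iP (a.2.2.1 * u')) Y = - trace (Φ * Y.1 * (a.2.2.1 * u')) := by
    conv_lhs => rw [dec Y]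
    rw [map_add, map_add, map_add, map_add, h.anti _ (iS Y.1), hΦ, wPZ h, wPP h, hβ,
      h.anti _ (iT _), wTP h]
    have : Y.2.2.2.1 * (a.2.2.1 * u') * β = Y.2.2.2.1 * a.2.2.1 * (u' * β) := by
      simp only [Matrix.mul_assoc]
    rw [this, hu', Matrix.mul_zero, trace_zero]
    ring
  rw [h3]
  -- evaluate the remaining term
  have h4 : trace (Φ * a'.1 * (Y.2.2.1 * u)) = trace (Φ * (Y.2.2.1 * u) * u') := by
    have e1 := ha' (iP (Y.2.2.1 * u))
    have e2 : ω a' (iP (Y.2.2.1 * u)) = trace (Φ * a'.1 * (Y.2.2.1 * u)) := by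
      conv_lhs => rw [dec a']
      simp only [map_add, LinearMap.add_apply]
      rw [hΦ, h.anti (iZ _), wPZ h, wPP h, h.anti (iQ _), hβ, wTP h]
      have : a'.2.2.2.1 * (Y.2.2.1 * u) * β = a'.2.2.2.1 * Y.2.2.1 * (u * β) := by
        simp only [Matrix.mul_assoc]
      rw [this, hu, Matrix.mul_zero, trace_zero]
      ring
    rw [← e2, e1]
    rfl
  have h5 : (mul a' Y).2.2.1 = a'.1 * Y.2.2.1 := rfl
  have h6 : (mul Y a).2.2.1 = Y.1 * a.2.2.1 := rfl
  rw [h5, h6]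
  simp only [Matrix.mul_assoc] at h4 ⊢
  rw [← h4]
  ring

/-- the unit -/
theorem rep_one {γ : Matrix κ π ℂ} (hγ : γ * β = 1) {a : Sp ν ζ π κ θ}
    (ha : ∀ Y : Sp ν ζ π κ θ, ω a Y = trace (Φ * Y.2.2.1 * (1 - β * γ))) : a.1 = 1 := by
  have h1 : a = iS 1 + iP (-(W * γ)) + iQ (γ * Φ) := by
    apply rep_unique h hβ hΦ hW
    intro Y
    rw [ha]
    conv_rhs => rw [dec Y]
    simp only [map_add, LinearMap.add_apply]
    rw [w1S h, h.anti (iP _) (iS _), hΦ, h.anti (iQ _) (iS _), hW, w1Z h, wPZ h, wQZ h,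
      hΦ, wPP h, h.anti (iQ _) (iP _), hβ, hW, hβ, wQQ h, wST h, h.anti (iP _) (iT _), wTP h,
      h.anti (iQ _) (iT _), wTQ h]
    have e1 : trace (Φ * Y.1 * (-(W * γ))) = - trace (γ * Φ * Y.1 * W) := by
      rw [Matrix.mul_neg, trace_neg]
      congr 1
      rw [← Matrix.mul_assoc, trace_mul_comm]
      simp only [Matrix.mul_assoc]
    have e2 : trace (Y.2.2.2.1 * (-(W * γ)) * β) = - trace (Y.2.2.2.1 * (1 : Matrix ν ν ℂ) * W) := by
      rw [Matrix.mul_neg, Matrix.neg_mul, trace_neg]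
      congr 1
      rw [Matrix.mul_assoc, Matrix.mul_assoc, hγ, Matrix.mul_one, Matrix.mul_one]
    have e3 : trace (γ * Φ * Y.2.2.1 * β) = trace (Φ * Y.2.2.1 * (β * γ)) := by
      rw [Matrix.mul_assoc, Matrix.mul_assoc, trace_mul_comm]
      simp only [Matrix.mul_assoc]
    rw [e1, e2, e3, Matrix.mul_sub, trace_sub, Matrix.mul_one, Matrix.mul_one]
    ring
  rw [h1]
  simp [iS_def, iP_def, iQ_def]

end forms

end Pool.Agent.Helper829.AS
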