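import Mathlib
import Pool.Agent.Helper829.ASc

set_option autoImplicit false
set_option linter.unusedSectionVars false
set_option linter.unusedSimpArgs false

namespace Pool.Agent.Helper829.AS

open Matrix

variable {ν ζ π κ θ : Type} [Fintype ν] [DecidableEq ν] [Fintype ζ] [DecidableEq ζ]
  [Fintype π] [DecidableEq π] [Fintype κ] [DecidableEq κ] [Fintype θ] [DecidableEq θ]

theorem complete (β : Matrix π κ ℂ) (hinj : ∀ δ, β *ᵥ δ = 0 → δ = 0) :
    ∃ b : ℕ, Fintype.card π = Fintype.card κ + b ∧
      ∃ (γ : Matrix κ π ℂ) (β' : Matrix π (Fin b) ℂ) (γ' : Matrix (Fin b) π ℂ),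
      γ * β = 1 ∧ γ' * β = 0 ∧ γ' * β' = 1 ∧ β * γ + β' * γ' = 1 := by
  let f : (κ → ℂ) →ₗ[ℂ] (π → ℂ) := Matrix.toLin' β
  have hf : Function.Injective f := by
    rw [injective_iff_map_eq_zero]
    intro a ha
    exact hinj a ha
  obtain ⟨X, hX⟩ := Submodule.exists_isCompl (LinearMap.range f)
  let bs := Module.finBasis ℂ X
  let fe : (κ → ℂ) ≃ₗ[ℂ] LinearMap.range f := LinearEquiv.ofInjective f hf
  have hfe : ∀ x, ((fe x : LinearMap.range f) : π → ℂ) = f x := fun x => rfl
  refine ⟨Module.finrank ℂ X, ?_,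
    LinearMap.toMatrix' (fe.symm.toLinearMap.comp ((LinearMap.range f).projectionOnto X hX)),
    LinearMap.toMatrix' (X.subtype.comp bs.equivFun.symm.toLinearMap),
    LinearMap.toMatrix' (bs.equivFun.toLinearMap.comp (X.projectionOnto (LinearMap.range f) hX.symm)),
    ?_, ?_, ?_, ?_⟩
  · have h1 := Submodule.finrank_add_eq_of_isCompl hX
    rw [LinearMap.finrank_range_of_inj hf] at h1
    simp only [Module.finrank_fintype_fun_eq_card] at h1
    exact h1.symm
  · have e1 : β = LinearMap.toMatrix' f := by simp [f]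
    conv_lhs => rw [e1]
    rw [← LinearMap.toMatrix'_comp, ← LinearMap.toMatrix'_id]
    congr 1
    apply LinearMap.ext
    intro x
    simp only [LinearMap.comp_apply, LinearEquiv.coe_coe, LinearMap.id_apply]
    rw [← hfe x, Submodule.projectionOnto_apply_left, LinearEquiv.symm_apply_apply]
  · have e1 : β = LinearMap.toMatrix' f := by simp [f]
    conv_lhs => rw [e1]
    rw [← LinearMap.toMatrix'_comp]
    have : (bs.equivFun.toLinearMap.comp
        (X.projectionOnto (LinearMap.range f) hX.symm)).comp f = 0 := by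
      apply LinearMap.ext
      intro x
      simp only [LinearMap.comp_apply, LinearEquiv.coe_coe, LinearMap.zero_apply]
      rw [← hfe x, Submodule.projectionOnto_apply_right, map_zero]
    rw [this, map_zero]
  · rw [← LinearMap.toMatrix'_comp, ← LinearMap.toMatrix'_id]
    congr 1
    apply LinearMap.ext
    intro x
    simp only [LinearMap.comp_apply, LinearEquiv.coe_coe, LinearMap.id_apply,
      Submodule.coe_subtype]
    rw [Submodule.projectionOnto_apply_left, LinearEquiv.apply_symm_apply]
  · have e1 : β = LinearMap.toMatrix' f := by simp [f]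
    conv_lhs => rw [e1]
    rw [← LinearMap.toMatrix'_comp, ← LinearMap.toMatrix'_comp, ← LinearMap.toMatrix'_id,
      ← map_add]
    congr 1
    apply LinearMap.ext
    intro x
    simp only [LinearMap.comp_apply, LinearEquiv.coe_coe, LinearMap.id_apply,
      LinearMap.add_apply, Submodule.coe_subtype, LinearEquiv.symm_apply_apply]
    rw [← hfe, LinearEquiv.apply_symm_apply]
    exact Submodule.projection_add_projection_eq_self hX x

theorem trace_idem (e : Matrix ν ν ℂ) (he : e * e = e) : ∃ r : ℕ, trace e = r := by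
  have h1 : IsIdempotentElem (Matrix.toLin' e) := by
    unfold IsIdempotentElem
    rw [Module.End.mul_eq_comp, ← Matrix.toLin'_mul, he]
  refine ⟨Module.finrank ℂ (LinearMap.range (Matrix.toLin' e)), ?_⟩
  rw [← (LinearMap.IsIdempotentElem.isProj_range _ h1).trace, Matrix.trace_toLin'_eq]

theorem dvd_of_units {b : ℕ} (e : Fin b → Fin b → Matrix ν ν ℂ)
    (h1 : ∀ i j k, e i j * e j k = e i k) (h2 : ∑ i, e i i = 1) : b ∣ Fintype.card ν := by
  have h3 : (Fintype.card ν : ℂ) = ∑ i, trace (e i i) := by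
    rw [← trace_sum, h2, trace_one]
  cases b with
  | zero =>
    rw [Finset.univ_eq_empty, Finset.sum_empty] at h3
    have : Fintype.card ν = 0 := by exact_mod_cast h3
    rw [this]
  | succ b =>
    obtain ⟨r, hr⟩ := trace_idem (e 0 0) (h1 0 0 0)
    have h4 : ∀ i, trace (e i i) = r := by
      intro i
      rw [← hr, ← h1 i 0 i, trace_mul_comm, h1]
    simp only [h4, Finset.sum_const, Finset.card_univ, Fintype.card_fin, nsmul_eq_mul] at h3
    have h5 : Fintype.card ν = (b + 1) * r := by exact_mod_cast h3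
    exact ⟨r, h5⟩

/-- if the right kernel of `β` is trivial -/
theorem dvd_one {ω : Sp ν ζ π κ θ →ₗ[ℂ] Sp ν ζ π κ θ →ₗ[ℂ] ℂ} (h : IsAF ω)
    {β : Matrix π κ ℂ} {Φ : Matrix π ν ℂ} {W : Matrix ν κ ℂ}
    (hβ : ∀ (P : Matrix ν π ℂ) (Q : Matrix κ ν ℂ), ω (iP P) (iQ Q) = trace (Q * P * β))
    (hΦ : ∀ (s : Matrix ν ν ℂ) (P : Matrix ν π ℂ), ω (iS s) (iP P) = trace (Φ * s * P))
    (hW : ∀ (s : Matrix ν ν ℂ) (Q : Matrix κ ν ℂ), ω (iS s) (iQ Q) = trace (Q * s * W))
    (hinj : ∀ δ, β *ᵥ δ = 0 → δ = 0) :
    ∃ b : ℕ, Fintype.card π = Fintype.card κ + b ∧ b ∣ Fintype.card ν := by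
  obtain ⟨b, hb, γ, β', γ', g1, g2, g3, g4⟩ := complete β hinj
  refine ⟨b, hb, ?_⟩
  have hex := fun i j : Fin b => rep_exists h hβ hΦ hW (β' * single i j (1 : ℂ) * γ')
  choose A hA using hex
  have hu : ∀ i j : Fin b, (β' * single i j (1 : ℂ) * γ') * β = 0 := by
    intro i j
    rw [Matrix.mul_assoc, g2, Matrix.mul_zero]
  apply dvd_of_units (fun i j => (A i j).1)
  · intro i j k
    have h1 := rep_mul h hβ hΦ hW (hu i j) (hu j k) (hA i j) (hA j k) (b := A i k) (by
      intro Y
      rw [hA]
      congr 2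
      have : (β' * single i j (1 : ℂ) * γ') * (β' * single j k (1 : ℂ) * γ')
          = β' * (single i j (1 : ℂ) * (γ' * β') * single j k (1 : ℂ)) * γ' := by
        simp only [Matrix.mul_assoc]
      rw [this, g3, Matrix.mul_one, single_mul_single_same, mul_one])
    have h2 := congrArg (fun X : Sp ν ζ π κ θ => X.1) h1
    simp only [mul, iP_def, Prod.fst_add, add_zero] at h2
    exact h2.symm
  · have h1 := rep_one h hβ hΦ hW g1 (a := ∑ i, A i i) (by
      intro Y
      rw [map_sum, LinearMap.sum_apply]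
      simp only [hA]
      rw [← trace_sum, ← Matrix.mul_sum]
      congr 2
      have : ∑ i : Fin b, β' * single i i (1 : ℂ) * γ' = β' * (∑ i : Fin b, single i i (1 : ℂ)) * γ' := by
        rw [Matrix.mul_sum, Matrix.sum_mul]
      rw [this]
      have h3 : (∑ i : Fin b, single i i (1 : ℂ) : Matrix (Fin b) (Fin b) ℂ) = 1 := by
        ext k l
        rw [Matrix.sum_apply]
        simp only [Matrix.single_apply, Matrix.one_apply]
        by_cases hkl : k = l
        · subst hkl
          rw [Finset.sum_eq_single k]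
          · simp
          · intro i _ hi; simp [hi]
          · simp
        · rw [if_neg hkl]
          apply Finset.sum_eq_zero
          intro i _
          rw [if_neg]
          rintro ⟨h1, h2⟩
          exact hkl (h1.symm.trans h2)
      rw [h3, Matrix.mul_one]
      exact eq_sub_of_add_eq' g4)
    rw [Prod.fst_sum] at h1
    exact h1

end Pool.Agent.Helper829.AS
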