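import Mathlib
import Pool.Agent.Helper829.ASd

set_option autoImplicit false
set_option linter.unusedSectionVars false
set_option linter.unusedSimpArgs false

namespace Pool.Agent.Helper829.AS

open Matrix

variable {ν ζ π κ θ : Type} [Fintype ν] [DecidableEq ν] [Fintype ζ] [DecidableEq ζ]
  [Fintype π] [DecidableEq π] [Fintype κ] [DecidableEq κ] [Fintype θ] [DecidableEq θ]

/-- transposition -/
def tp : Sp ν ζ κ π θ →ₗ[ℂ] Sp ν ζ π κ θ where
  toFun X := (X.1ᵀ, fun i => (X.2.1 i)ᵀ, X.2.2.2.1ᵀ, X.2.2.1ᵀ, X.2.2.2.2)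
  map_add' X Y := by
    refine Prod.ext ?_ (Prod.ext ?_ (Prod.ext ?_ (Prod.ext ?_ ?_)))
    · simp
    · funext i; simp
    · simp
    · simp
    · simp
  map_smul' c X := by
    refine Prod.ext ?_ (Prod.ext ?_ (Prod.ext ?_ (Prod.ext ?_ ?_)))
    · simp
    · funext i; simp
    · simp
    · simp
    · simp

theorem tp_tp (X : Sp ν ζ π κ θ) : (tp (tp X : Sp ν ζ κ π θ) : Sp ν ζ π κ θ) = X := by
  simp [tp]

theorem tp_mul (X Y : Sp ν ζ κ π θ) : (tp (mul X Y) : Sp ν ζ π κ θ) = mul (tp Y) (tp X) := by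
  refine Prod.ext ?_ (Prod.ext ?_ (Prod.ext ?_ (Prod.ext ?_ ?_)))
  · simp [tp, mul]
  · funext i; simp [tp, mul, add_comm]
  · simp [tp, mul]
  · simp [tp, mul]
  · simp [tp, mul]

theorem af_tp {ω : Sp ν ζ π κ θ →ₗ[ℂ] Sp ν ζ π κ θ →ₗ[ℂ] ℂ} (h : IsAF ω) :
    IsAF (ω.compl₁₂ (tp : Sp ν ζ κ π θ →ₗ[ℂ] _) tp) := by
  refine ⟨?_, ?_, ?_⟩
  · intro x hx
    have h1 : (tp x : Sp ν ζ π κ θ) = 0 := by
      apply h.nd
      intro y
      have := hx (tp y)
      rw [LinearMap.compl₁₂_apply, tp_tp] at this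
      exact this
    rw [← tp_tp x, h1, map_zero]
  · intro x y
    rw [LinearMap.compl₁₂_apply, LinearMap.compl₁₂_apply, h.anti]
  · intro x y z
    simp only [LinearMap.compl₁₂_apply, tp_mul]
    have := h.cyc (tp x) (tp z) (tp y)
    linear_combination this

theorem fwd [Nonempty ν] {ω : Sp ν ζ π κ θ →ₗ[ℂ] Sp ν ζ π κ θ →ₗ[ℂ] ℂ} (h : IsAF ω) :
    Even (Fintype.card ζ) ∧ Even (Fintype.card θ) ∧
      ((Fintype.card π : ℤ) - Fintype.card κ) ∣ (Fintype.card ν : ℤ) := by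
  refine ⟨even_zeta h, even_theta h, ?_⟩
  obtain ⟨β, Φ, W, hβ, hΦ, hW⟩ := normal h
  by_cases hR : ∀ δ, β *ᵥ δ = 0 → δ = 0
  · obtain ⟨b, h1, h2⟩ := dvd_one h hβ hΦ hW hR
    have : ((Fintype.card π : ℤ) - Fintype.card κ) = b := by
      rw [h1]; push_cast; ring
    rw [this]
    exact_mod_cast h2
  · push Not at hR
    obtain ⟨δ, hδ, hδ0⟩ := hR
    have hL : ∀ α, α ᵥ* β = 0 → α = 0 := by
      intro α hα
      exact (not_both h hβ hΦ hW α hα δ hδ).resolve_right hδ0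
    have h' := af_tp h
    obtain ⟨b, h1, h2⟩ := dvd_one (β := -βᵀ) (Φ := Wᵀ) (W := Φᵀ) h' (by
        intro P Q
        rw [LinearMap.compl₁₂_apply]
        have e1 : (tp (iP P : Sp ν ζ κ π θ) : Sp ν ζ π κ θ) = iQ Pᵀ := by
          simp [tp, iP_def, iQ_def]; rfl
        have e2 : (tp (iQ Q : Sp ν ζ κ π θ) : Sp ν ζ π κ θ) = iP Qᵀ := by
          simp [tp, iP_def, iQ_def]; rfl
        rw [e1, e2, h.anti, hβ, ← trace_transpose]
        simp only [transpose_mul, transpose_transpose, Matrix.mul_neg, trace_neg]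
        rw [← trace_mul_comm, Matrix.mul_assoc])
      (by
        intro s P
        rw [LinearMap.compl₁₂_apply]
        have e1 : (tp (iS s : Sp ν ζ κ π θ) : Sp ν ζ π κ θ) = iS sᵀ := by
          simp [tp, iS_def]; rfl
        have e2 : (tp (iP P : Sp ν ζ κ π θ) : Sp ν ζ π κ θ) = iQ Pᵀ := by
          simp [tp, iP_def, iQ_def]; rfl
        rw [e1, e2, hW, ← trace_transpose]
        simp only [transpose_mul, transpose_transpose]
        rw [Matrix.mul_assoc])
      (by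
        intro s Q
        rw [LinearMap.compl₁₂_apply]
        have e1 : (tp (iS s : Sp ν ζ κ π θ) : Sp ν ζ π κ θ) = iS sᵀ := by
          simp [tp, iS_def]; rfl
        have e2 : (tp (iQ Q : Sp ν ζ κ π θ) : Sp ν ζ π κ θ) = iP Qᵀ := by
          simp [tp, iP_def, iQ_def]; rfl
        rw [e1, e2, hΦ, ← trace_transpose]
        simp only [transpose_mul, transpose_transpose]
        rw [Matrix.mul_assoc])
      (by
        intro δ' hδ'
        apply hL
        rw [Matrix.neg_mulVec, neg_eq_zero, Matrix.mulVec_transpose] at hδ'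
        exact hδ')
    have : ((Fintype.card π : ℤ) - Fintype.card κ) = -b := by
      rw [h1]; push_cast; ring
    rw [this, neg_dvd]
    exact_mod_cast h2

end Pool.Agent.Helper829.AS
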