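import Mathlib
import Pool.Agent.Helper829.ASe

set_option autoImplicit false
set_option linter.unusedSectionVars false
set_option linter.unusedSimpArgs false

namespace Pool.Agent.Helper829.AS

open Matrix

section model

variable {ν π κ η τ : Type} [Fintype ν] [DecidableEq ν]
  [Fintype π] [DecidableEq π] [Fintype κ] [DecidableEq κ] [Fintype η] [DecidableEq η]
  [Fintype τ] [DecidableEq τ]
  (Λ : Matrix ν ν ℂ) (Φ : Matrix π ν ℂ) (β : Matrix π κ ℂ)

/-- value of the model form -/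
def mf (X Y : Sp ν (η ⊕ η) π κ (τ ⊕ τ)) : ℂ :=
  trace (Λ * X.1 * Y.1) - trace (Λ * Y.1 * X.1)
  + ∑ i : η, (trace (X.2.1 (Sum.inl i) * Y.2.1 (Sum.inr i))
      - trace (X.2.1 (Sum.inr i) * Y.2.1 (Sum.inl i)))
  + (trace (Φ * X.1 * Y.2.2.1) - trace (Φ * Y.1 * X.2.2.1))
  + (trace (Y.2.2.2.1 * X.2.2.1 * β) - trace (X.2.2.2.1 * Y.2.2.1 * β))
  + ∑ i : τ, (X.2.2.2.2 (Sum.inl i) * Y.2.2.2.2 (Sum.inr i)
      - X.2.2.2.2 (Sum.inr i) * Y.2.2.2.2 (Sum.inl i))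

theorem mf_add_left (X X' Y : Sp ν (η ⊕ η) π κ (τ ⊕ τ)) :
    mf Λ Φ β (X + X') Y = mf Λ Φ β X Y + mf Λ Φ β X' Y := by
  simp only [mf, Prod.fst_add, Prod.snd_add, Pi.add_apply, Matrix.mul_add, Matrix.add_mul,
    trace_add, add_mul]
  simp only [Finset.sum_add_distrib, Finset.sum_sub_distrib]
  ring

theorem mf_anti (X Y : Sp ν (η ⊕ η) π κ (τ ⊕ τ)) :
    mf Λ Φ β X Y = - mf Λ Φ β Y X := by
  simp only [mf]
  have e1 : ∑ i : η, (trace (X.2.1 (Sum.inl i) * Y.2.1 (Sum.inr i))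
      - trace (X.2.1 (Sum.inr i) * Y.2.1 (Sum.inl i)))
      = - ∑ i : η, (trace (Y.2.1 (Sum.inl i) * X.2.1 (Sum.inr i))
      - trace (Y.2.1 (Sum.inr i) * X.2.1 (Sum.inl i))) := by
    rw [← Finset.sum_neg_distrib]
    apply Finset.sum_congr rfl
    intro i _
    rw [trace_mul_comm (X.2.1 (Sum.inl i)), trace_mul_comm (X.2.1 (Sum.inr i))]
    ring
  have e2 : ∑ i : τ, (X.2.2.2.2 (Sum.inl i) * Y.2.2.2.2 (Sum.inr i)
      - X.2.2.2.2 (Sum.inr i) * Y.2.2.2.2 (Sum.inl i))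
      = - ∑ i : τ, (Y.2.2.2.2 (Sum.inl i) * X.2.2.2.2 (Sum.inr i)
      - Y.2.2.2.2 (Sum.inr i) * X.2.2.2.2 (Sum.inl i)) := by
    rw [← Finset.sum_neg_distrib]
    apply Finset.sum_congr rfl
    intro i _
    ring
  rw [e1, e2]
  ring

theorem mf_smul_left (c : ℂ) (X Y : Sp ν (η ⊕ η) π κ (τ ⊕ τ)) :
    mf Λ Φ β (c • X) Y = c * mf Λ Φ β X Y := by
  simp only [mf, Prod.smul_fst, Prod.smul_snd, Pi.smul_apply, Matrix.mul_smul, Matrix.smul_mul,
    trace_smul, smul_eq_mul]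
  have e1 : ∑ i : η, (c * trace (X.2.1 (Sum.inl i) * Y.2.1 (Sum.inr i))
      - c * trace (X.2.1 (Sum.inr i) * Y.2.1 (Sum.inl i)))
      = c * ∑ i : η, (trace (X.2.1 (Sum.inl i) * Y.2.1 (Sum.inr i))
      - trace (X.2.1 (Sum.inr i) * Y.2.1 (Sum.inl i))) := by
    rw [Finset.mul_sum]
    apply Finset.sum_congr rfl
    intro i _
    ring
  have e2 : ∑ i : τ, (c * X.2.2.2.2 (Sum.inl i) * Y.2.2.2.2 (Sum.inr i)
      - c * X.2.2.2.2 (Sum.inr i) * Y.2.2.2.2 (Sum.inl i))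
      = c * ∑ i : τ, (X.2.2.2.2 (Sum.inl i) * Y.2.2.2.2 (Sum.inr i)
      - X.2.2.2.2 (Sum.inr i) * Y.2.2.2.2 (Sum.inl i)) := by
    rw [Finset.mul_sum]
    apply Finset.sum_congr rfl
    intro i _
    ring
  rw [e1, e2]
  ring

noncomputable def mform : Sp ν (η ⊕ η) π κ (τ ⊕ τ) →ₗ[ℂ] Sp ν (η ⊕ η) π κ (τ ⊕ τ) →ₗ[ℂ] ℂ :=
  LinearMap.mk₂ ℂ (mf Λ Φ β) (mf_add_left Λ Φ β) (mf_smul_left Λ Φ β)
    (by
      intro X Y Y'
      rw [mf_anti, mf_add_left, mf_anti Λ Φ β X Y, mf_anti Λ Φ β X Y']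
      ring)
    (by
      intro c X Y
      rw [mf_anti, mf_smul_left, mf_anti Λ Φ β X Y, smul_eq_mul]
      ring)

theorem mform_apply (X Y : Sp ν (η ⊕ η) π κ (τ ⊕ τ)) : mform Λ Φ β X Y = mf Λ Φ β X Y := rfl

theorem mf_cyc (X Y Z : Sp ν (η ⊕ η) π κ (τ ⊕ τ)) :
    mf Λ Φ β X (mul Y Z) + mf Λ Φ β Y (mul Z X) + mf Λ Φ β Z (mul X Y) = 0 := by
  simp only [mf, mul, Matrix.mul_add, trace_add, Pi.zero_apply, mul_zero, sub_self,
    Finset.sum_const_zero, add_zero]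
  -- the Z-part
  have ez : ∑ i : η, (trace (X.2.1 (Sum.inl i) * (Y.1 * Z.2.1 (Sum.inr i)))
        + trace (X.2.1 (Sum.inl i) * (Y.2.1 (Sum.inr i) * Z.1))
        - (trace (X.2.1 (Sum.inr i) * (Y.1 * Z.2.1 (Sum.inl i)))
        + trace (X.2.1 (Sum.inr i) * (Y.2.1 (Sum.inl i) * Z.1))))
      + ∑ i : η, (trace (Y.2.1 (Sum.inl i) * (Z.1 * X.2.1 (Sum.inr i)))
        + trace (Y.2.1 (Sum.inl i) * (Z.2.1 (Sum.inr i) * X.1))
        - (trace (Y.2.1 (Sum.inr i) * (Z.1 * X.2.1 (Sum.inl i)))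
        + trace (Y.2.1 (Sum.inr i) * (Z.2.1 (Sum.inl i) * X.1))))
      + ∑ i : η, (trace (Z.2.1 (Sum.inl i) * (X.1 * Y.2.1 (Sum.inr i)))
        + trace (Z.2.1 (Sum.inl i) * (X.2.1 (Sum.inr i) * Y.1))
        - (trace (Z.2.1 (Sum.inr i) * (X.1 * Y.2.1 (Sum.inl i)))
        + trace (Z.2.1 (Sum.inr i) * (X.2.1 (Sum.inl i) * Y.1)))) = 0 := by
    rw [← Finset.sum_add_distrib, ← Finset.sum_add_distrib]
    apply Finset.sum_eq_zero
    intro i _
    have cyc3 : ∀ A B C : Matrix ν ν ℂ, trace (A * (B * C)) = trace (B * (C * A)) := by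
      intro A B C
      rw [trace_mul_comm, Matrix.mul_assoc]
    rw [cyc3 (X.2.1 (Sum.inl i)) Y.1, cyc3 Y.1,
      cyc3 (X.2.1 (Sum.inr i)) Y.1, cyc3 Y.1 (Z.2.1 (Sum.inl i)),
      cyc3 (X.2.1 (Sum.inl i)) (Y.2.1 (Sum.inr i)), cyc3 (X.2.1 (Sum.inr i)) (Y.2.1 (Sum.inl i)),
      cyc3 (Y.2.1 (Sum.inl i)) (Z.2.1 (Sum.inr i)), cyc3 (Y.2.1 (Sum.inr i)) (Z.2.1 (Sum.inl i))]
    ring
  have es : trace (Λ * X.1 * (Y.1 * Z.1)) - trace (Λ * (Y.1 * Z.1) * X.1)
      + (trace (Λ * Y.1 * (Z.1 * X.1)) - trace (Λ * (Z.1 * X.1) * Y.1))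
      + (trace (Λ * Z.1 * (X.1 * Y.1)) - trace (Λ * (X.1 * Y.1) * Z.1)) = 0 := by
    simp only [Matrix.mul_assoc]
    ring
  have ep : trace (Φ * X.1 * (Y.1 * Z.2.2.1)) - trace (Φ * (Y.1 * Z.1) * X.2.2.1)
      + (trace (Φ * Y.1 * (Z.1 * X.2.2.1)) - trace (Φ * (Z.1 * X.1) * Y.2.2.1))
      + (trace (Φ * Z.1 * (X.1 * Y.2.2.1)) - trace (Φ * (X.1 * Y.1) * Z.2.2.1)) = 0 := by
    simp only [Matrix.mul_assoc]
    ring
  have eq : trace (Y.2.2.2.1 * Z.1 * X.2.2.1 * β) - trace (X.2.2.2.1 * (Y.1 * Z.2.2.1) * β)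
      + (trace (Z.2.2.2.1 * X.1 * Y.2.2.1 * β) - trace (Y.2.2.2.1 * (Z.1 * X.2.2.1) * β))
      + (trace (X.2.2.2.1 * Y.1 * Z.2.2.1 * β) - trace (Z.2.2.2.1 * (X.1 * Y.2.2.1) * β)) = 0 := by
    simp only [Matrix.mul_assoc]
    ring
  linear_combination ez + es + ep + eq

theorem zero_of_trace {m n : Type} [Fintype m] [DecidableEq m] [Fintype n] [DecidableEq n]
    (A : Matrix m n ℂ) (h : ∀ B : Matrix n m ℂ, trace (B * A) = 0) : A = 0 := by
  ext i j
  have := h (single j i 1)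
  rw [trace_single_mul, one_smul] at this
  exact this

theorem mform_af (hβ : ∀ P : Matrix ν π ℂ, ∀ s : Matrix ν ν ℂ, ∀ Q : Matrix κ ν ℂ,
      P * β = 0 → Φ * s = β * Q → Λ * s - s * Λ = P * Φ → P = 0 ∧ s = 0 ∧ Q = 0) :
    IsAF (mform Λ Φ β : Sp ν (η ⊕ η) π κ (τ ⊕ τ) →ₗ[ℂ] _) := by
  refine ⟨?_, ?_, ?_⟩
  · intro X hX
    have hP : X.2.2.1 * β = 0 := by
      apply zero_of_trace
      intro Q
      have := hX (iQ Q)
      simp [mform_apply, mf, iQ_def] at this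
      rw [← Matrix.mul_assoc]; exact this
    have hQ : Φ * X.1 - β * X.2.2.2.1 = 0 := by
      apply zero_of_trace
      intro P
      have := hX (iP P)
      simp [mform_apply, mf, iP_def] at this
      rw [Matrix.mul_sub, trace_sub]
      have e1 : trace (P * (Φ * X.1)) = trace (Φ * X.1 * P) := trace_mul_comm _ _
      have e2 : trace (P * (β * X.2.2.2.1)) = trace (X.2.2.2.1 * P * β) := by
        rw [← Matrix.mul_assoc, trace_mul_comm, ← Matrix.mul_assoc]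
      rw [e1, e2]
      linear_combination this
    have hS : Λ * X.1 - X.1 * Λ - X.2.2.1 * Φ = 0 := by
      apply zero_of_trace
      intro s
      have := hX (iS s)
      simp [mform_apply, mf, iS_def] at this
      rw [Matrix.mul_sub, Matrix.mul_sub, trace_sub, trace_sub]
      have e1 : trace (s * (Λ * X.1)) = trace (Λ * X.1 * s) := trace_mul_comm _ _
      have e2 : trace (s * (X.1 * Λ)) = trace (Λ * s * X.1) := by
        rw [← Matrix.mul_assoc, trace_mul_comm, ← Matrix.mul_assoc]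
      have e3 : trace (s * (X.2.2.1 * Φ)) = trace (Φ * s * X.2.2.1) := by
        rw [← Matrix.mul_assoc, trace_mul_comm, ← Matrix.mul_assoc]
      rw [e1, e2, e3]
      linear_combination this
    obtain ⟨h1, h2, h3⟩ := hβ X.2.2.1 X.1 X.2.2.2.1 hP (sub_eq_zero.mp hQ) (sub_eq_zero.mp hS)
    have hZl : ∀ i, X.2.1 (Sum.inl i) = 0 := by
      intro i
      apply zero_of_trace
      intro B
      have := hX (iZ (atz (Sum.inr i) B))
      simp [mform_apply, mf, iZ_def, atz] at this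
      rw [Finset.sum_eq_single i] at this
      · simp at this
        rw [trace_mul_comm]; exact this
      · intro j _ hj
        simp [Pi.single_apply, hj]
      · simp
    have hZr : ∀ i, X.2.1 (Sum.inr i) = 0 := by
      intro i
      apply zero_of_trace
      intro B
      have := hX (iZ (atz (Sum.inl i) B))
      simp [mform_apply, mf, iZ_def, atz] at this
      rw [Finset.sum_eq_single i] at this
      · simp at this
        rw [trace_mul_comm]; exact this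
      · intro j _ hj
        simp [Pi.single_apply, hj]
      · simp
    have hTl : ∀ i, X.2.2.2.2 (Sum.inl i) = 0 := by
      intro i
      have := hX (iT (Pi.single (Sum.inr i) 1))
      simp [mform_apply, mf, iT_def, Pi.single_apply] at this
      exact this
    have hTr : ∀ i, X.2.2.2.2 (Sum.inr i) = 0 := by
      intro i
      have := hX (iT (Pi.single (Sum.inl i) 1))
      simp [mform_apply, mf, iT_def, Pi.single_apply] at this
      exact this
    refine Prod.ext h2 (Prod.ext ?_ (Prod.ext h1 (Prod.ext h3 ?_)))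
    · funext i
      cases i with
      | inl i => exact hZl i
      | inr i => exact hZr i
    · funext i
      cases i with
      | inl i => exact hTl i
      | inr i => exact hTr i
  · intro X Y
    exact mf_anti Λ Φ β X Y
  · intro X Y Z
    exact mf_cyc Λ Φ β X Y Z

end model

end Pool.Agent.Helper829.AS
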