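import Mathlib
import Pool.Agent.Helper829.ASf

set_option autoImplicit false
set_option linter.unusedSectionVars false
set_option linter.unusedSimpArgs false

namespace Pool.Agent.Helper829.AS

open Matrix

/-- `Φ` in the model -/
def phm (m b : ℕ) : Matrix (Fin b) (Fin m × Fin b) ℂ := Matrix.of fun c x => if c = x.2 then 1 else 0

theorem model_cond (m b : ℕ) (κ : Type) [Fintype κ] [DecidableEq κ] :
    ∀ P : Matrix (Fin m × Fin b) (κ ⊕ Fin b) ℂ, ∀ s : Matrix (Fin m × Fin b) (Fin m × Fin b) ℂ,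
      ∀ Q : Matrix κ (Fin m × Fin b) ℂ,
      P * (fromRows (1 : Matrix κ κ ℂ) (0 : Matrix (Fin b) κ ℂ)) = 0 →
      (fromRows (0 : Matrix κ (Fin m × Fin b) ℂ) (phm m b)) * s
        = (fromRows (1 : Matrix κ κ ℂ) (0 : Matrix (Fin b) κ ℂ)) * Q →
      (diagonal fun x : Fin m × Fin b => (x.1.val : ℂ)) * s
        - s * (diagonal fun x : Fin m × Fin b => (x.1.val : ℂ))
        = P * (fromRows (0 : Matrix κ (Fin m × Fin b) ℂ) (phm m b)) → P = 0 ∧ s = 0 ∧ Q = 0 := by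
  intro P s Q h1 h2 h3
  have hPl : ∀ x k, P x (Sum.inl k) = 0 := by
    intro x k
    have := congrFun (congrFun h1 x) k
    rw [mul_apply] at this
    simpa [Fintype.sum_sum_type, Matrix.one_apply] using this
  have hQ : Q = 0 := by
    ext k y
    have := congrFun (congrFun h2 (Sum.inl k)) y
    rw [fromRows_mul, fromRows_mul] at this
    simpa using this.symm
  have hφ : ∀ c y, ∑ i : Fin m, s (i, c) y = 0 := by
    intro c y
    have := congrFun (congrFun h2 (Sum.inr c)) y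
    rw [fromRows_mul, fromRows_mul] at this
    simp only [fromRows_apply_inr, Matrix.zero_mul, Matrix.zero_apply] at this
    rw [mul_apply, Fintype.sum_prod_type] at this
    simpa [phm] using this
  have hc : ∀ x y, ((x.1.val : ℂ) - y.1.val) * s x y = P x (Sum.inr y.2) := by
    intro x y
    have := congrFun (congrFun h3 x) y
    rw [Matrix.sub_apply, diagonal_mul, mul_diagonal, mul_apply, Fintype.sum_sum_type] at this
    simp only [fromRows_apply_inl, fromRows_apply_inr, Matrix.zero_apply, mul_zero,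
      Finset.sum_const_zero, zero_add, phm, of_apply] at this
    rw [Finset.sum_eq_single y.2] at this
    · simp only [if_true, mul_one] at this
      rw [← this]; ring
    · intro c _ hc
      rw [if_neg hc, mul_zero]
    · simp
  have hPr : ∀ x c, P x (Sum.inr c) = 0 := by
    intro x c
    have := hc x (x.1, c)
    rw [← this]
    simp
  have hoff : ∀ x y, x.1 ≠ y.1 → s x y = 0 := by
    intro x y hxy
    have := hc x y
    rw [hPr] at this
    refine (mul_eq_zero.mp this).resolve_left ?_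
    intro h0
    apply hxy
    have : (x.1.val : ℂ) = y.1.val := sub_eq_zero.mp h0
    exact Fin.ext (by exact_mod_cast this)
  refine ⟨?_, ?_, hQ⟩
  · ext x c
    cases c with
    | inl k => exact hPl x k
    | inr c => exact hPr x c
  · ext x y
    by_cases hxy : x.1 = y.1
    · have := hφ x.2 y
      rw [Finset.sum_eq_single y.1] at this
      · rw [← hxy] at this
        exact this
      · intro i _ hi
        exact hoff _ _ hi
      · simp
    · exact hoff x y hxy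

theorem model_exists (m b : ℕ) (κ η τ : Type) [Fintype κ] [DecidableEq κ] [Fintype η]
    [DecidableEq η] [Fintype τ] [DecidableEq τ] :
    ∃ ω : Sp (Fin m × Fin b) (η ⊕ η) (κ ⊕ Fin b) κ (τ ⊕ τ) →ₗ[ℂ] _ →ₗ[ℂ] ℂ, IsAF ω :=
  ⟨mform _ _ _, mform_af _ _ _ (model_cond m b κ)⟩

section transfer

variable {ν ζ π κ θ ν' ζ' π' κ' θ' : Type} [Fintype ν] [DecidableEq ν] [Fintype ζ]
  [DecidableEq ζ] [Fintype π] [DecidableEq π] [Fintype κ] [DecidableEq κ] [Fintype θ]
  [DecidableEq θ] [Fintype ν'] [DecidableEq ν'] [Fintype ζ']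
  [DecidableEq ζ'] [Fintype π'] [DecidableEq π'] [Fintype κ'] [DecidableEq κ'] [Fintype θ']
  [DecidableEq θ']
  (e1 : ν ≃ ν') (e2 : ζ ≃ ζ') (e3 : π ≃ π') (e4 : κ ≃ κ') (e5 : θ ≃ θ')

/-- reindexing -/
def rx : Sp ν' ζ' π' κ' θ' →ₗ[ℂ] Sp ν ζ π κ θ where
  toFun X := (X.1.submatrix e1 e1, fun i => (X.2.1 (e2 i)).submatrix e1 e1,
    X.2.2.1.submatrix e1 e3, X.2.2.2.1.submatrix e4 e1, fun i => X.2.2.2.2 (e5 i))
  map_add' _ _ := rfl
  map_smul' _ _ := rfl

theorem rx_apply (X : Sp ν' ζ' π' κ' θ') : rx e1 e2 e3 e4 e5 X =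
    (X.1.submatrix e1 e1, fun i => (X.2.1 (e2 i)).submatrix e1 e1,
    X.2.2.1.submatrix e1 e3, X.2.2.2.1.submatrix e4 e1, fun i => X.2.2.2.2 (e5 i)) := rfl

theorem rx_symm (X : Sp ν' ζ' π' κ' θ') :
    (rx e1.symm e2.symm e3.symm e4.symm e5.symm (rx e1 e2 e3 e4 e5 X)) = X := by
  simp [rx_apply]

theorem rx_mul (X Y : Sp ν' ζ' π' κ' θ') :
    rx e1 e2 e3 e4 e5 (mul X Y) = mul (rx e1 e2 e3 e4 e5 X) (rx e1 e2 e3 e4 e5 Y) := by
  rw [rx_apply, rx_apply, rx_apply]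
  refine Prod.ext ?_ (Prod.ext ?_ (Prod.ext ?_ (Prod.ext ?_ ?_)))
  · simp [mul]
  · funext i; simp [mul, Matrix.submatrix_add]
  · simp [mul]
  · simp [mul]
  · funext i; simp [mul]

include e1 e2 e3 e4 e5 in
theorem transfer {ω : Sp ν ζ π κ θ →ₗ[ℂ] Sp ν ζ π κ θ →ₗ[ℂ] ℂ} (h : IsAF ω) :
    ∃ ω' : Sp ν' ζ' π' κ' θ' →ₗ[ℂ] Sp ν' ζ' π' κ' θ' →ₗ[ℂ] ℂ, IsAF ω' := by
  refine ⟨ω.compl₁₂ (rx e1 e2 e3 e4 e5) (rx e1 e2 e3 e4 e5), ?_, ?_, ?_⟩
  · intro x hx
    have h1 : rx e1 e2 e3 e4 e5 x = 0 := by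
      apply h.nd
      intro y
      have h2 := hx (rx e1.symm e2.symm e3.symm e4.symm e5.symm y)
      rw [LinearMap.compl₁₂_apply] at h2
      have h3 := rx_symm e1.symm e2.symm e3.symm e4.symm e5.symm y
      simp only [Equiv.symm_symm] at h3
      rw [h3] at h2
      exact h2
    rw [← rx_symm e1 e2 e3 e4 e5 x, h1, map_zero]
  · intro x y
    rw [LinearMap.compl₁₂_apply, LinearMap.compl₁₂_apply, h.anti]
  · intro x y z
    simp only [LinearMap.compl₁₂_apply, rx_mul]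
    exact h.cyc _ _ _

end transfer

theorem bwd_ge {n z p q t : ℕ} (hz : Even z) (ht : Even t) (hpq : q ≤ p) (hn : (p - q) ∣ n) :
    ∃ ω : Sp (Fin n) (Fin z) (Fin p) (Fin q) (Fin t) →ₗ[ℂ] _ →ₗ[ℂ] ℂ, IsAF ω := by
  obtain ⟨z', rfl⟩ := hz
  obtain ⟨t', rfl⟩ := ht
  obtain ⟨b, rfl⟩ := Nat.exists_eq_add_of_le hpq
  rw [Nat.add_sub_cancel_left] at hn
  obtain ⟨m, rfl⟩ := hn
  obtain ⟨ω, h⟩ := model_exists m b (Fin q) (Fin z') (Fin t')
  have e1 : Fin m × Fin b ≃ Fin (b * m) :=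
    finProdFinEquiv.trans (finCongr (Nat.mul_comm m b))
  exact transfer e1 finSumFinEquiv finSumFinEquiv (Equiv.refl _) finSumFinEquiv h

theorem af_iff {n z p q t : ℕ} (hn : 0 < n) :
    (∃ ω : Sp (Fin n) (Fin z) (Fin p) (Fin q) (Fin t) →ₗ[ℂ] _ →ₗ[ℂ] ℂ, IsAF ω) ↔
      Even z ∧ Even t ∧ ((p : ℤ) - q) ∣ n := by
  constructor
  · rintro ⟨ω, h⟩
    have : Nonempty (Fin n) := ⟨⟨0, hn⟩⟩
    have := fwd h
    simpa only [Fintype.card_fin] using this
  · rintro ⟨hz, ht, hd⟩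
    rcases le_total q p with hpq | hpq
    · apply bwd_ge hz ht hpq
      have : ((p : ℤ) - q) = ((p - q : ℕ) : ℤ) := by
        rw [Nat.cast_sub hpq]
      rw [this] at hd
      exact_mod_cast hd
    · have : ((p : ℤ) - q) = -((q - p : ℕ) : ℤ) := by
        rw [Nat.cast_sub hpq]; ring
      rw [this, neg_dvd] at hd
      obtain ⟨ω, h⟩ := bwd_ge (n := n) hz ht hpq (by exact_mod_cast hd)
      exact ⟨_, af_tp h⟩

end Pool.Agent.Helper829.AS
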