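import Mathlib
import Pool.Agent.Helper829.ASDefs
import Pool.Agent.Helper829.ASg

set_option autoImplicit false
set_option linter.unusedSectionVars false
set_option linter.unusedSimpArgs false

namespace Pool.Agent.Helper829.AS

open Matrix Pool.Agent.Helper829.AF

variable {n : ℕ} {M : Type} [AddCommGroup M] [Module ℂ M]
  (B : Bimod (Matrix (Fin (n + 1)) (Fin (n + 1)) ℂ) M)

/-- matrix unit -/
abbrev E (i j : Fin (n + 1)) : Matrix (Fin (n + 1)) (Fin (n + 1)) ℂ := single i j 1

theorem EE (i j k : Fin (n + 1)) : E i j * E j k = E i k := by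
  rw [single_mul_single_same, mul_one]

theorem EE' (i j k l : Fin (n + 1)) (h : j ≠ k) : E i j * E k l = 0 := by
  rw [single_mul_single_of_ne _ _ _ _ h]

theorem sumE : ∑ i : Fin (n + 1), E i i = 1 := by
  ext k l
  rw [Matrix.sum_apply]
  simp only [Matrix.single_apply, Matrix.one_apply]
  by_cases hkl : k = l
  · subst hkl
    rw [Finset.sum_eq_single k]
    · simp
    · intro i _ hi; simp [hi]
    · simp
  · rw [if_neg hkl]
    apply Finset.sum_eq_zero
    intro i _
    rw [if_neg]
    rintro ⟨h1, h2⟩
    exact hkl (h1.symm.trans h2)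

theorem Emul (i : Fin (n + 1)) (s : Matrix (Fin (n + 1)) (Fin (n + 1)) ℂ) :
    E 0 i * s = ∑ k, s i k • E 0 k := by
  ext a b
  rw [Matrix.sum_apply]
  simp only [Matrix.smul_apply, smul_eq_mul, Matrix.single_apply]
  by_cases ha : a = 0
  · subst ha
    rw [Matrix.single_mul_apply_same, one_mul, Finset.sum_eq_single b]
    · simp
    · intro k _ hk; simp [hk]
    · simp
  · rw [Matrix.single_mul_apply_of_ne _ _ _ _ _ ha]
    symm
    apply Finset.sum_eq_zero
    intro k _
    rw [if_neg, mul_zero]
    rintro ⟨h1, _⟩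
    exact ha h1.symm

theorem mulE (j : Fin (n + 1)) (s : Matrix (Fin (n + 1)) (Fin (n + 1)) ℂ) :
    s * E j 0 = ∑ k, s k j • E k 0 := by
  ext a b
  rw [Matrix.sum_apply]
  simp only [Matrix.smul_apply, smul_eq_mul, Matrix.single_apply]
  by_cases hb : b = 0
  · subst hb
    rw [Matrix.mul_single_apply_same, mul_one, Finset.sum_eq_single a]
    · simp
    · intro k _ hk; simp [hk]
    · simp
  · rw [Matrix.mul_single_apply_of_ne _ _ _ _ _ hb]
    symm
    apply Finset.sum_eq_zero
    intro k _
    rw [if_neg, mul_zero]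
    rintro ⟨_, h1⟩
    exact hb h1.symm

noncomputable def la : Option (Fin (n + 1)) → (M →ₗ[ℂ] M)
  | none => LinearMap.id - B.L 1
  | some i => B.L (E 0 i)

noncomputable def mu : Option (Fin (n + 1)) → (M →ₗ[ℂ] M)
  | none => LinearMap.id
  | some i => B.L (E i 0)

noncomputable def la' : Option (Fin (n + 1)) → (M →ₗ[ℂ] M)
  | none => LinearMap.id - B.R 1
  | some j => B.R (E j 0)

noncomputable def mu' : Option (Fin (n + 1)) → (M →ₗ[ℂ] M)
  | none => LinearMap.id
  | some j => B.R (E 0 j)

theorem mem_lt (x : M) : x ∈ B.leftPart true ↔ B.L (E 0 0) x = x := by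
  simp [Bimod.leftPart, sub_eq_zero]
theorem mem_lf (x : M) : x ∈ B.leftPart false ↔ B.L 1 x = 0 := by
  simp [Bimod.leftPart]
theorem mem_rt (x : M) : x ∈ B.rightPart true ↔ B.R (E 0 0) x = x := by
  simp [Bimod.rightPart, sub_eq_zero]
theorem mem_rf (x : M) : x ∈ B.rightPart false ↔ B.R 1 x = 0 := by
  simp [Bimod.rightPart]

theorem la_mem (α : Option (Fin (n + 1))) (x : M) : la B α x ∈ B.leftPart α.isSome := by
  cases α with
  | none =>
    simp only [Option.isSome_none, mem_lf, la, LinearMap.sub_apply, LinearMap.id_apply, map_sub]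
    rw [← B.L_mul, mul_one, sub_self]
  | some i =>
    simp only [Option.isSome_some, mem_lt, la]
    rw [← B.L_mul, EE]

theorem la'_mem (α : Option (Fin (n + 1))) (x : M) : la' B α x ∈ B.rightPart α.isSome := by
  cases α with
  | none =>
    simp only [Option.isSome_none, mem_rf, la', LinearMap.sub_apply, LinearMap.id_apply, map_sub]
    rw [← B.R_mul, mul_one, sub_self]
  | some i =>
    simp only [Option.isSome_some, mem_rt, la']
    rw [← B.R_mul, EE]

theorem sum_mula (x : M) : ∑ α, mu B α (la B α x) = x := by
  rw [Fintype.sum_option]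
  simp only [mu, la, LinearMap.sub_apply, LinearMap.id_apply]
  have : ∑ i, B.L (E i 0) (B.L (E 0 i) x) = B.L 1 x := by
    rw [← sumE, map_sum, LinearMap.sum_apply]
    apply Finset.sum_congr rfl
    intro i _
    rw [← B.L_mul, EE]
  rw [this]; abel

theorem sum_mula' (x : M) : ∑ α, mu' B α (la' B α x) = x := by
  rw [Fintype.sum_option]
  simp only [mu', la', LinearMap.sub_apply, LinearMap.id_apply]
  have : ∑ i, B.R (E 0 i) (B.R (E i 0) x) = B.R 1 x := by
    rw [← sumE, map_sum, LinearMap.sum_apply]
    apply Finset.sum_congr rfl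
    intro i _
    rw [← B.R_mul, EE]
  rw [this]; abel

theorem lamu (α β : Option (Fin (n + 1))) (y : M) (hy : y ∈ B.leftPart β.isSome) :
    la B α (mu B β y) = if α = β then y else 0 := by
  cases β with
  | none =>
    rw [Option.isSome_none, mem_lf] at hy
    cases α with
    | none =>
      simp only [la, mu, LinearMap.sub_apply, LinearMap.id_apply, if_true]
      rw [hy, sub_zero]
    | some i =>
      simp only [la, mu, LinearMap.id_apply]
      rw [if_neg (by simp), ← mul_one (E 0 i), B.L_mul, hy, map_zero]
  | some k =>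
    rw [Option.isSome_some, mem_lt] at hy
    cases α with
    | none =>
      simp only [la, mu, LinearMap.sub_apply, LinearMap.id_apply]
      rw [if_neg (by simp), ← B.L_mul, one_mul, sub_self]
    | some i =>
      simp only [la, mu]
      rw [← B.L_mul]
      by_cases hik : i = k
      · subst hik
        rw [EE, if_pos rfl, hy]
      · rw [EE' _ _ _ _ hik, map_zero, LinearMap.zero_apply, if_neg]
        intro h; exact hik (Option.some.inj h)

theorem lamu' (α β : Option (Fin (n + 1))) (y : M) (hy : y ∈ B.rightPart β.isSome) :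
    la' B α (mu' B β y) = if α = β then y else 0 := by
  cases β with
  | none =>
    rw [Option.isSome_none, mem_rf] at hy
    cases α with
    | none =>
      simp only [la', mu', LinearMap.sub_apply, LinearMap.id_apply, if_true]
      rw [hy, sub_zero]
    | some i =>
      simp only [la', mu', LinearMap.id_apply]
      rw [if_neg (by simp), ← one_mul (E i 0), B.R_mul, hy, map_zero]
  | some k =>
    rw [Option.isSome_some, mem_rt] at hy
    cases α with
    | none =>
      simp only [la', mu', LinearMap.sub_apply, LinearMap.id_apply]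
      rw [if_neg (by simp), ← B.R_mul, mul_one, sub_self]
    | some i =>
      simp only [la', mu']
      rw [← B.R_mul]
      by_cases hik : k = i
      · subst hik
        rw [EE, if_pos rfl, hy]
      · rw [EE' _ _ _ _ hik, map_zero, LinearMap.zero_apply, if_neg]
        intro h; exact hik (Option.some.inj h).symm

theorem la_R (α : Option (Fin (n + 1))) (s) (x : M) : la B α (B.R s x) = B.R s (la B α x) := by
  cases α with
  | none => simp only [la, LinearMap.sub_apply, LinearMap.id_apply, map_sub]; rw [B.comm]
  | some i => simp only [la]; rw [B.comm]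

theorem mu_R (α : Option (Fin (n + 1))) (s) (x : M) : mu B α (B.R s x) = B.R s (mu B α x) := by
  cases α with
  | none => simp only [mu, LinearMap.id_apply]
  | some i => simp only [mu]; rw [B.comm]

theorem la'_L (α : Option (Fin (n + 1))) (s) (x : M) : la' B α (B.L s x) = B.L s (la' B α x) := by
  cases α with
  | none => simp only [la', LinearMap.sub_apply, LinearMap.id_apply, map_sub]; rw [B.comm]
  | some i => simp only [la']; rw [B.comm]

theorem la_la' (α β : Option (Fin (n + 1))) (x : M) :
    la B α (la' B β x) = la' B β (la B α x) := by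
  cases β with
  | none => simp only [la', LinearMap.sub_apply, LinearMap.id_apply, map_sub]; rw [la_R]
  | some j => simp only [la']; rw [la_R]

theorem mu_la' (α β : Option (Fin (n + 1))) (x : M) :
    mu B α (la' B β x) = la' B β (mu B α x) := by
  cases β with
  | none => simp only [la', LinearMap.sub_apply, LinearMap.id_apply, map_sub]; rw [mu_R]
  | some j => simp only [la']; rw [mu_R]

theorem mu_mu' (α β : Option (Fin (n + 1))) (x : M) :
    mu B α (mu' B β x) = mu' B β (mu B α x) := by
  cases β with
  | none => simp only [mu', LinearMap.id_apply]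
  | some j => simp only [mu']; rw [mu_R]

theorem R_left {i : Bool} {x : M} (hx : x ∈ B.leftPart i) (s) : B.R s x ∈ B.leftPart i := by
  cases i with
  | false => rw [mem_lf] at hx ⊢; rw [B.comm, hx, map_zero]
  | true => rw [mem_lt] at hx ⊢; rw [B.comm, hx]

theorem L_right {i : Bool} {x : M} (hx : x ∈ B.rightPart i) (s) : B.L s x ∈ B.rightPart i := by
  cases i with
  | false => rw [mem_rf] at hx ⊢; rw [← B.comm, hx, map_zero]
  | true => rw [mem_rt] at hx ⊢; rw [← B.comm, hx]

theorem la'_left {i : Bool} {x : M} (hx : x ∈ B.leftPart i) (β : Option (Fin (n + 1))) :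
    la' B β x ∈ B.leftPart i := by
  cases β with
  | none =>
    simp only [la', LinearMap.sub_apply, LinearMap.id_apply]
    exact Submodule.sub_mem _ hx (R_left B hx _)
  | some j => exact R_left B hx _

theorem la_right {i : Bool} {x : M} (hx : x ∈ B.rightPart i) (β : Option (Fin (n + 1))) :
    la B β x ∈ B.rightPart i := by
  cases β with
  | none =>
    simp only [la, LinearMap.sub_apply, LinearMap.id_apply]
    exact Submodule.sub_mem _ hx (L_right B hx _)
  | some j => exact L_right B hx _

theorem mu_right {i : Bool} {x : M} (hx : x ∈ B.rightPart i) (β : Option (Fin (n + 1))) :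
    mu B β x ∈ B.rightPart i := by
  cases β with
  | none => exact hx
  | some j => exact L_right B hx _

/-- the piece -/
abbrev Wp (p : Option (Fin (n + 1)) × Option (Fin (n + 1))) : Submodule ℂ M :=
  B.leftPart p.1.isSome ⊓ B.rightPart p.2.isSome

noncomputable def ff :
    M →ₗ[ℂ] (Π p : Option (Fin (n + 1)) × Option (Fin (n + 1)), Wp B p) :=
  LinearMap.pi fun p => ((la B p.1).comp (la' B p.2)).codRestrict (Wp B p)
    (fun x => ⟨la_mem B p.1 _, la_right B (la'_mem B p.2 x) _⟩)

noncomputable def gg :
    (Π p : Option (Fin (n + 1)) × Option (Fin (n + 1)), Wp B p) →ₗ[ℂ] M :=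
  ∑ p : Option (Fin (n + 1)) × Option (Fin (n + 1)),
    ((mu B p.1).comp (mu' B p.2)).comp ((Wp B p).subtype.comp (LinearMap.proj p))

theorem ff_apply (x : M) (p : Option (Fin (n + 1)) × Option (Fin (n + 1))) :
    ((ff B x p : Wp B p) : M) = la B p.1 (la' B p.2 x) := rfl

theorem gg_apply (w : Π p : Option (Fin (n + 1)) × Option (Fin (n + 1)), Wp B p) :
    gg B w = ∑ p, mu B p.1 (mu' B p.2 (w p : M)) := by
  simp [gg, LinearMap.sum_apply]

theorem gf (x : M) : gg B (ff B x) = x := by
  rw [gg_apply]
  simp only [ff_apply]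
  rw [Fintype.sum_prod_type]
  simp only
  have : ∀ α, ∑ β, mu B α (mu' B β (la B α (la' B β x))) = mu B α (la B α x) := by
    intro α
    rw [← map_sum]
    congr 1
    have : ∀ β, mu' B β (la B α (la' B β x)) = mu' B β (la' B β (la B α x)) := by
      intro β; rw [la_la']
    simp only [this]
    exact sum_mula' B _
  simp only [this]
  exact sum_mula B x

theorem fg (w : Π p : Option (Fin (n + 1)) × Option (Fin (n + 1)), Wp B p) :
    ff B (gg B w) = w := by
  funext p
  apply Subtype.ext
  rw [ff_apply, gg_apply, map_sum, map_sum]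
  rw [Finset.sum_eq_single p]
  · rw [← mu_la', lamu' B _ _ _ (w p).2.2, if_pos rfl, lamu B _ _ _ (w p).2.1, if_pos rfl]
  · intro q _ hq
    rw [← mu_la', lamu' B _ _ _ (w q).2.2]
    by_cases h2 : p.2 = q.2
    · rw [if_pos h2, lamu B _ _ _ (w q).2.1]
      rw [if_neg]
      intro h1
      exact hq (Prod.ext h1.symm h2.symm)
    · rw [if_neg h2, map_zero, map_zero]
  · simp

noncomputable def fe : M ≃ₗ[ℂ] (Π p : Option (Fin (n + 1)) × Option (Fin (n + 1)), Wp B p) :=
  { ff B with
    invFun := gg B
    left_inv := gf B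
    right_inv := fg B }

theorem fe_apply (x : M) : fe B x = ff B x := rfl

theorem ff_L (s) (x : M) (i : Fin (n + 1)) (β) :
    ff B (B.L s x) (some i, β) = ∑ k, s i k • ff B x (some k, β) := by
  apply Subtype.ext
  rw [ff_apply]
  have e0 : ((∑ k, s i k • ff B x (some k, β) : Wp B (some i, β)) : M)
      = ∑ k, s i k • la B (some k) (la' B β x) := by
    exact map_sum (Wp B (some i, β)).subtype
      (fun k => (s i k • ff B x (some k, β) : Wp B (some i, β))) Finset.univ
  rw [e0]
  simp only [la, la'_L]
  rw [← B.L_mul, Emul, map_sum, LinearMap.sum_apply]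
  apply Finset.sum_congr rfl
  intro k _
  rw [map_smul, LinearMap.smul_apply]

theorem ff_L0 (s) (x : M) (β) : ff B (B.L s x) (none, β) = 0 := by
  apply Subtype.ext
  rw [ff_apply]
  simp only [la, la'_L, LinearMap.sub_apply, LinearMap.id_apply]
  rw [← B.L_mul, one_mul, sub_self]
  rfl

theorem ff_R (s) (x : M) (j : Fin (n + 1)) (α) :
    ff B (B.R s x) (α, some j) = ∑ k, s k j • ff B x (α, some k) := by
  apply Subtype.ext
  rw [ff_apply]
  have e0 : ((∑ k, s k j • ff B x (α, some k) : Wp B (α, some j)) : M)
      = ∑ k, s k j • la B α (la' B (some k) x) := by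
    exact map_sum (Wp B (α, some j)).subtype
      (fun k => (s k j • ff B x (α, some k) : Wp B (α, some j))) Finset.univ
  rw [e0]
  simp only [la']
  rw [← B.R_mul, mulE, map_sum, LinearMap.sum_apply, map_sum]
  apply Finset.sum_congr rfl
  intro k _
  rw [map_smul, LinearMap.smul_apply, map_smul]

theorem ff_R0 (s) (x : M) (α) : ff B (B.R s x) (α, none) = 0 := by
  apply Subtype.ext
  rw [ff_apply]
  simp only [la', LinearMap.sub_apply, LinearMap.id_apply]
  rw [← B.R_mul, mul_one, sub_self, map_zero]
  rfl

end Pool.Agent.Helper829.AS
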