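import Mathlib
import Pool.Agent.Helper829.ASh

set_option autoImplicit false
set_option linter.unusedSectionVars false
set_option linter.unusedSimpArgs false

namespace Pool.Agent.Helper829.AS

open Matrix Pool.Agent.Helper829.AF

variable {n : ℕ} {M : Type} [AddCommGroup M] [Module ℂ M] [FiniteDimensional ℂ M]
  (B : Bimod (Matrix (Fin (n + 1)) (Fin (n + 1)) ℂ) M)

noncomputable def bs (i j : Bool) :
    Module.Basis (Fin (B.mult i j)) ℂ (B.leftPart i ⊓ B.rightPart j : Submodule ℂ M) :=
  Module.finBasis ℂ (B.leftPart i ⊓ B.rightPart j : Submodule ℂ M)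

/-- coordinate functional -/
noncomputable def cf (α β : Option (Fin (n + 1))) (u : Fin (B.mult α.isSome β.isSome)) :
    M →ₗ[ℂ] ℂ :=
  ((bs B α.isSome β.isSome).coord u).comp ((LinearMap.proj (α, β)).comp (ff B))

theorem cf_L (s) (x : M) (i : Fin (n + 1)) (β) (u) :
    cf B (some i) β u (B.L s x) = ∑ k, s i k * cf B (some k) β u x := by
  simp only [cf, LinearMap.comp_apply, LinearMap.proj_apply]
  rw [ff_L]
  have := map_sum ((bs B true β.isSome).coord u)
    (fun k => (s i k • ff B x (some k, β) : Wp B (some i, β))) Finset.univ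
  refine this.trans ?_
  apply Finset.sum_congr rfl
  intro k _
  exact LinearMap.map_smul _ _ _

theorem cf_L0 (s) (x : M) (β) (u) : cf B none β u (B.L s x) = 0 := by
  simp only [cf, LinearMap.comp_apply, LinearMap.proj_apply]
  rw [ff_L0, map_zero]

theorem cf_R (s) (x : M) (j : Fin (n + 1)) (α) (u) :
    cf B α (some j) u (B.R s x) = ∑ k, s k j * cf B α (some k) u x := by
  simp only [cf, LinearMap.comp_apply, LinearMap.proj_apply]
  rw [ff_R]
  have := map_sum ((bs B α.isSome true).coord u)
    (fun k => (s k j • ff B x (α, some k) : Wp B (α, some j))) Finset.univ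
  refine this.trans ?_
  apply Finset.sum_congr rfl
  intro k _
  exact LinearMap.map_smul _ _ _

theorem cf_R0 (s) (x : M) (α) (u) : cf B α none u (B.R s x) = 0 := by
  simp only [cf, LinearMap.comp_apply, LinearMap.proj_apply]
  rw [ff_R0, map_zero]

theorem cf_inj (x : M) (h : ∀ α β u, cf B α β u x = 0) : x = 0 := by
  rw [← gf B x]
  have : ff B x = 0 := by
    funext p
    apply (bs B p.1.isSome p.2.isSome).ext_elem
    intro u
    rw [Pi.zero_apply, map_zero, Finsupp.zero_apply]
    exact h p.1 p.2 u
  rw [this, map_zero]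

theorem cf_surj (w : ∀ α β : Option (Fin (n + 1)), Fin (B.mult α.isSome β.isSome) → ℂ) :
    ∃ x, ∀ α β u, cf B α β u x = w α β u := by
  refine ⟨gg B (fun p => (bs B p.1.isSome p.2.isSome).equivFun.symm (w p.1 p.2)), ?_⟩
  intro α β u
  simp only [cf, LinearMap.comp_apply, LinearMap.proj_apply]
  rw [fg]
  simp only [Module.Basis.coord_apply]
  have := congrFun ((bs B α.isSome β.isSome).equivFun.apply_symm_apply (w α β)) u
  rw [Module.Basis.equivFun_apply] at this
  exact this

/-- the coordinate map on `S ⊕ M` -/
noncomputable def TT : (Matrix (Fin (n + 1)) (Fin (n + 1)) ℂ × M) →ₗ[ℂ]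
    Sp (Fin (n + 1)) (Fin (B.mult true true)) (Fin (B.mult true false))
      (Fin (B.mult false true)) (Fin (B.mult false false)) where
  toFun X := (X.1, fun u => Matrix.of fun i j => cf B (some i) (some j) u X.2,
    Matrix.of fun i a => cf B (some i) none a X.2,
    Matrix.of fun b j => cf B none (some j) b X.2,
    fun c => cf B none none c X.2)
  map_add' X Y := by
    refine Prod.ext rfl (Prod.ext ?_ (Prod.ext ?_ (Prod.ext ?_ ?_)))
    · funext u; ext i j; simp
    · ext i j; simp
    · ext i j; simp
    · funext u; simp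
  map_smul' c X := by
    refine Prod.ext rfl (Prod.ext ?_ (Prod.ext ?_ (Prod.ext ?_ ?_)))
    · funext u; ext i j; simp
    · ext i j; simp
    · ext i j; simp
    · funext u; simp

theorem TT_apply (X : Matrix (Fin (n + 1)) (Fin (n + 1)) ℂ × M) : TT B X =
    (X.1, fun u => Matrix.of fun i j => cf B (some i) (some j) u X.2,
    Matrix.of fun i a => cf B (some i) none a X.2,
    Matrix.of fun b j => cf B none (some j) b X.2,
    fun c => cf B none none c X.2) := rfl

theorem TT_inj : Function.Injective (TT B) := by
  rw [injective_iff_map_eq_zero]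
  intro X hX
  rw [TT_apply] at hX
  have h1 : X.1 = 0 := congrArg (fun Y => Y.1) hX
  have h2 := congrArg (fun Y => Y.2.1) hX
  have h3 := congrArg (fun Y => Y.2.2.1) hX
  have h4 := congrArg (fun Y => Y.2.2.2.1) hX
  have h5 := congrArg (fun Y => Y.2.2.2.2) hX
  refine Prod.ext h1 ?_
  apply cf_inj
  intro α β u
  cases α with
  | none =>
    cases β with
    | none => exact congrFun h5 u
    | some j => exact congrFun (congrFun h4 u) j
  | some i =>
    cases β with
    | none => exact congrFun (congrFun h3 i) u
    | some j => exact congrFun (congrFun (congrFun h2 u) i) j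

theorem TT_surj : Function.Surjective (TT B) := by
  intro Y
  obtain ⟨x, hx⟩ := cf_surj B (fun α β => match α, β with
    | none, none => fun u => Y.2.2.2.2 u
    | none, some j => fun u => Y.2.2.2.1 u j
    | some i, none => fun u => Y.2.2.1 i u
    | some i, some j => fun u => Y.2.1 u i j)
  refine ⟨(Y.1, x), ?_⟩
  rw [TT_apply]
  refine Prod.ext rfl (Prod.ext ?_ (Prod.ext ?_ (Prod.ext ?_ ?_)))
  · funext u; ext i j; exact hx (some i) (some j) u
  · ext i j; exact hx (some i) none j
  · ext i j; exact hx none (some j) i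
  · funext u; exact hx none none u

theorem TT_mul (X Y : Matrix (Fin (n + 1)) (Fin (n + 1)) ℂ × M) :
    TT B (B.mul X Y) = mul (TT B X) (TT B Y) := by
  rw [TT_apply, TT_apply, TT_apply]
  refine Prod.ext rfl (Prod.ext ?_ (Prod.ext ?_ (Prod.ext ?_ ?_)))
  · funext u; ext i j
    simp only [Bimod.mul, mul, of_apply, map_add, cf_L, cf_R, Matrix.add_apply, mul_apply]
    congr 1
    apply Finset.sum_congr rfl
    intro k _
    ring
  · ext i a
    simp only [Bimod.mul, mul, of_apply, map_add, cf_L, cf_R0, Matrix.add_apply, mul_apply,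
      add_zero]
  · ext b j
    simp only [Bimod.mul, mul, of_apply, map_add, cf_L0, cf_R, Matrix.add_apply, mul_apply,
      zero_add]
    apply Finset.sum_congr rfl
    intro k _
    ring
  · funext c
    simp only [Bimod.mul, mul, map_add, cf_L0, cf_R0, add_zero, Pi.zero_apply]

/-- main theorem, simple case -/
theorem main : AntiFrobenius B.mul ↔ Even (B.mult true true) ∧ Even (B.mult false false) ∧
    ((B.mult true false : ℤ) - B.mult false true) ∣ ((n + 1 : ℕ) : ℤ) := by
  rw [← af_iff (n := n + 1) (Nat.succ_pos n)]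
  let e := LinearEquiv.ofBijective (TT B) ⟨TT_inj B, TT_surj B⟩
  have he : ∀ X, e X = TT B X := fun X => rfl
  constructor
  · rintro ⟨ω, h1, h2, h3⟩
    refine ⟨ω.compl₁₂ e.symm.toLinearMap e.symm.toLinearMap, ?_, ?_, ?_⟩
    · intro x hx
      have : e.symm x = 0 := by
        apply h1
        intro y
        have := hx (e y)
        simpa only [LinearMap.compl₁₂_apply, LinearEquiv.coe_coe, LinearEquiv.symm_apply_apply]
          using this
      exact (LinearEquiv.map_eq_zero_iff e.symm).mp this
    · intro x y
      simp only [LinearMap.compl₁₂_apply, LinearEquiv.coe_coe]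
      exact h2 _ _
    · intro x y z
      simp only [LinearMap.compl₁₂_apply, LinearEquiv.coe_coe]
      have hm : ∀ a b, e.symm (mul a b) = B.mul (e.symm a) (e.symm b) := by
        intro a b
        apply e.injective
        rw [LinearEquiv.apply_symm_apply, he, TT_mul, ← he, ← he, LinearEquiv.apply_symm_apply,
          LinearEquiv.apply_symm_apply]
      rw [hm, hm, hm]
      exact h3 _ _ _
  · rintro ⟨ω, h⟩
    refine ⟨ω.compl₁₂ (TT B) (TT B), ?_, ?_, ?_⟩
    · intro x hx
      have : TT B x = 0 := by
        apply h.nd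
        intro y
        obtain ⟨y', rfl⟩ := TT_surj B y
        exact hx y'
      exact (injective_iff_map_eq_zero (TT B)).mp (TT_inj B) x this
    · intro x y
      exact h.anti _ _
    · intro x y z
      simp only [LinearMap.compl₁₂_apply, TT_mul]
      exact h.cyc _ _ _

end Pool.Agent.Helper829.AS
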