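import Mathlib

set_option autoImplicit false
open Finset

namespace Pool.Agent.Helper829.Stz

/-- removal chains: the elements of `A` can be removed one at a time so that every
    set left over satisfies `P` -/
inductive Ch {ι : Type*} [DecidableEq ι] (P : Finset ι → Prop) : Finset ι → Prop
  | nil : Ch P ∅
  | step (A : Finset ι) (i : ι) : i ∈ A → P (A.erase i) → Ch P (A.erase i) → Ch P A

variable {ι : Type*} [DecidableEq ι]

theorem Ch.exists_list {P : Finset ι → Prop} {A : Finset ι} (h : Ch P A) :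
    ∃ L : List ι, L.Nodup ∧ L.toFinset = A ∧ ∀ k < L.length, P (L.take k).toFinset := by
  induction h with
  | nil => exact ⟨[], List.nodup_nil, rfl, by intro k hk; simp at hk⟩
  | step A i hi hP _ ih =>
    obtain ⟨L, hL, hA, hk⟩ := ih
    refine ⟨L ++ [i], ?_, ?_, ?_⟩
    · rw [List.nodup_append]
      refine ⟨hL, by simp, ?_⟩
      intro a ha b hb
      have hb' : b = i := by simpa using hb
      subst hb'
      rintro rfl
      have : a ∈ L.toFinset := by simpa using ha
      rw [hA] at this
      simp at this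
    · rw [List.toFinset_append, hA]
      ext x
      simp only [Finset.mem_union, Finset.mem_erase, List.mem_toFinset, List.mem_singleton]
      constructor
      · rintro (⟨_, h⟩ | h)
        · exact h
        · rw [h]; exact hi
      · intro h
        by_cases hx : x = i
        · exact Or.inr hx
        · exact Or.inl ⟨hx, h⟩
    · intro k hk'
      rw [List.length_append, List.length_singleton] at hk'
      rcases Nat.lt_succ_iff_lt_or_eq.1 hk' with h | h
      · rw [List.take_append_of_le_length h.le]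
        exact hk k h
      · rw [h, List.take_left', hA]
        · exact hP
        · rfl

theorem Ch.exists_perm {n : ℕ} {P : Finset (Fin n) → Prop} (h : Ch P univ) :
    ∃ σ : Equiv.Perm (Fin n), ∀ k < n,
      P ((univ.filter (fun j : Fin n => j.val < k)).image σ) := by
  obtain ⟨L, hL, hA, hk⟩ := h.exists_list
  have hlen : L.length = n := by
    have := List.toFinset_card_of_nodup hL
    rw [hA] at this
    simpa using this.symm
  have hinj : Function.Injective (fun j : Fin n => L.get (Fin.cast hlen.symm j)) := by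
    intro a b hab
    have := List.nodup_iff_injective_get.1 hL hab
    simpa [Fin.ext_iff] using this
  let σ : Equiv.Perm (Fin n) := Equiv.ofBijective _ (Finite.injective_iff_bijective.1 hinj)
  refine ⟨σ, ?_⟩
  intro k hkn
  have := hk k (by omega)
  convert this using 1
  ext x
  simp only [Finset.mem_image, Finset.mem_filter, Finset.mem_univ, true_and, List.mem_toFinset]
  rw [List.mem_take_iff_getElem]
  constructor
  · rintro ⟨j, hj, rfl⟩
    refine ⟨j.val, ?_, rfl⟩
    have := j.isLt
    rw [lt_min_iff]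
    omega
  · rintro ⟨j, hj, rfl⟩
    rw [lt_min_iff] at hj
    exact ⟨⟨j, by omega⟩, hj.1, rfl⟩

/-- existence of a linear dependency -/
theorem dep {W : Type*} [AddCommGroup W] [Module ℝ W] [FiniteDimensional ℝ W]
    (F : Finset ι) (u : ι → W) (h : Module.finrank ℝ W < F.card) :
    ∃ β : ι → ℝ, (∀ i, i ∉ F → β i = 0) ∧ ∑ i ∈ F, β i • u i = 0 ∧ ∃ i ∈ F, β i ≠ 0 := by
  have hnot : ¬ LinearIndependent ℝ (fun i : F => u i) := by
    intro hli
    have := hli.fintype_card_le_finrank
    rw [Fintype.card_coe] at this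
    omega
  rw [Fintype.not_linearIndependent_iff] at hnot
  obtain ⟨g, hg, i, hi⟩ := hnot
  refine ⟨fun i => if h : i ∈ F then g ⟨i, h⟩ else 0, ?_, ?_, i.1, i.2, ?_⟩
  · intro i hi
    simp [hi]
  · rw [← Finset.sum_coe_sort F]
    rw [← hg]
    apply Finset.sum_congr rfl
    intro x _
    simp
  · simpa using hi

omit [DecidableEq ι] in
/-- moving along a direction inside the cube until a coordinate becomes extreme -/
theorem move (F : Finset ι) (l β : ι → ℝ) (hF : ∀ i ∈ F, 0 < l i ∧ l i < 1)
    (hβ : ∃ i ∈ F, β i ≠ 0) :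
    ∃ s : ℝ, 0 < s ∧ (∀ i ∈ F, 0 ≤ l i + s * β i ∧ l i + s * β i ≤ 1) ∧
      ∃ i ∈ F, β i ≠ 0 ∧ (l i + s * β i = 0 ∨ l i + s * β i = 1) := by
  classical
  let G := F.filter (fun i => β i ≠ 0)
  have hG : G.Nonempty := by
    obtain ⟨i, hi, hb⟩ := hβ
    exact ⟨i, by simp [G, hi, hb]⟩
  let f : ι → ℝ := fun i => if 0 < β i then (1 - l i) / β i else l i / (-β i)
  obtain ⟨j, hj, hmin⟩ := Finset.exists_min_image G f hG
  have hjF : j ∈ F := (Finset.mem_filter.1 hj).1
  have hjb : β j ≠ 0 := (Finset.mem_filter.1 hj).2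
  have hpos : 0 < f j := by
    simp only [f]
    split_ifs with h
    · exact div_pos (by linarith [(hF j hjF).2]) h
    · have : β j < 0 := lt_of_le_of_ne (not_lt.1 h) hjb
      exact div_pos (hF j hjF).1 (by linarith)
  refine ⟨f j, hpos, ?_, j, hjF, hjb, ?_⟩
  · intro i hi
    by_cases hb : β i = 0
    · rw [hb]
      simp only [mul_zero, add_zero]
      exact ⟨(hF i hi).1.le, (hF i hi).2.le⟩
    · have h1 := hmin i (Finset.mem_filter.2 ⟨hi, hb⟩)
      by_cases hb' : 0 < β i
      · have h2 : f i = (1 - l i) / β i := by simp [f, hb']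
        rw [h2, le_div_iff₀ hb'] at h1
        constructor
        · have := mul_pos hpos hb'
          linarith [(hF i hi).1]
        · linarith
      · have hneg : β i < 0 := lt_of_le_of_ne (not_lt.1 hb') hb
        have h2 : f i = l i / (-β i) := by simp [f, hb']
        rw [h2, le_div_iff₀ (by linarith)] at h1
        constructor
        · linarith
        · have := mul_pos hpos (neg_pos.2 hneg)
          linarith [(hF i hi).2]
  · by_cases hb' : 0 < β j
    · right
      have h2 : f j = (1 - l j) / β j := by simp [f, hb']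
      rw [h2]
      field_simp
      ring
    · left
      have hneg : β j < 0 := lt_of_le_of_ne (not_lt.1 hb') hjb
      have h2 : f j = l j / (-β j) := by simp [f, hb']
      rw [h2]
      field_simp
      ring

/-- the two norm properties that are used -/
structure Sn {V : Type*} [AddCommGroup V] [Module ℝ V] (N : V → ℝ) : Prop where
  add : ∀ x y, N (x + y) ≤ N x + N y
  smul : ∀ (c : ℝ) x, N (c • x) = |c| * N x

variable {V : Type*} [AddCommGroup V] [Module ℝ V] {N : V → ℝ}

theorem Sn.zero (hN : Sn N) : N 0 = 0 := by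
  have := hN.smul 0 0
  simpa using this

theorem Sn.neg (hN : Sn N) (x : V) : N (-x) = N x := by
  have := hN.smul (-1) x
  simpa using this

theorem Sn.nonneg (hN : Sn N) (x : V) : 0 ≤ N x := by
  have h := hN.add x (-x)
  rw [hN.neg, add_neg_cancel, hN.zero] at h
  linarith

theorem Sn.sub (hN : Sn N) (x y : V) : N (x - y) ≤ N x + N y := by
  rw [sub_eq_add_neg]
  refine (hN.add x (-y)).trans ?_
  rw [hN.neg]

theorem Sn.sum_le (hN : Sn N) (A : Finset ι) (u : ι → V) :
    N (∑ i ∈ A, u i) ≤ ∑ i ∈ A, N (u i) := by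
  induction A using Finset.induction_on with
  | empty => simp [hN.zero]
  | insert a s ha ih =>
    rw [Finset.sum_insert ha, Finset.sum_insert ha]
    exact (hN.add _ _).trans (by linarith)

theorem Sn.sum_smul_le (hN : Sn N) (A : Finset ι) (c : ι → ℝ) (u : ι → V)
    (hu : ∀ i ∈ A, N (u i) ≤ 1) :
    N (∑ i ∈ A, c i • u i) ≤ ∑ i ∈ A, |c i| := by
  refine (hN.sum_le A _).trans ?_
  apply Finset.sum_le_sum
  intro i hi
  rw [hN.smul]
  have := mul_le_mul_of_nonneg_left (hu i hi) (abs_nonneg (c i))
  linarith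

theorem Sn.sum_smul_le' (hN : Sn N) (A : Finset ι) (c : ι → ℝ) (u : ι → V)
    (hu : ∀ i ∈ A, N (u i) ≤ 1) (hc : ∀ i ∈ A, 0 ≤ c i) :
    N (∑ i ∈ A, c i • u i) ≤ ∑ i ∈ A, c i := by
  refine (hN.sum_smul_le A c u hu).trans (le_of_eq ?_)
  apply Finset.sum_congr rfl
  intro i hi
  exact abs_of_nonneg (hc i hi)

/-- small sets -/
theorem Ch.of_card_le {P : Finset ι → Prop} (k : ℕ) (A : Finset ι)
    (hP : ∀ B : Finset ι, B ⊆ A → B.card < k → P B) (hA : A.card ≤ k) : Ch P A := by
  induction A using Finset.strongInduction with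
  | H A ih =>
    by_cases h : A = ∅
    · rw [h]; exact Ch.nil
    · obtain ⟨i, hi⟩ := Finset.nonempty_iff_ne_empty.2 h
      have hc := Finset.card_erase_add_one hi
      refine Ch.step A i hi (hP _ (Finset.erase_subset _ _) (by omega))
        (ih _ (Finset.erase_ssubset hi) ?_ (by omega))
      intro B hB hBc
      exact hP B (hB.trans (Finset.erase_subset _ _)) hBc

/-- fractional coordinates -/
noncomputable def fr (A : Finset ι) (l : ι → ℝ) : Finset ι := A.filter (fun i => 0 < l i ∧ l i < 1)

/-- the basic reduction -/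
theorem red {W : Type*} [AddCommGroup W] [Module ℝ W] [FiniteDimensional ℝ W]
    (A : Finset ι) (g : ι → W) (c : ι → ℝ) (l : ι → ℝ) (hl : ∀ i ∈ A, 0 ≤ l i ∧ l i ≤ 1) :
    ∃ l' : ι → ℝ, (∀ i ∈ A, 0 ≤ l' i ∧ l' i ≤ 1) ∧ ∑ i ∈ A, l' i • g i = ∑ i ∈ A, l i • g i ∧
      ∑ i ∈ A, l' i * c i ≤ ∑ i ∈ A, l i * c i ∧
      ((fr A l').card ≤ Module.finrank ℝ W ∨ ∃ i ∈ A, l' i = 0) := by
  induction hn : (fr A l).card using Nat.strong_induction_on generalizing l with
  | _ n ih =>
    by_cases h0 : ∃ i ∈ A, l i = 0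
    · exact ⟨l, hl, rfl, le_refl _, Or.inr h0⟩
    by_cases hc : (fr A l).card ≤ Module.finrank ℝ W
    · exact ⟨l, hl, rfl, le_refl _, Or.inl hc⟩
    obtain ⟨β, hβ0, hβs, hβn⟩ : ∃ β : ι → ℝ, (∀ i, i ∉ fr A l → β i = 0) ∧
        ∑ i ∈ fr A l, β i • g i = 0 ∧ (∃ i ∈ fr A l, β i ≠ 0) := dep (fr A l) g (not_le.1 hc)
    -- orientation
    obtain ⟨β, hβ0, hβs, hβn, hor⟩ : ∃ β : ι → ℝ, (∀ i, i ∉ fr A l → β i = 0) ∧
        ∑ i ∈ fr A l, β i • g i = 0 ∧ (∃ i ∈ fr A l, β i ≠ 0) ∧
        ∑ i ∈ fr A l, β i * c i ≤ 0 := by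
      by_cases h : ∑ i ∈ fr A l, β i * c i ≤ 0
      · exact ⟨β, hβ0, hβs, hβn, h⟩
      · refine ⟨fun i => - β i, ?_, ?_, ?_, ?_⟩
        · intro i hi; simp [hβ0 i hi]
        · simp [neg_smul, hβs]
        · obtain ⟨i, hi, hb⟩ := hβn
          exact ⟨i, hi, by simpa using hb⟩
        · simp only [neg_mul, Finset.sum_neg_distrib]
          linarith [not_le.1 h]
    have hsub : fr A l ⊆ A := Finset.filter_subset _ _
    have hfr : ∀ i ∈ fr A l, 0 < l i ∧ l i < 1 := fun i hi => (Finset.mem_filter.1 hi).2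
    obtain ⟨s, hs, hbox, j, hj, hjb, hhit⟩ := move (fr A l) l β hfr hβn
    have hbox' : ∀ i ∈ A, 0 ≤ l i + s * β i ∧ l i + s * β i ≤ 1 := by
      intro i hi
      by_cases hif : i ∈ fr A l
      · exact hbox i hif
      · rw [hβ0 i hif]
        simpa using hl i hi
    have hg : ∑ i ∈ A, (l i + s * β i) • g i = ∑ i ∈ A, l i • g i := by
      have h1 : ∑ i ∈ A, β i • g i = 0 := by
        rw [← hβs]
        symm
        apply Finset.sum_subset hsub
        intro i _ hi
        rw [hβ0 i hi, zero_smul]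
      simp only [add_smul, mul_smul, Finset.sum_add_distrib, ← Finset.smul_sum, h1, smul_zero,
        add_zero]
    have hcc : ∑ i ∈ A, (l i + s * β i) * c i ≤ ∑ i ∈ A, l i * c i := by
      have h1 : ∑ i ∈ A, β i * c i = ∑ i ∈ fr A l, β i * c i := by
        symm
        apply Finset.sum_subset hsub
        intro i _ hi
        rw [hβ0 i hi, zero_mul]
      have h2 : ∑ i ∈ A, (l i + s * β i) * c i = ∑ i ∈ A, l i * c i + s * ∑ i ∈ A, β i * c i := by
        rw [Finset.mul_sum, ← Finset.sum_add_distrib]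
        apply Finset.sum_congr rfl
        intro i _
        ring
      rw [h2, h1]
      have := mul_nonneg hs.le (neg_nonneg.2 hor)
      linarith
    rcases hhit with hz | ho
    · exact ⟨fun i => l i + s * β i, hbox', hg, hcc, Or.inr ⟨j, hsub hj, hz⟩⟩
    · have hlt : (fr A (fun i => l i + s * β i)).card < n := by
        rw [← hn]
        apply Finset.card_lt_card
        rw [Finset.ssubset_iff_of_subset]
        · refine ⟨j, hj, ?_⟩
          intro hj'
          have := (Finset.mem_filter.1 hj').2.2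
          linarith
        · intro i hi
          have hi' := Finset.mem_filter.1 hi
          by_contra hif
          simp only [hβ0 i hif, mul_zero, add_zero] at hi'
          exact hif (Finset.mem_filter.2 hi')
      obtain ⟨l', h1, h2, h3, h4⟩ := ih _ hlt (fun i => l i + s * β i) hbox' rfl
      exact ⟨l', h1, h2.trans hg, h3.trans hcc, h4⟩

end Pool.Agent.Helper829.Stz
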