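import Pool.Agent.Helper829.StzA

set_option autoImplicit false
open Finset

namespace Pool.Agent.Helper829.Stz

variable {ι : Type*} [DecidableEq ι]
variable {V : Type*} [AddCommGroup V] [Module ℝ V] {N : V → ℝ}

omit [DecidableEq ι] in
theorem sum_pair (A : Finset ι) (l : ι → ℝ) (v : ι → V) :
    ∑ i ∈ A, l i • ((v i, (1 : ℝ)) : V × ℝ) = (∑ i ∈ A, l i • v i, ∑ i ∈ A, l i) := by
  apply Prod.ext
  · simp [Prod.fst_sum]
  · simp [Prod.snd_sum]

omit [DecidableEq ι] in
theorem D_eq (A : Finset ι) (l : ι → ℝ) :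
    ∑ i ∈ A, (1 - l i) = (A.card : ℝ) - ∑ i ∈ A, l i := by
  rw [Finset.sum_sub_distrib]
  simp

omit [DecidableEq ι] in
theorem D_fr (A : Finset ι) (l : ι → ℝ) (hl : ∀ i ∈ A, 0 ≤ l i ∧ l i ≤ 1)
    (hz : ∀ i ∈ A, l i ≠ 0) : ∑ i ∈ A, (1 - l i) = ∑ i ∈ fr A l, (1 - l i) := by
  symm
  apply Finset.sum_subset (Finset.filter_subset _ _)
  intro i hi hif
  have h1 : 0 < l i := lt_of_le_of_ne (hl i hi).1 (hz i hi).symm
  have h2 : ¬ (l i < 1) := fun h => hif (Finset.mem_filter.2 ⟨hi, h1, h⟩)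
  have := (hl i hi).2
  linarith [not_lt.1 h2]

theorem D_lt (A : Finset ι) (l : ι → ℝ) (hl : ∀ i ∈ A, 0 ≤ l i ∧ l i ≤ 1)
    (hz : ∀ i ∈ A, l i ≠ 0) (hD : 0 < ∑ i ∈ A, (1 - l i)) :
    ∑ i ∈ A, (1 - l i) < (fr A l).card := by
  rw [D_fr A l hl hz] at hD ⊢
  have hne : (fr A l).Nonempty := by
    rw [Finset.nonempty_iff_ne_empty]
    intro h
    rw [h] at hD
    simp at hD
  calc ∑ i ∈ fr A l, (1 - l i) < ∑ i ∈ fr A l, (1 : ℝ) := by
        apply Finset.sum_lt_sum_of_nonempty hne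
        intro i hi
        have := (Finset.mem_filter.1 hi).2.1
        linarith
    _ = (fr A l).card := by simp

omit [DecidableEq ι] in
theorem card_pos_of (A : Finset ι) (l : ι → ℝ) (t : ℝ) (hD : ∑ i ∈ A, (1 - l i) ≤ t)
    (ht : t < A.card) : 0 < ∑ i ∈ A, l i := by
  rw [D_eq] at hD
  linarith

omit [DecidableEq ι] in
/-- scaling to a prescribed deficiency -/
theorem scale (A : Finset ι) (v : ι → V) (e : V) (l : ι → ℝ) (hl : ∀ i ∈ A, 0 ≤ l i ∧ l i ≤ 1)
    (hs : ∑ i ∈ A, l i • v i + e = 0) (a b : ℝ) (hD : ∑ i ∈ A, (1 - l i) ≤ a) (hab : a ≤ b)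
    (ha : a < A.card) (hb : b ≤ A.card) :
    ∃ t : ℝ, 0 ≤ t ∧ t ≤ 1 ∧ (∀ i ∈ A, 0 ≤ t * l i ∧ t * l i ≤ 1) ∧
      ∑ i ∈ A, (t * l i) • v i + t • e = 0 ∧ ∑ i ∈ A, (1 - t * l i) = b := by
  have hpos := card_pos_of A l a hD ha
  rw [D_eq] at hD
  refine ⟨((A.card : ℝ) - b) / ∑ i ∈ A, l i, div_nonneg (by linarith) hpos.le, ?_, ?_, ?_, ?_⟩
  · rw [div_le_one hpos]; linarith
  · intro i hi
    have h0 : 0 ≤ ((A.card : ℝ) - b) / ∑ i ∈ A, l i := div_nonneg (by linarith) hpos.le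
    have h1 : ((A.card : ℝ) - b) / ∑ i ∈ A, l i ≤ 1 := by rw [div_le_one hpos]; linarith
    have := hl i hi
    constructor
    · exact mul_nonneg h0 this.1
    · calc _ ≤ 1 * l i := mul_le_mul_of_nonneg_right h1 this.1
        _ ≤ 1 := by linarith
  · simp only [mul_smul, ← Finset.smul_sum, ← smul_add, hs, smul_zero]
  · rw [Finset.sum_sub_distrib, ← Finset.mul_sum, div_mul_cancel₀ _ hpos.ne']
    simp

theorem Sn.sum_smul_leR (hN : Sn N) (A : Finset ι) (c : ι → ℝ) (u : ι → V) (R : ℝ)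
    (hu : ∀ i ∈ A, N (u i) ≤ R) (hc : ∀ i ∈ A, 0 ≤ c i) :
    N (∑ i ∈ A, c i • u i) ≤ (∑ i ∈ A, c i) * R := by
  refine (hN.sum_le A _).trans ?_
  rw [Finset.sum_mul]
  apply Finset.sum_le_sum
  intro i hi
  rw [hN.smul, abs_of_nonneg (hc i hi)]
  exact mul_le_mul_of_nonneg_left (hu i hi) (hc i hi)

/-- the sum over the remaining set, in terms of the complementary weights -/
theorem sum_erase_eq (A : Finset ι) (v : ι → V) (l : ι → ℝ) (e : V) (i : ι) (hi : i ∈ A)
    (hs : ∑ i ∈ A, l i • v i + e = 0) :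
    ∑ j ∈ A.erase i, v j = ∑ j ∈ A.erase i, (1 - l j) • v j - l i • v i - e := by
  have h1 : ∑ j ∈ A.erase i, l j • v j = - (l i • v i) - e := by
    have := Finset.add_sum_erase A (fun j => l j • v j) hi
    have h2 : ∑ j ∈ A.erase i, l j • v j = ∑ j ∈ A, l j • v j - l i • v i := by
      rw [← this]; simp
    rw [h2]
    have h3 : ∑ j ∈ A, l j • v j = - e := eq_neg_of_add_eq_zero_left hs
    rw [h3]; abel
  simp only [sub_smul, one_smul, Finset.sum_sub_distrib, h1]
  abel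

theorem D_erase (A : Finset ι) (l : ι → ℝ) (i : ι) (hi : i ∈ A) :
    ∑ j ∈ A.erase i, (1 - l j) = ∑ j ∈ A, (1 - l j) - (1 - l i) := by
  rw [← Finset.add_sum_erase A (fun j => 1 - l j) hi]
  ring

/-- Steinitz lemma with constant 3 -/
theorem gs [FiniteDimensional ℝ V] (hfr : Module.finrank ℝ V = 3) (hN : Sn N) (u : ι → V)
    (R : ℝ) (hR : 0 ≤ R) (A : Finset ι) (hu : ∀ i ∈ A, N (u i) ≤ R)
    (hA : ∃ l : ι → ℝ, (∀ i ∈ A, 0 ≤ l i ∧ l i ≤ 1) ∧ ∑ i ∈ A, l i • u i = 0 ∧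
      ∑ i ∈ A, (1 - l i) ≤ 3) :
    Ch (fun B => N (∑ i ∈ B, u i) ≤ 3 * R) A := by
  induction A using Finset.strongInduction with
  | H A ih =>
    by_cases hc : A.card ≤ 3
    · apply Ch.of_card_le 3 A _ hc
      intro B hB hBc
      refine (hN.sum_le B _).trans ?_
      calc ∑ i ∈ B, N (u i) ≤ ∑ i ∈ B, R := Finset.sum_le_sum (fun i hi => hu i (hB hi))
        _ = (B.card : ℝ) * R := by simp
        _ ≤ 3 * R := by
          apply mul_le_mul_of_nonneg_right _ hR
          exact_mod_cast hBc.le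
    · push Not at hc
      have hc' : (4 : ℝ) ≤ A.card := by exact_mod_cast hc
      obtain ⟨l, hl, hs, hD⟩ := hA
      obtain ⟨t, ht0, ht1, htl, hts, htD⟩ := scale A u 0 l hl (by simpa using hs) 3 4 hD
        (by norm_num) (by linarith) (by linarith)
      obtain ⟨l', hl', hs', -, hor⟩ := red A (fun i => ((u i, (1 : ℝ)) : V × ℝ)) (fun _ => 0)
        (fun i => t * l i) htl
      rw [sum_pair, sum_pair, Prod.mk.injEq] at hs'
      have hs'' : ∑ i ∈ A, l' i • u i = 0 := by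
        rw [hs'.1]; simpa using hts
      have hD' : ∑ i ∈ A, (1 - l' i) = 4 := by
        rw [D_eq, hs'.2, ← D_eq]; exact htD
      have hzero : ∃ i ∈ A, l' i = 0 := by
        rcases hor with h | h
        · by_contra hno
          push Not at hno
          have h1 := D_lt A l' hl' hno (by rw [hD']; norm_num)
          rw [hD'] at h1
          have h2 : Module.finrank ℝ (V × ℝ) = 4 := by
            rw [Module.finrank_prod, hfr, Module.finrank_self]
          rw [h2] at h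
          have h3 : ((fr A l').card : ℝ) ≤ 4 := by exact_mod_cast h
          linarith
        · exact h
      obtain ⟨i, hi, hi0⟩ := hzero
      have hDe := D_erase A l' i hi
      rw [hD', hi0] at hDe
      have hse := sum_erase_eq A u l' 0 i hi (by simpa using hs'')
      rw [hi0] at hse
      simp only [zero_smul, sub_zero] at hse
      refine Ch.step A i hi ?_ (ih _ (Finset.erase_ssubset hi)
        (fun j hj => hu j (Finset.mem_of_mem_erase hj)) ⟨l', ?_, ?_, ?_⟩)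
      · show N (∑ i ∈ A.erase i, u i) ≤ 3 * R
        rw [hse]
        refine (hN.sum_smul_leR _ _ u R (fun j hj => hu j (Finset.mem_of_mem_erase hj))
          (fun j hj => by linarith [(hl' j (Finset.mem_of_mem_erase hj)).2])).trans ?_
        rw [hDe]
        linarith
      · intro j hj
        exact hl' j (Finset.mem_of_mem_erase hj)
      · have := Finset.add_sum_erase A (fun j => l' j • u j) hi
        rw [hs''] at this
        simpa [hi0] using this
      · rw [hDe]; norm_num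

end Pool.Agent.Helper829.Stz
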