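import Pool.Agent.Helper829.StzB

set_option autoImplicit false
open Finset

namespace Pool.Agent.Helper829.Stz

variable {ι : Type*} [DecidableEq ι]
variable {V : Type*} [AddCommGroup V] [Module ℝ V] {N : V → ℝ}

/-- a state with at most one removed vector still carrying weight -/
def St (N : V → ℝ) (v : ι → V) (w : ℝ) (A : Finset ι) : Prop :=
  ∃ (l : ι → ℝ) (y : ℝ) (d : V), N d ≤ 1 ∧ 0 ≤ y ∧ y ≤ w ∧ (∀ i ∈ A, 0 ≤ l i ∧ l i ≤ 1) ∧
    ∑ i ∈ A, l i • v i + y • d = 0 ∧ ∑ i ∈ A, (1 - l i) ≤ 3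

/-- clean weights -/
def Cl (v : ι → V) (A : Finset ι) (l : ι → ℝ) : Prop :=
  (∀ i ∈ A, 0 ≤ l i ∧ l i ≤ 1) ∧ ∑ i ∈ A, l i • v i = 0

/-- removing an element of small weight from a clean state -/
theorem remove_b (hN : Sn N) (v : ι → V) (w : ℝ) (A : Finset ι) (hv : ∀ i ∈ A, N (v i) ≤ 1)
    (l : ι → ℝ) (hl : Cl v A l) (hD : ∑ i ∈ A, (1 - l i) ≤ 3) (j : ι) (hj : j ∈ A)
    (hjw : l j ≤ w) :
    N (∑ i ∈ A.erase j, v i) ≤ ∑ i ∈ A, (1 - l i) - 1 + 2 * l j ∧ St N v w (A.erase j) := by
  have hDe := D_erase A l j hj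
  constructor
  · have hse := sum_erase_eq A v l 0 j hj (by simpa using hl.2)
    rw [hse, sub_zero]
    refine (hN.sub _ _).trans ?_
    have h1 := hN.sum_smul_le' (A.erase j) (fun i => 1 - l i) v
      (fun i hi => hv i (Finset.mem_of_mem_erase hi))
      (fun i hi => by linarith [(hl.1 i (Finset.mem_of_mem_erase hi)).2])
    have h2 : N (l j • v j) ≤ l j := by
      rw [hN.smul, abs_of_nonneg (hl.1 j hj).1]
      have := mul_le_mul_of_nonneg_left (hv j hj) (hl.1 j hj).1
      linarith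
    rw [hDe] at h1
    linarith
  · refine ⟨l, l j, v j, hv j hj, (hl.1 j hj).1, hjw, ?_, ?_, ?_⟩
    · intro i hi
      exact hl.1 i (Finset.mem_of_mem_erase hi)
    · rw [Finset.sum_erase_add A (fun i => l i • v i) hj]
      exact hl.2
    · rw [hDe]
      linarith [(hl.1 j hj).2]

theorem dirty [FiniteDimensional ℝ V] (hfr : Module.finrank ℝ V = 3) (hN : Sn N) (v : ι → V)
    (w : ℝ) (hw1 : w < 1) (A : Finset ι) (hv : ∀ i ∈ A, N (v i) ≤ 1)
    (hc : 4 ≤ A.card) (hS : St N v w A) :
    (∃ l, Cl v A l ∧ ∑ i ∈ A, (1 - l i) ≤ 3) ∨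
    (∃ i ∈ A, N (∑ j ∈ A.erase i, v j) ≤ 2 + w ∧ St N v w (A.erase i)) := by
  obtain ⟨l, y, d, hd, hy0, hyw, hl, hs, hD⟩ := hS
  have hc' : (4 : ℝ) ≤ A.card := by exact_mod_cast hc
  obtain ⟨t, ht0, ht1, htl, hts, htD⟩ := scale A v (y • d) l hl hs 3 3 hD le_rfl
    (by linarith) (by linarith)
  have hty0 : 0 ≤ t * y := mul_nonneg ht0 hy0
  have htyw : t * y ≤ w := by
    calc t * y ≤ 1 * y := mul_le_mul_of_nonneg_right ht1 hy0
      _ ≤ w := by linarith
  let g : Option ι → V × ℝ := fun o => o.elim (d, 0) (fun i => (v i, 1))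
  let l0 : Option ι → ℝ := fun o => o.elim (t * y) (fun i => t * l i)
  let c : Option ι → ℝ := fun o => o.elim 1 (fun _ => 0)
  obtain ⟨l', hl', hs', hcl, hor⟩ := red (Finset.insertNone A) g c l0 (by
    intro o ho
    cases o with
    | none => exact ⟨hty0, by show t * y ≤ 1; linarith⟩
    | some i => exact htl i (by simpa using ho))
  rw [Finset.sum_insertNone, Finset.sum_insertNone] at hs' hcl
  simp only [g, l0, c, Option.elim_none, Option.elim_some, mul_one, mul_zero,
    Finset.sum_const_zero, add_zero] at hs' hcl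
  rw [sum_pair A (fun i => l' (some i)) v, sum_pair A (fun i => t * l i) v] at hs'
  rw [Prod.ext_iff] at hs'
  simp only [Prod.fst_add, Prod.snd_add, Prod.smul_mk, smul_zero, zero_add] at hs'
  obtain ⟨hs1, hs2⟩ := hs'
  have hs1' : ∑ i ∈ A, l' (some i) • v i + l' none • d = 0 := by
    rw [add_comm, hs1, ← hts, mul_smul]
    abel
  have hD' : ∑ i ∈ A, (1 - l' (some i)) = 3 := by
    rw [D_eq A (fun i => l' (some i)), hs2, ← D_eq]
    exact htD
  have hn0 : 0 ≤ l' none := (hl' none (by simp)).1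
  have hbox : ∀ i ∈ A, 0 ≤ l' (some i) ∧ l' (some i) ≤ 1 := fun i hi => hl' (some i) (by simpa using hi)
  by_cases hz : ∃ o ∈ Finset.insertNone A, l' o = 0
  · obtain ⟨o, ho, hz⟩ := hz
    cases o with
    | none =>
      left
      refine ⟨fun i => l' (some i), ⟨hbox, ?_⟩, hD'.le⟩
      rw [hz, zero_smul, add_zero] at hs1'
      exact hs1'
    | some i =>
      right
      have hi : i ∈ A := by simpa using ho
      have hDe := D_erase A (fun i => l' (some i)) i hi
      simp only [hD', hz] at hDe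
      refine ⟨i, hi, ?_, fun i => l' (some i), l' none, d, hd, hn0, by linarith, ?_, ?_, ?_⟩
      · have hse := sum_erase_eq A v (fun i => l' (some i)) (l' none • d) i hi hs1'
        simp only [hz, zero_smul, sub_zero] at hse
        rw [hse]
        refine (hN.sub _ _).trans ?_
        have h1 := hN.sum_smul_le' (A.erase i) (fun j => 1 - l' (some j)) v
          (fun j hj => hv j (Finset.mem_of_mem_erase hj))
          (fun j hj => by linarith [(hbox j (Finset.mem_of_mem_erase hj)).2])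
        have h2 : N (l' none • d) ≤ l' none := by
          rw [hN.smul, abs_of_nonneg hn0]
          have := mul_le_mul_of_nonneg_left hd hn0
          linarith
        rw [hDe] at h1
        linarith
      · intro j hj
        exact hbox j (Finset.mem_of_mem_erase hj)
      · have := Finset.add_sum_erase A (fun j => l' (some j) • v j) hi
        simp only [hz, zero_smul, zero_add] at this
        rw [this]
        exact hs1'
      · rw [hDe]; norm_num
  · exfalso
    have hcard := hor.resolve_right hz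
    push Not at hz
    have h1 := D_lt A (fun i => l' (some i)) hbox (fun i hi => hz (some i) (by simpa using hi))
      (by rw [hD']; norm_num)
    rw [hD'] at h1
    have h1' : 3 < (fr A (fun i => l' (some i))).card := by exact_mod_cast h1
    have h2 : Module.finrank ℝ (V × ℝ) = 4 := by
      rw [Module.finrank_prod, hfr, Module.finrank_self]
    rw [h2] at hcard
    have h3 : Finset.insertNone (fr A (fun i => l' (some i))) ⊆ fr (Finset.insertNone A) l' := by
      intro o ho
      cases o with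
      | none =>
        refine Finset.mem_filter.2 ⟨by simp, lt_of_le_of_ne hn0 (hz none (by simp)).symm, ?_⟩
        linarith
      | some i =>
        have hi := Finset.mem_filter.1 (Finset.some_mem_insertNone.1 ho)
        exact Finset.mem_filter.2 ⟨Finset.some_mem_insertNone.2 hi.1, hi.2⟩
    have h4 := Finset.card_le_card h3
    rw [Finset.card_insertNone] at h4
    omega

/-- the stuck states -/
def Stuck (v : ι → V) (w : ℝ) (A : Finset ι) : Prop :=
  (∃ l, Cl v A l ∧ ∑ i ∈ A, (1 - l i) = 8 / 3) ∧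
  ∀ l, Cl v A l → ∑ i ∈ A, (1 - l i) = 8 / 3 → ∀ i ∈ A, w < l i

theorem clean [FiniteDimensional ℝ V] (hfr : Module.finrank ℝ V = 3) (hN : Sn N) (v : ι → V)
    (w : ℝ) (hw : w = 1 / 3 - 1 / 10000) (A : Finset ι) (hv : ∀ i ∈ A, N (v i) ≤ 1)
    (hc : 4 ≤ A.card) (hS : ∃ l, Cl v A l ∧ ∑ i ∈ A, (1 - l i) ≤ 3) :
    (∃ i ∈ A, N (∑ j ∈ A.erase i, v j) ≤ 7 / 3 - 1 / 10000 ∧ St N v w (A.erase i)) ∨
      Stuck v w A := by
  have hc' : (4 : ℝ) ≤ A.card := by exact_mod_cast hc
  by_cases hII : ∃ l, Cl v A l ∧ ∑ i ∈ A, (1 - l i) ≤ 8 / 3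
  · by_cases hb : ∃ l, Cl v A l ∧ ∑ i ∈ A, (1 - l i) = 8 / 3 ∧ ∃ i ∈ A, l i ≤ w
    · obtain ⟨l, hl, hD, i, hi, hiw⟩ := hb
      left
      obtain ⟨h1, h2⟩ := remove_b hN v w A hv l hl (by rw [hD]; norm_num) i hi hiw
      refine ⟨i, hi, ?_, h2⟩
      rw [hD] at h1
      linarith
    · right
      push Not at hb
      refine ⟨?_, hb⟩
      obtain ⟨l, hl, hD⟩ := hII
      obtain ⟨t, ht0, ht1, htl, hts, htD⟩ := scale A v 0 l hl.1 (by simpa using hl.2) (8/3) (8/3)
        hD le_rfl (by linarith) (by linarith)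
      exact ⟨fun i => t * l i, ⟨htl, by simpa using hts⟩, htD⟩
  · left
    push Not at hII
    obtain ⟨l, hl, hD⟩ := hS
    obtain ⟨l', hl', hs', hcl, hor⟩ := red A v (fun _ => (-1 : ℝ)) l hl.1
    have hcl' : Cl v A l' := ⟨hl', hs'.trans hl.2⟩
    have hD' : ∑ i ∈ A, (1 - l' i) ≤ 3 := by
      rw [D_eq] at hD ⊢
      simp only [mul_neg, mul_one, Finset.sum_neg_distrib] at hcl
      linarith
    by_cases hz : ∃ i ∈ A, l' i = 0
    · obtain ⟨i, hi, hz⟩ := hz
      obtain ⟨h1, h2⟩ := remove_b hN v w A hv l' hcl' hD' i hi (by rw [hz, hw]; norm_num)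
      refine ⟨i, hi, ?_, h2⟩
      rw [hz] at h1
      linarith
    · have hcard := hor.resolve_right hz
      push Not at hz
      have h8 := hII l' hcl'
      have h1 := D_lt A l' hl' hz (by linarith)
      rw [hfr] at hcard
      have h2 : (2 : ℝ) < ((fr A l').card : ℝ) := by linarith
      have h3 : 2 < (fr A l').card := by exact_mod_cast h2
      have h4 : (fr A l').card = 3 := by omega
      have h5 := D_fr A l' hl' hz
      rw [D_eq (fr A l'), h4] at h5
      push_cast at h5
      have h6 : ∃ j ∈ fr A l', l' j ≤ (3 - ∑ i ∈ A, (1 - l' i)) / 3 := by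
        apply Finset.exists_le_of_sum_le
        · rw [← Finset.card_pos]; omega
        · rw [Finset.sum_const, h4, nsmul_eq_mul]
          push_cast
          linarith
      obtain ⟨j, hj, hjl⟩ := h6
      have hjA : j ∈ A := (Finset.mem_filter.1 hj).1
      obtain ⟨h7, h9⟩ := remove_b hN v w A hv l' hcl' hD' j hjA (by rw [hw]; linarith)
      refine ⟨j, hjA, ?_, h9⟩
      linarith

end Pool.Agent.Helper829.Stz
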