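import Pool.Agent.Helper829.StzC

set_option autoImplicit false
open Finset

namespace Pool.Agent.Helper829.Stz

variable {ι : Type*} [DecidableEq ι]
variable {V : Type*} [AddCommGroup V] [Module ℝ V] {N : V → ℝ}

theorem stuck_card (v : ι → V) (w : ℝ) (hw : w = 1 / 3 - 1 / 10000) (A : Finset ι)
    (hS : Stuck v w A) (l : ι → ℝ) (hl : Cl v A l) (hD : ∑ i ∈ A, (1 - l i) = 8 / 3) :
    4 ≤ (fr A l).card := by
  have hgt := hS.2 l hl hD
  have hz : ∀ i ∈ A, l i ≠ 0 := fun i hi h => by
    have := hgt i hi
    rw [h, hw] at this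
    norm_num at this
  have h1 := D_lt A l hl.1 hz (by rw [hD]; norm_num)
  rw [hD] at h1
  have h2 : 2 < (fr A l).card := by
    have : (2 : ℝ) < ((fr A l).card : ℝ) := by linarith
    exact_mod_cast this
  have h3 := D_fr A l hl.1 hz
  rw [hD, D_eq] at h3
  by_contra hlt
  have h4 : (fr A l).card = 3 := by omega
  have h5 : ∑ i ∈ fr A l, w ≤ ∑ i ∈ fr A l, l i :=
    Finset.sum_le_sum (fun i hi => (hgt i (Finset.mem_filter.1 hi).1).le)
  rw [Finset.sum_const, h4, nsmul_eq_mul] at h5
  rw [h4] at h3
  push_cast at h5 h3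
  linarith

theorem four_bound (w : ℝ) (hw : w = 1 / 3 - 1 / 10000) (J : Finset ι) (hJ : J.card = 4)
    (x : ι → ℝ) (hx : ∀ j ∈ J, w < x j) (hs : ∑ j ∈ J, x j = 4 / 3) :
    ∀ j ∈ J, x j ≤ 1 / 3 + 3 / 10000 := by
  intro j hj
  have h1 := Finset.add_sum_erase J x hj
  have h2 : ∑ i ∈ J.erase j, w ≤ ∑ i ∈ J.erase j, x i :=
    Finset.sum_le_sum (fun i hi => (hx i (Finset.mem_of_mem_erase hi)).le)
  rw [Finset.sum_const, Finset.card_erase_of_mem hj, hJ, nsmul_eq_mul] at h2
  push_cast at h2
  linarith

/-- clustered configurations -/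
def Clu (N : V → ℝ) (v : ι → V) (w : ℝ) (A J : Finset ι) (μ : ι → ℝ) : Prop :=
  J ⊆ A ∧ J.card = 4 ∧ (∀ j ∈ J, w < μ j ∧ μ j ≤ 1 / 3 + 3 / 10000) ∧ ∑ j ∈ J, μ j = 4 / 3 ∧
    ∑ i ∈ A \ J, v i + ∑ j ∈ J, μ j • v j = 0 ∧
    ∀ r ∈ A \ J, ∃ j ∈ J, N (v r - v j) ≤ 32 / 10000

theorem clustered [FiniteDimensional ℝ V] (hfr : Module.finrank ℝ V = 3) (hN : Sn N) (v : ι → V)
    (w : ℝ) (hw : w = 1 / 3 - 1 / 10000) (A : Finset ι) (hv : ∀ i ∈ A, N (v i) ≤ 1)
    (hS : Stuck v w A) : ∃ J μ, Clu N v w A J μ := by
  have h4 : Module.finrank ℝ (V × ℝ) = 4 := by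
    rw [Module.finrank_prod, hfr, Module.finrank_self]
  obtain ⟨l0, hl0, hD0⟩ := hS.1
  obtain ⟨μ, hbox, hs, -, hor⟩ := red A (fun i => ((v i, (1 : ℝ)) : V × ℝ)) (fun _ => 0) l0 hl0.1
  rw [sum_pair, sum_pair, Prod.mk.injEq] at hs
  have hcl : Cl v A μ := ⟨hbox, hs.1.trans hl0.2⟩
  have hD : ∑ i ∈ A, (1 - μ i) = 8 / 3 := by rw [D_eq, hs.2, ← D_eq]; exact hD0
  have hgt := hS.2 μ hcl hD
  have hz : ∀ i ∈ A, μ i ≠ 0 := fun i hi h => by
    have := hgt i hi
    rw [h, hw] at this
    norm_num at this
  have hcard : (fr A μ).card ≤ 4 := by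
    rcases hor with h | ⟨i, hi, h⟩
    · rw [h4] at h; exact h
    · exact absurd h (hz i hi)
  have hcard4 : (fr A μ).card = 4 := le_antisymm hcard (stuck_card v w hw A hS μ hcl hD)
  have hsub : fr A μ ⊆ A := Finset.filter_subset _ _
  have hsum : ∑ j ∈ fr A μ, μ j = 4 / 3 := by
    have := D_fr A μ hbox hz
    rw [hD, D_eq, hcard4] at this
    push_cast at this
    linarith
  have hub := four_bound w hw (fr A μ) hcard4 μ (fun j hj => hgt j (hsub hj)) hsum
  have hone : ∀ i ∈ A, i ∉ fr A μ → μ i = 1 := by
    intro i hi hif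
    have h1 : 0 < μ i := lt_of_le_of_ne (hbox i hi).1 (hz i hi).symm
    have h2 : ¬ (μ i < 1) := fun h => hif (Finset.mem_filter.2 ⟨hi, h1, h⟩)
    linarith [(hbox i hi).2]
  have hfrac : ∀ i ∈ fr A μ, 0 < μ i ∧ μ i < 1 := fun i hi => (Finset.mem_filter.1 hi).2
  refine ⟨fr A μ, μ, hsub, hcard4, fun j hj => ⟨hgt j (hsub hj), hub j hj⟩, hsum, ?_, ?_⟩
  · have h1 := Finset.sum_sdiff (f := fun i => μ i • v i) hsub
    rw [hcl.2] at h1
    rw [← h1]
    congr 1
    apply Finset.sum_congr rfl
    intro i hi
    rw [Finset.mem_sdiff] at hi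
    rw [hone i hi.1 hi.2, one_smul]
  · intro r hr
    rw [Finset.mem_sdiff] at hr
    obtain ⟨hrA, hrJ⟩ := hr
    obtain ⟨β, hβ0, hβs, hβn⟩ := dep (insert r (fr A μ)) (fun i => ((v i, (1 : ℝ)) : V × ℝ))
      (by rw [Finset.card_insert_of_notMem hrJ, h4, hcard4]; norm_num)
    rw [sum_pair, Prod.mk_eq_zero, Finset.sum_insert hrJ, Finset.sum_insert hrJ] at hβs
    obtain ⟨hβ1, hβ2⟩ := hβs
    -- a general fact: moving inside the stuck polytope
    have hβr : β r ≠ 0 := by
      intro h0
      rw [h0, zero_smul, zero_add] at hβ1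
      rw [h0, zero_add] at hβ2
      have hne : ∃ i ∈ fr A μ, β i ≠ 0 := by
        obtain ⟨i, hi, hb⟩ := hβn
        rcases Finset.mem_insert.1 hi with h | h
        · exact absurd (h ▸ h0) hb
        · exact ⟨i, h, hb⟩
      have hβout : ∀ i, i ∉ fr A μ → β i = 0 := by
        intro i hi
        by_cases hir : i = r
        · rw [hir]; exact h0
        · exact hβ0 i (by simp [hir, hi])
      obtain ⟨s, hs0, hsb, j, hj, hjb, hhit⟩ := move (fr A μ) μ β hfrac hne
      have hbox' : ∀ i ∈ A, 0 ≤ μ i + s * β i ∧ μ i + s * β i ≤ 1 := by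
        intro i hi
        by_cases hif : i ∈ fr A μ
        · exact hsb i hif
        · rw [hβout i hif]
          simpa using hbox i hi
      have hv1 : ∑ i ∈ A, β i • v i = 0 := by
        rw [← hβ1]
        symm
        exact Finset.sum_subset hsub (fun i _ hi => by rw [hβout i hi, zero_smul])
      have hv2 : ∑ i ∈ A, β i = 0 := by
        rw [← hβ2]
        symm
        exact Finset.sum_subset hsub (fun i _ hi => hβout i hi)
      have hcl' : Cl v A (fun i => μ i + s * β i) := by
        refine ⟨hbox', ?_⟩
        simp only [add_smul, mul_smul, Finset.sum_add_distrib, ← Finset.smul_sum, hv1, smul_zero,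
          add_zero]
        exact hcl.2
      have hD' : ∑ i ∈ A, (1 - (μ i + s * β i)) = 8 / 3 := by
        rw [← hD]
        have : ∑ i ∈ A, (1 - (μ i + s * β i)) = ∑ i ∈ A, (1 - μ i) - s * ∑ i ∈ A, β i := by
          rw [Finset.mul_sum, ← Finset.sum_sub_distrib]
          exact Finset.sum_congr rfl (fun i _ => by ring)
        rw [this, hv2]
        ring
      have hgt' := hS.2 _ hcl' hD'
      have hc4 := stuck_card v w hw A hS _ hcl' hD'
      rcases hhit with hh | hh
      · have := hgt' j (hsub hj)
        simp only [hh] at this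
        rw [hw] at this
        norm_num at this
      · have hlt : (fr A (fun i => μ i + s * β i)).card < (fr A μ).card := by
          apply Finset.card_lt_card
          rw [Finset.ssubset_iff_of_subset]
          · refine ⟨j, hj, ?_⟩
            intro hj'
            have := (Finset.mem_filter.1 hj').2.2
            linarith
          · intro i hi
            have hi' := Finset.mem_filter.1 hi
            by_contra hif
            simp only [hβout i hif, mul_zero, add_zero] at hi'
            exact hif (Finset.mem_filter.2 hi')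
        omega
    -- normalise
    obtain ⟨b, hb1, hb2⟩ : ∃ b : ι → ℝ, ∑ i ∈ fr A μ, b i • v i = v r ∧ ∑ i ∈ fr A μ, b i = 1 := by
      refine ⟨fun i => - (β r)⁻¹ * β i, ?_, ?_⟩
      · simp only [mul_smul, ← Finset.smul_sum]
        have : ∑ i ∈ fr A μ, β i • v i = - (β r • v r) := eq_neg_of_add_eq_zero_right hβ1
        rw [this, smul_neg, neg_smul, neg_neg, smul_smul, inv_mul_cancel₀ hβr, one_smul]
      · rw [← Finset.mul_sum]
        have : ∑ i ∈ fr A μ, β i = - β r := by linarith
        rw [this]
        field_simp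
    have hbn : ∃ i ∈ fr A μ, b i ≠ 0 := by
      by_contra h
      push Not at h
      rw [Finset.sum_eq_zero h] at hb2
      norm_num at hb2
    obtain ⟨s, hs0, hsb, j, hj, hjb, hhit⟩ := move (fr A μ) μ b hfrac hbn
    -- the moved point, for any step at most s and at most 1
    have key : ∀ s' : ℝ, 0 ≤ s' → s' ≤ s → s' ≤ 1 →
        (∀ i ∈ fr A μ, w < μ i + s' * b i) ∧ w < 1 - s' := by
      intro s' h0 h1 h2
      let m : ι → ℝ := fun i => if i ∈ fr A μ then μ i + s' * b i else if i = r then 1 - s' else μ i
      have hm1 : ∀ i ∈ fr A μ, m i = μ i + s' * b i := fun i hi => by simp [m, hi]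
      have hm2 : m r = 1 - s' := by simp [m, hrJ]
      have hm3 : ∀ i, i ∉ fr A μ → i ≠ r → m i = μ i := fun i hi hir => by simp [m, hi, hir]
      have hμr : μ r = 1 := hone r hrA hrJ
      have hsplit : ∀ (g : ι → V × ℝ),
          ∑ i ∈ A, m i • g i = ∑ i ∈ A, μ i • g i + s' • (∑ i ∈ fr A μ, b i • g i - g r) := by
        intro g
        have e1 : ∑ i ∈ A, (m i - μ i) • g i = ∑ i ∈ insert r (fr A μ), (m i - μ i) • g i := by
          symm
          apply Finset.sum_subset
          · intro i hi
            rcases Finset.mem_insert.1 hi with h | h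
            · rw [h]; exact hrA
            · exact hsub h
          · intro i _ hi
            rw [Finset.mem_insert, not_or] at hi
            rw [hm3 i hi.2 hi.1, sub_self, zero_smul]
        rw [Finset.sum_insert hrJ, hm2, hμr] at e1
        have e2 : ∑ i ∈ fr A μ, (m i - μ i) • g i = s' • ∑ i ∈ fr A μ, b i • g i := by
          rw [Finset.smul_sum]
          apply Finset.sum_congr rfl
          intro i hi
          rw [hm1 i hi, add_sub_cancel_left, mul_smul]
        rw [e2] at e1
        have e3 : ∑ i ∈ A, m i • g i = ∑ i ∈ A, μ i • g i + ∑ i ∈ A, (m i - μ i) • g i := by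
          rw [← Finset.sum_add_distrib]
          apply Finset.sum_congr rfl
          intro i _
          rw [← add_smul]
          congr 1
          ring
        rw [e3, e1]
        congr 1
        rw [smul_sub]
        have : (1 - s' - 1) • g r = - (s' • g r) := by
          rw [← neg_smul]; congr 1; ring
        rw [this]
        abel
      have hsp := hsplit (fun i => ((v i, (1 : ℝ)) : V × ℝ))
      rw [sum_pair, sum_pair, sum_pair, hb1, hb2, sub_self, smul_zero, add_zero,
        Prod.mk.injEq] at hsp
      have hclm : Cl v A m := by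
        refine ⟨?_, ?_⟩
        · intro i hi
          by_cases hif : i ∈ fr A μ
          · rw [hm1 i hif]
            have hb := hsb i hif
            have hf := hfrac i hif
            -- convexity
            have hconv : μ i + s' * b i = (1 - s' / s) * μ i + (s' / s) * (μ i + s * b i) := by
              field_simp
              ring
            have ht0 : 0 ≤ s' / s := div_nonneg h0 hs0.le
            have ht1 : s' / s ≤ 1 := by rw [div_le_one hs0]; exact h1
            rw [hconv]
            constructor
            · have := mul_nonneg (by linarith : (0:ℝ) ≤ 1 - s' / s) hf.1.le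
              have := mul_nonneg ht0 hb.1
              linarith
            · have := mul_le_mul_of_nonneg_left hf.2.le (by linarith : (0:ℝ) ≤ 1 - s' / s)
              have := mul_le_mul_of_nonneg_left hb.2 ht0
              linarith
          · by_cases hir : i = r
            · rw [hir, hm2]
              constructor <;> linarith
            · rw [hm3 i hif hir]
              exact hbox i hi
        · rw [hsp.1]
          exact hcl.2
      have hDm : ∑ i ∈ A, (1 - m i) = 8 / 3 := by
        rw [D_eq, hsp.2, ← D_eq]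
        exact hD
      have hgm := hS.2 m hclm hDm
      refine ⟨?_, ?_⟩
      · intro i hi
        have := hgm i (hsub hi)
        rwa [hm1 i hi] at this
      · have := hgm r hrA
        rwa [hm2] at this
    have hs1 : s < 1 := by
      by_contra h
      have := (key 1 zero_le_one (not_lt.1 h) le_rfl).2
      rw [hw] at this
      norm_num at this
    obtain ⟨k1, k2⟩ := key s hs0.le le_rfl hs1.le
    have hhit1 : μ j + s * b j = 1 := by
      rcases hhit with h | h
      · have := k1 j hj
        rw [h, hw] at this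
        norm_num at this
      · exact h
    -- the four remaining coordinates
    let x : ι → ℝ := fun i => if i = r then 1 - s else μ i + s * b i
    have hxr : x r = 1 - s := by simp [x]
    have hxi : ∀ i ∈ fr A μ, x i = μ i + s * b i := by
      intro i hi
      have : i ≠ r := fun h => hrJ (h ▸ hi)
      simp [x, this]
    have hrJ' : r ∉ (fr A μ).erase j := fun h => hrJ (Finset.mem_of_mem_erase h)
    have hcx : (insert r ((fr A μ).erase j)).card = 4 := by
      rw [Finset.card_insert_of_notMem hrJ', Finset.card_erase_of_mem hj, hcard4]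
    have hsx : ∑ i ∈ insert r ((fr A μ).erase j), x i = 4 / 3 := by
      rw [Finset.sum_insert hrJ', hxr]
      have e1 := Finset.add_sum_erase (fr A μ) x hj
      have e2 : ∑ i ∈ fr A μ, x i = ∑ i ∈ fr A μ, μ i + s * ∑ i ∈ fr A μ, b i := by
        rw [Finset.mul_sum, ← Finset.sum_add_distrib]
        exact Finset.sum_congr rfl hxi
      rw [hsum, hb2] at e2
      rw [hxi j hj, hhit1] at e1
      linarith
    have hxw : ∀ i ∈ insert r ((fr A μ).erase j), w < x i := by
      intro i hi
      rcases Finset.mem_insert.1 hi with h | h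
      · rw [h, hxr]; exact k2
      · rw [hxi i (Finset.mem_of_mem_erase h)]
        exact k1 i (Finset.mem_of_mem_erase h)
    have hxb := four_bound w hw _ hcx x hxw hsx
    have hsl := hxb r (Finset.mem_insert_self _ _)
    rw [hxr] at hsl
    have hc : ∀ i ∈ fr A μ, |b i - (if i = j then 1 else 0)| ≤ 8 / 10000 := by
      intro i hi
      have hμ1 := hgt i (hsub hi)
      have hμ2 := hub i hi
      have hs2 : 1 / 2 ≤ s := by linarith
      by_cases hij : i = j
      · rw [if_pos hij, hij]
        rw [hij] at hμ1 hμ2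
        rw [abs_le]
        constructor
        · nlinarith
        · nlinarith
      · rw [if_neg hij, sub_zero]
        have h1 := hxb i (Finset.mem_insert_of_mem (Finset.mem_erase.2 ⟨hij, hi⟩))
        rw [hxi i hi] at h1
        have h2 := k1 i hi
        rw [abs_le]
        constructor
        · nlinarith
        · nlinarith
    refine ⟨j, hj, ?_⟩
    have hdiff : v r - v j = ∑ i ∈ fr A μ, (b i - (if i = j then 1 else 0)) • v i := by
      simp only [sub_smul, Finset.sum_sub_distrib, hb1]
      congr 1
      simp [hj]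
    rw [hdiff]
    refine (hN.sum_smul_le _ _ v (fun i hi => hv i (hsub hi))).trans ?_
    calc ∑ i ∈ fr A μ, |b i - (if i = j then 1 else 0)| ≤ ∑ i ∈ fr A μ, (8 / 10000 : ℝ) :=
          Finset.sum_le_sum hc
      _ = 32 / 10000 := by
        rw [Finset.sum_const, hcard4, nsmul_eq_mul]
        push_cast
        norm_num

end Pool.Agent.Helper829.Stz
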