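import Pool.Agent.Helper829.StzD

set_option autoImplicit false
open Finset

namespace Pool.Agent.Helper829.Stz

variable {ι : Type*} [DecidableEq ι]
variable {V : Type*} [AddCommGroup V] [Module ℝ V] {N : V → ℝ}

/-- the part of `K` assigned to `j` -/
def cl (c : ι → ι) (K : Finset ι) (j : ι) : Finset ι := K.filter (fun r => c r = j)

/-- total error of a cluster -/
def Ec (v : ι → V) (c : ι → ι) (R : Finset ι) (j : ι) : V := ∑ r ∈ cl c R j, (v r - v j)

/-- balanced errors of a cluster -/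
noncomputable def uc (v : ι → V) (c : ι → ι) (R : Finset ι) (j r : ι) : V :=
  (v r - v j) - ((cl c R j).card : ℝ)⁻¹ • Ec v c R j

theorem sum_cl (v : ι → V) (c : ι → ι) (R K : Finset ι) (j : ι) :
    ∑ r ∈ cl c K j, v r = ((cl c K j).card : ℝ) • v j + ∑ r ∈ cl c K j, uc v c R j r +
      (((cl c K j).card : ℝ) * ((cl c R j).card : ℝ)⁻¹) • Ec v c R j := by
  have h : ∀ r ∈ cl c K j, v r = v j + uc v c R j r + ((cl c R j).card : ℝ)⁻¹ • Ec v c R j := by
    intro r _
    simp only [uc]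
    abel
  rw [Finset.sum_congr rfl h, Finset.sum_add_distrib, Finset.sum_add_distrib, Finset.sum_const,
    Finset.sum_const, mul_smul, ← Nat.cast_smul_eq_nsmul ℝ, ← Nat.cast_smul_eq_nsmul ℝ]

theorem Ec_le (hN : Sn N) (v : ι → V) (c : ι → ι) (R : Finset ι) (ρ : ℝ)
    (hcl : ∀ r ∈ R, N (v r - v (c r)) ≤ ρ) (j : ι) :
    N (Ec v c R j) ≤ ((cl c R j).card : ℝ) * ρ := by
  refine (hN.sum_le _ _).trans ?_
  calc ∑ r ∈ cl c R j, N (v r - v j) ≤ ∑ r ∈ cl c R j, ρ := by
        apply Finset.sum_le_sum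
        intro r hr
        have := Finset.mem_filter.1 hr
        rw [← this.2]
        exact hcl r this.1
    _ = _ := by simp

theorem uc_sum (v : ι → V) (c : ι → ι) (R : Finset ι) (j : ι) :
    ∑ r ∈ cl c R j, uc v c R j r = 0 := by
  by_cases h : (cl c R j).card = 0
  · rw [Finset.card_eq_zero.1 h]; simp
  · have h' : ((cl c R j).card : ℝ) ≠ 0 := by exact_mod_cast h
    have h1 : ∑ r ∈ cl c R j, uc v c R j r = ∑ r ∈ cl c R j, (v r - v j) -
        ∑ r ∈ cl c R j, ((cl c R j).card : ℝ)⁻¹ • Ec v c R j := by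
      rw [← Finset.sum_sub_distrib]
      rfl
    rw [h1, Finset.sum_const, ← Nat.cast_smul_eq_nsmul ℝ, smul_smul,
      mul_inv_cancel₀ h', one_smul]
    exact sub_self _

theorem uc_le (hN : Sn N) (v : ι → V) (c : ι → ι) (R : Finset ι) (ρ : ℝ)
    (hcl : ∀ r ∈ R, N (v r - v (c r)) ≤ ρ) (j : ι) (r : ι) (hr : r ∈ cl c R j) :
    N (uc v c R j r) ≤ 2 * ρ := by
  have hr' := Finset.mem_filter.1 hr
  have hpos : 0 < ((cl c R j).card : ℝ) := by
    exact_mod_cast Finset.card_pos.2 ⟨r, hr⟩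
  have h1 : N (v r - v j) ≤ ρ := by rw [← hr'.2]; exact hcl r hr'.1
  have h2 := Ec_le hN v c R ρ hcl j
  have h3 : N (((cl c R j).card : ℝ)⁻¹ • Ec v c R j) ≤ ρ := by
    rw [hN.smul, abs_of_nonneg (inv_nonneg.2 hpos.le)]
    calc ((cl c R j).card : ℝ)⁻¹ * N (Ec v c R j)
        ≤ ((cl c R j).card : ℝ)⁻¹ * (((cl c R j).card : ℝ) * ρ) :=
          mul_le_mul_of_nonneg_left h2 (inv_nonneg.2 hpos.le)
      _ = ρ := by rw [← mul_assoc, inv_mul_cancel₀ hpos.ne', one_mul]
  have := hN.sub (v r - v j) (((cl c R j).card : ℝ)⁻¹ • Ec v c R j)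
  simp only [uc]
  linarith

theorem norm_bound (hN : Sn N) (v : ι → V) (J : Finset ι) (hJ4 : J.card = 4)
    (hvJ : ∀ j ∈ J, N (v j) ≤ 1) (c : ι → ι) (R : Finset ι) (hc : ∀ r ∈ R, c r ∈ J) (ρ : ℝ)
    (hρ : 0 ≤ ρ) (hcl : ∀ r ∈ R, N (v r - v (c r)) ≤ ρ) (μ : ι → ℝ)
    (hμ : ∀ j ∈ J, 0 < μ j ∧ μ j ≤ 1 / 2) (hdep : ∑ r ∈ R, v r + ∑ j ∈ J, μ j • v j = 0)
    (K : Finset ι) (hK : K ⊆ R) (τ : ℝ) (hτ0 : 0 ≤ τ) (hτ1 : τ ≤ 1)
    (hp : ∀ j ∈ J, |((cl c K j).card : ℝ) - τ * (((cl c R j).card : ℝ) + μ j)| ≤ 1 / 2)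
    (hP : ∀ j ∈ J, N (∑ r ∈ cl c K j, uc v c R j r) ≤ 3 * (2 * ρ)) :
    N (∑ r ∈ K, v r) ≤ 2 + 28 * ρ := by
  have e1 : ∑ r ∈ K, v r = ∑ j ∈ J, ∑ r ∈ cl c K j, v r :=
    (Finset.sum_fiberwise_of_maps_to (fun r hr => hc r (hK hr)) v).symm
  have e1' : ∑ r ∈ R, v r = ∑ j ∈ J, ∑ r ∈ cl c R j, v r :=
    (Finset.sum_fiberwise_of_maps_to hc v).symm
  have e3 : ∑ j ∈ J, ((((cl c R j).card : ℝ) + μ j) • v j + Ec v c R j) = 0 := by
    rw [← hdep, e1', ← Finset.sum_add_distrib]
    apply Finset.sum_congr rfl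
    intro j _
    rw [add_smul]
    simp only [Ec, Finset.sum_sub_distrib, Finset.sum_const]
    rw [← Nat.cast_smul_eq_nsmul ℝ]
    abel
  have e4 : ∑ r ∈ K, v r = ∑ j ∈ J,
      ((((cl c K j).card : ℝ) - τ * (((cl c R j).card : ℝ) + μ j)) • v j +
        ∑ r ∈ cl c K j, uc v c R j r +
        (((cl c K j).card : ℝ) * ((cl c R j).card : ℝ)⁻¹ - τ) • Ec v c R j) := by
    have : ∑ r ∈ K, v r = ∑ j ∈ J, ∑ r ∈ cl c K j, v r -
        τ • ∑ j ∈ J, ((((cl c R j).card : ℝ) + μ j) • v j + Ec v c R j) := by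
      rw [e3, smul_zero, sub_zero, e1]
    rw [this, Finset.smul_sum, ← Finset.sum_sub_distrib]
    apply Finset.sum_congr rfl
    intro j _
    rw [sum_cl v c R K j, smul_add, smul_smul, sub_smul, sub_smul]
    abel
  rw [e4]
  refine (hN.sum_le _ _).trans ?_
  calc _ ≤ ∑ j ∈ J, (1 / 2 + 7 * ρ) := by
        apply Finset.sum_le_sum
        intro j hj
        refine (hN.add _ _).trans ?_
        have h1 := hN.add ((((cl c K j).card : ℝ) - τ * (((cl c R j).card : ℝ) + μ j)) • v j)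
          (∑ r ∈ cl c K j, uc v c R j r)
        have h2 : N ((((cl c K j).card : ℝ) - τ * (((cl c R j).card : ℝ) + μ j)) • v j) ≤ 1 / 2 := by
          rw [hN.smul]
          calc _ ≤ |((cl c K j).card : ℝ) - τ * (((cl c R j).card : ℝ) + μ j)| * 1 :=
                mul_le_mul_of_nonneg_left (hvJ j hj) (abs_nonneg _)
            _ ≤ 1 / 2 := by rw [mul_one]; exact hp j hj
        have h3 := hP j hj
        have h4 : N ((((cl c K j).card : ℝ) * ((cl c R j).card : ℝ)⁻¹ - τ) • Ec v c R j) ≤ ρ := by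
          rw [hN.smul]
          have h5 := Ec_le hN v c R ρ hcl j
          by_cases h0 : (cl c R j).card = 0
          · rw [h0] at h5
            simp only [Nat.cast_zero, zero_mul] at h5
            have h6 := hN.nonneg (Ec v c R j)
            have h7 : N (Ec v c R j) = 0 := le_antisymm h5 h6
            rw [h7, mul_zero]
            exact hρ
          · have hpos : 0 < ((cl c R j).card : ℝ) := by exact_mod_cast Nat.pos_of_ne_zero h0
            calc _ ≤ |((cl c K j).card : ℝ) * ((cl c R j).card : ℝ)⁻¹ - τ| *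
                    (((cl c R j).card : ℝ) * ρ) :=
                  mul_le_mul_of_nonneg_left h5 (abs_nonneg _)
              _ = |((cl c K j).card : ℝ) - τ * ((cl c R j).card : ℝ)| * ρ := by
                  rw [← mul_assoc]
                  congr 1
                  rw [← abs_of_pos hpos, ← abs_mul, abs_of_pos hpos]
                  congr 1
                  field_simp
              _ ≤ 1 * ρ := by
                  apply mul_le_mul_of_nonneg_right _ hρ
                  have h8 := abs_le.1 (hp j hj)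
                  have h9 := hμ j hj
                  have h10 : 0 ≤ τ * μ j := mul_nonneg hτ0 h9.1.le
                  have h11 : τ * μ j ≤ 1 / 2 := by
                    calc τ * μ j ≤ 1 * μ j := mul_le_mul_of_nonneg_right hτ1 h9.1.le
                      _ ≤ 1 / 2 := by linarith
                  rw [abs_le]
                  constructor
                  · linarith [h8.1, h8.2, mul_add τ ((cl c R j).card : ℝ) (μ j)]
                  · linarith [h8.1, h8.2, mul_add τ ((cl c R j).card : ℝ) (μ j)]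
              _ = ρ := one_mul _
        linarith
    _ = 2 + 28 * ρ := by
        rw [Finset.sum_const, hJ4, nsmul_eq_mul]
        push_cast
        ring

theorem Ch.cases_ne {P : Finset ι → Prop} {A : Finset ι} (h : Ch P A) (hne : A.Nonempty) :
    ∃ i ∈ A, P (A.erase i) ∧ Ch P (A.erase i) := by
  cases h with
  | nil => exact absurd hne (by simp)
  | step A i hi h1 h2 => exact ⟨i, hi, h1, h2⟩

theorem cl_erase_same (c : ι → ι) (K : Finset ι) (j i : ι) :
    cl c (K.erase i) j = (cl c K j).erase i := by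
  simp only [cl]
  rw [Finset.filter_erase]

theorem cl_erase_diff (c : ι → ι) (K : Finset ι) (j i : ι) (h : c i ≠ j) :
    cl c (K.erase i) j = cl c K j := by
  rw [cl_erase_same]
  apply Finset.erase_eq_of_notMem
  simp only [cl, Finset.mem_filter, not_and]
  intro _; exact h

theorem merge (hN : Sn N) (v : ι → V) (J : Finset ι) (hJ4 : J.card = 4)
    (hvJ : ∀ j ∈ J, N (v j) ≤ 1) (c : ι → ι) (R : Finset ι) (hc : ∀ r ∈ R, c r ∈ J) (ρ : ℝ)
    (hρ : 0 ≤ ρ) (hcl : ∀ r ∈ R, N (v r - v (c r)) ≤ ρ) (μ : ι → ℝ)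
    (hμ : ∀ j ∈ J, 0 < μ j ∧ μ j ≤ 1 / 2) (hdep : ∑ r ∈ R, v r + ∑ j ∈ J, μ j • v j = 0)
    (K : Finset ι) (hK : K ⊆ R) (τ : ℝ) (hτ1 : τ ≤ 1)
    (hp : ∀ j ∈ J, |((cl c K j).card : ℝ) - τ * (((cl c R j).card : ℝ) + μ j)| ≤ 1 / 2)
    (hP : ∀ j ∈ J, N (∑ r ∈ cl c K j, uc v c R j r) ≤ 3 * (2 * ρ))
    (hCh : ∀ j ∈ J, Ch (fun B => N (∑ r ∈ B, uc v c R j r) ≤ 3 * (2 * ρ)) (cl c K j)) :
    Ch (fun B => N (∑ r ∈ B, v r) ≤ 2 + 28 * ρ) K := by
  induction K using Finset.strongInduction generalizing τ with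
  | H K ih =>
    by_cases hK0 : K = ∅
    · rw [hK0]; exact Ch.nil
    obtain ⟨i0, hi0⟩ := Finset.nonempty_iff_ne_empty.2 hK0
    let J' := J.filter (fun j => (cl c K j).Nonempty)
    have hJ' : J'.Nonempty := by
      refine ⟨c i0, Finset.mem_filter.2 ⟨hc i0 (hK hi0), i0, ?_⟩⟩
      simp [cl, hi0]
    obtain ⟨j, hj, hmax⟩ := Finset.exists_max_image J'
      (fun j => (((cl c K j).card : ℝ) - 1 / 2) / (((cl c R j).card : ℝ) + μ j)) hJ'
    have hjJ : j ∈ J := (Finset.mem_filter.1 hj).1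
    have hjne : (cl c K j).Nonempty := (Finset.mem_filter.1 hj).2
    obtain ⟨i, hi, hPi, hChi⟩ := (hCh j hjJ).cases_ne hjne
    have hiK : i ∈ K := (Finset.mem_filter.1 hi).1
    have hci : c i = j := (Finset.mem_filter.1 hi).2
    have hNpos : ∀ j ∈ J, 0 < ((cl c R j).card : ℝ) + μ j := by
      intro j hj
      have := (hμ j hj).1
      have h2 : (0 : ℝ) ≤ ((cl c R j).card : ℝ) := Nat.cast_nonneg _
      linarith
    set τ' : ℝ := (((cl c K j).card : ℝ) - 1 / 2) / (((cl c R j).card : ℝ) + μ j) with hτ'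
    have hpj1 : (1 : ℝ) ≤ ((cl c K j).card : ℝ) := by
      exact_mod_cast Finset.card_pos.2 hjne
    have hτ'0 : 0 ≤ τ' := div_nonneg (by linarith) (hNpos j hjJ).le
    have hτ'τ : τ' ≤ τ := by
      rw [hτ', div_le_iff₀ (hNpos j hjJ)]
      linarith [(abs_le.1 (hp j hjJ)).2]
    have hp' : ∀ k ∈ J, |((cl c (K.erase i) k).card : ℝ) -
        τ' * (((cl c R k).card : ℝ) + μ k)| ≤ 1 / 2 := by
      intro k hk
      by_cases hkj : k = j
      · rw [hkj, cl_erase_same, Finset.card_erase_of_mem hi]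
        have h1 : τ' * (((cl c R j).card : ℝ) + μ j) = ((cl c K j).card : ℝ) - 1 / 2 := by
          rw [hτ', div_mul_cancel₀ _ (hNpos j hjJ).ne']
        rw [h1, Nat.cast_sub (Finset.card_pos.2 hjne)]
        rw [abs_le]
        constructor
        · push_cast; linarith
        · push_cast; linarith
      · rw [cl_erase_diff c K k i (by rw [hci]; exact fun h => hkj h.symm)]
        rw [abs_le]
        constructor
        · have h1 := (abs_le.1 (hp k hk)).1
          have h2 := mul_le_mul_of_nonneg_right hτ'τ (hNpos k hk).le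
          linarith
        · by_cases hne : (cl c K k).Nonempty
          · have h3 := hmax k (Finset.mem_filter.2 ⟨hk, hne⟩)
            rw [div_le_iff₀ (hNpos k hk)] at h3
            linarith
          · rw [Finset.not_nonempty_iff_eq_empty.1 hne]
            have := mul_nonneg hτ'0 (hNpos k hk).le
            simp only [Finset.card_empty, Nat.cast_zero]
            linarith
    have hP' : ∀ k ∈ J, N (∑ r ∈ cl c (K.erase i) k, uc v c R k r) ≤ 3 * (2 * ρ) := by
      intro k hk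
      by_cases hkj : k = j
      · rw [hkj, cl_erase_same]; exact hPi
      · rw [cl_erase_diff c K k i (by rw [hci]; exact fun h => hkj h.symm)]
        exact hP k hk
    have hCh' : ∀ k ∈ J, Ch (fun B => N (∑ r ∈ B, uc v c R k r) ≤ 3 * (2 * ρ))
        (cl c (K.erase i) k) := by
      intro k hk
      by_cases hkj : k = j
      · rw [hkj, cl_erase_same]; exact hChi
      · rw [cl_erase_diff c K k i (by rw [hci]; exact fun h => hkj h.symm)]
        exact hCh k hk
    have hK' : K.erase i ⊆ R := (Finset.erase_subset _ _).trans hK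
    refine Ch.step K i hiK ?_ (ih _ (Finset.erase_ssubset hiK) hK' τ' (hτ'τ.trans hτ1) hp' hP' hCh')
    exact norm_bound hN v J hJ4 hvJ c R hc ρ hρ hcl μ hμ hdep _ hK' τ' hτ'0 (hτ'τ.trans hτ1) hp' hP'

end Pool.Agent.Helper829.Stz
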