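import Pool.Agent.Helper829.StzE

set_option autoImplicit false
open Finset

namespace Pool.Agent.Helper829.Stz

variable {ι : Type*} [DecidableEq ι]
variable {V : Type*} [AddCommGroup V] [Module ℝ V] {N : V → ℝ}

/-- the set far from the cluster centres can be removed -/
theorem finish_R [FiniteDimensional ℝ V] (hfr : Module.finrank ℝ V = 3) (hN : Sn N) (v : ι → V)
    (w : ℝ) (hw : w = 1 / 3 - 1 / 10000) (A J : Finset ι) (μ : ι → ℝ)
    (hv : ∀ i ∈ A, N (v i) ≤ 1) (h : Clu N v w A J μ) :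
    Ch (fun B => N (∑ r ∈ B, v r) ≤ 7 / 3 - 1 / 10000) (A \ J) := by
  obtain ⟨hJA, hJ4, hμ, hsum, hdep, hcl⟩ := h
  have hμ' : ∀ j ∈ J, 0 < μ j ∧ μ j ≤ 1 / 2 := by
    intro j hj
    have := hμ j hj
    constructor <;> linarith
  choose! c hc using hcl
  have hcJ : ∀ r ∈ A \ J, c r ∈ J := fun r hr => (hc r hr).1
  have hcN : ∀ r ∈ A \ J, N (v r - v (c r)) ≤ 32 / 10000 := fun r hr => (hc r hr).2
  have hmain := merge hN v J hJ4 (fun j hj => hv j (hJA hj)) c (A \ J) hcJ (32 / 10000)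
    (by norm_num) hcN μ hμ' hdep (A \ J) (Finset.Subset.refl _) 1 le_rfl
    (by
      intro j hj
      have := hμ' j hj
      rw [one_mul, sub_add_cancel_left, abs_neg, abs_of_pos this.1]
      exact this.2)
    (by
      intro j hj
      rw [uc_sum, hN.zero]; norm_num)
    (by
      intro j hj
      apply gs hfr hN (uc v c (A \ J) j) (2 * (32 / 10000)) (by norm_num) (cl c (A \ J) j)
      · intro r hr
        exact uc_le hN v c (A \ J) (32 / 10000) hcN j r hr
      · refine ⟨fun _ => 1, fun _ _ => ⟨zero_le_one, le_rfl⟩, ?_, ?_⟩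
        · simp only [one_smul]
          exact uc_sum v c (A \ J) j
        · simp)
  have hmono : ∀ B : Finset ι, Ch (fun B => N (∑ r ∈ B, v r) ≤ 2 + 28 * (32 / 10000)) B →
      Ch (fun B => N (∑ r ∈ B, v r) ≤ 7 / 3 - 1 / 10000) B := by
    intro B hB
    induction hB with
    | nil => exact Ch.nil
    | step A i hi h1 _ ih => exact Ch.step A i hi (by linarith) ih
  exact hmono _ hmain

theorem finish_mid (hN : Sn N) (v : ι → V)
    (w : ℝ) (hw : w = 1 / 3 - 1 / 10000) (A J : Finset ι) (μ : ι → ℝ)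
    (hv : ∀ i ∈ A, N (v i) ≤ 1) (h : Clu N v w A J μ) (T : Finset ι) (hT : T ⊆ J)
    (hT2 : T.card ≤ 2) : N (∑ r ∈ (A \ J) ∪ T, v r) ≤ 7 / 3 - 1 / 10000 := by
  obtain ⟨hJA, hJ4, hμ, hsum, hdep, -⟩ := h
  have hdisj : Disjoint (A \ J) T := by
    rw [Finset.disjoint_left]
    intro x hx hxT
    exact (Finset.mem_sdiff.1 hx).2 (hT hxT)
  have e1 : ∑ r ∈ (A \ J) ∪ T, v r = ∑ j ∈ J, ((if j ∈ T then 1 else 0) - μ j) • v j := by
    rw [Finset.sum_union hdisj]
    have h1 : ∑ r ∈ A \ J, v r = - ∑ j ∈ J, μ j • v j := eq_neg_of_add_eq_zero_left hdep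
    have h2 : ∑ j ∈ T, v j = ∑ j ∈ J, (if j ∈ T then (1 : ℝ) else 0) • v j := by
      have : ∀ j ∈ J, (if j ∈ T then (1 : ℝ) else 0) • v j = if j ∈ T then v j else 0 := by
        intro j _
        split_ifs <;> simp
      rw [Finset.sum_congr rfl this, ← Finset.sum_filter]
      congr 1
      ext x
      simp only [Finset.mem_filter]
      exact ⟨fun hx => ⟨hT hx, hx⟩, fun hx => hx.2⟩
    rw [h1, h2]
    simp only [sub_smul, Finset.sum_sub_distrib]
    abel
  rw [e1]
  refine (hN.sum_smul_le J _ v (fun j hj => hv j (hJA hj))).trans ?_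
  have hle : ∀ j ∈ J, |(if j ∈ T then (1 : ℝ) else 0) - μ j| ≤
      (1 / 3 + 3 / 10000) + (if j ∈ T then (1 : ℝ) / 3 else 0) := by
    intro j hj
    have := hμ j hj
    split_ifs
    · rw [abs_le]; constructor <;> linarith
    · rw [abs_le]; constructor <;> linarith
  refine (Finset.sum_le_sum hle).trans ?_
  rw [Finset.sum_add_distrib, Finset.sum_const, hJ4, ← Finset.sum_filter, Finset.sum_const,
    nsmul_eq_mul, nsmul_eq_mul]
  have hfc : (J.filter (fun j => j ∈ T)).card ≤ 2 := by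
    refine (Finset.card_le_card ?_).trans hT2
    intro x hx
    exact (Finset.mem_filter.1 hx).2
  have hfc' : ((J.filter (fun j => j ∈ T)).card : ℝ) ≤ 2 := by exact_mod_cast hfc
  push_cast
  linarith

omit [DecidableEq ι] in
theorem first_choice (J : Finset ι) (hJ4 : J.card = 4) (a : ι → ℝ) (j0 : ι) (hj0 : j0 ∈ J)
    (ha0 : |a j0| = 1) : ∃ j ∈ J, 2 / 3 ≤ |∑ i ∈ J, a i - 2 * a j| := by
  by_contra hno
  push Not at hno
  have h1 : |∑ j ∈ J, (∑ i ∈ J, a i - 2 * a j)| ≤ ∑ j ∈ J, (2 / 3 : ℝ) :=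
    (Finset.abs_sum_le_sum_abs _ _).trans (Finset.sum_le_sum (fun j hj => (hno j hj).le))
  rw [Finset.sum_sub_distrib, Finset.sum_const, ← Finset.mul_sum, Finset.sum_const, hJ4,
    nsmul_eq_mul, nsmul_eq_mul] at h1
  push_cast at h1
  have h2 := abs_le.1 h1
  have h3 := abs_lt.1 (hno j0 hj0)
  rcases abs_eq (zero_le_one (α := ℝ)) |>.1 ha0 with h | h
  · rw [h] at h3; linarith [h2.1, h2.2, h3.1, h3.2]
  · rw [h] at h3; linarith [h2.1, h2.2, h3.1, h3.2]

theorem finish_first [FiniteDimensional ℝ V] (hfr : Module.finrank ℝ V = 3) (hN : Sn N)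
    (v : ι → V) (w : ℝ) (hw : w = 1 / 3 - 1 / 10000) (A J : Finset ι) (μ : ι → ℝ)
    (hv : ∀ i ∈ A, N (v i) ≤ 1) (h : Clu N v w A J μ) :
    ∃ j ∈ J, N (∑ r ∈ A.erase j, v r) ≤ 7 / 3 - 1 / 10000 := by
  obtain ⟨hJA, hJ4, hμ, hsum, hdep, -⟩ := h
  obtain ⟨β, -, hβs, i0, hi0, hβi0⟩ := dep J v (by rw [hfr, hJ4]; norm_num)
  obtain ⟨j0, hj0, hmax⟩ := Finset.exists_max_image J (fun i => |β i|) ⟨i0, hi0⟩
  have hM : 0 < |β j0| := lt_of_lt_of_le (abs_pos.2 hβi0) (hmax i0 hi0)
  let a : ι → ℝ := fun i => |β j0|⁻¹ * β i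
  have ha1 : ∀ i ∈ J, |a i| ≤ 1 := by
    intro i hi
    simp only [a]
    rw [abs_mul, abs_inv, abs_abs, inv_mul_le_iff₀ hM, mul_one]
    exact hmax i hi
  have ha0 : |a j0| = 1 := by
    simp only [a]
    rw [abs_mul, abs_inv, abs_abs, inv_mul_cancel₀ hM.ne']
  have has : ∑ i ∈ J, a i • v i = 0 := by
    simp only [a, mul_smul, ← Finset.smul_sum, hβs, smul_zero]
  obtain ⟨j, hj, hjS⟩ := first_choice J hJ4 a j0 hj0 ha0
  have hw0 : 0 < w := by rw [hw]; norm_num
  obtain ⟨t, htw, htS⟩ : ∃ t : ℝ, |t| ≤ w ∧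
      t * (∑ i ∈ J, a i - 2 * a j) ≤ - (w * (2 / 3)) := by
    rcases le_total 0 (∑ i ∈ J, a i - 2 * a j) with h | h
    · refine ⟨-w, by rw [abs_neg, abs_of_pos hw0], ?_⟩
      rw [abs_of_nonneg h] at hjS
      nlinarith
    · refine ⟨w, by rw [abs_of_pos hw0], ?_⟩
      rw [abs_of_nonpos h] at hjS
      nlinarith
  refine ⟨j, hj, ?_⟩
  have hta : ∀ i ∈ J, |t * a i| ≤ w := by
    intro i hi
    rw [abs_mul]
    calc |t| * |a i| ≤ w * 1 := mul_le_mul htw (ha1 i hi) (abs_nonneg _) hw0.le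
      _ = w := mul_one w
  have e1 : ∑ r ∈ A.erase j, v r = ∑ i ∈ J, (1 - μ i + t * a i) • v i - v j := by
    have h1 : ∑ r ∈ A \ J, v r = - ∑ j ∈ J, μ j • v j := eq_neg_of_add_eq_zero_left hdep
    have h2 := Finset.add_sum_erase A v (hJA hj)
    have h3 := Finset.sum_sdiff (f := v) hJA
    have h4 : ∑ i ∈ J, (1 - μ i + t * a i) • v i = ∑ i ∈ J, v i - ∑ i ∈ J, μ i • v i := by
      simp only [add_smul, sub_smul, one_smul, mul_smul, Finset.sum_add_distrib,
        Finset.sum_sub_distrib, ← Finset.smul_sum, has, smul_zero, add_zero]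
    rw [h4]
    have h5 : ∑ r ∈ A.erase j, v r = ∑ r ∈ A, v r - v j := by rw [← h2]; abel
    rw [h5, ← h3, h1]
    abel
  have e2 : ∑ i ∈ J, (1 - μ i + t * a i) • v i - v j =
      ∑ i ∈ J.erase j, (1 - μ i + t * a i) • v i + (- μ j + t * a j) • v j := by
    rw [← Finset.add_sum_erase J (fun i => (1 - μ i + t * a i) • v i) hj]
    have : (1 - μ j + t * a j) • v j = v j + (- μ j + t * a j) • v j := by
      rw [show (1 - μ j + t * a j) = 1 + (- μ j + t * a j) by ring, add_smul, one_smul]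
    rw [this]
    abel
  rw [e1, e2]
  refine (hN.add _ _).trans ?_
  have b1 := hN.sum_smul_le' (J.erase j) (fun i => 1 - μ i + t * a i) v
    (fun i hi => hv i (hJA (Finset.mem_of_mem_erase hi)))
    (fun i hi => by
      have h1 := hμ i (Finset.mem_of_mem_erase hi)
      have h2 := abs_le.1 (hta i (Finset.mem_of_mem_erase hi))
      linarith [h1.1, h1.2, h2.1, h2.2])
  have b2 : N ((- μ j + t * a j) • v j) ≤ μ j - t * a j := by
    rw [hN.smul]
    have h1 := hμ j hj
    have h2 := abs_le.1 (hta j hj)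
    have h3 : - μ j + t * a j ≤ 0 := by linarith [h1.1, h2.2]
    rw [abs_of_nonpos h3]
    have := mul_le_mul_of_nonneg_left (hv j (hJA hj)) (neg_nonneg.2 h3)
    linarith
  have b3 : ∑ i ∈ J.erase j, (1 - μ i + t * a i) =
      8 / 3 + t * ∑ i ∈ J, a i - (1 - μ j + t * a j) := by
    have h1 := Finset.add_sum_erase J (fun i => 1 - μ i + t * a i) hj
    have h2 : ∑ i ∈ J, (1 - μ i + t * a i) = 8 / 3 + t * ∑ i ∈ J, a i := by
      rw [Finset.sum_add_distrib, ← Finset.mul_sum, D_eq, hsum, hJ4]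
      push_cast
      ring
    rw [h2] at h1
    linarith
  have b4 := (hμ j hj).2
  rw [b3] at b1
  nlinarith

theorem finish [FiniteDimensional ℝ V] (hfr : Module.finrank ℝ V = 3) (hN : Sn N)
    (v : ι → V) (w : ℝ) (hw : w = 1 / 3 - 1 / 10000) (A J : Finset ι) (μ : ι → ℝ)
    (hv : ∀ i ∈ A, N (v i) ≤ 1) (h : Clu N v w A J μ) :
    Ch (fun B => N (∑ r ∈ B, v r) ≤ 7 / 3 - 1 / 10000) A := by
  have hJA : J ⊆ A := h.1
  have hJ4 : J.card = 4 := h.2.1
  have key : ∀ T : Finset ι, T ⊆ J → T.card ≤ 3 →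
      Ch (fun B => N (∑ r ∈ B, v r) ≤ 7 / 3 - 1 / 10000) ((A \ J) ∪ T) := by
    intro T
    induction T using Finset.strongInduction with
    | H T ih =>
      intro hT hT3
      by_cases hT0 : T = ∅
      · rw [hT0, Finset.union_empty]
        exact finish_R hfr hN v w hw A J μ hv h
      · obtain ⟨i, hi⟩ := Finset.nonempty_iff_ne_empty.2 hT0
        have hc := Finset.card_erase_add_one hi
        have he : ((A \ J) ∪ T).erase i = (A \ J) ∪ T.erase i := by
          rw [Finset.erase_union_distrib]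
          congr 1
          apply Finset.erase_eq_of_notMem
          intro hi'
          exact (Finset.mem_sdiff.1 hi').2 (hT hi)
        have hTe : T.erase i ⊆ J := (Finset.erase_subset _ _).trans hT
        refine Ch.step _ i (Finset.mem_union_right _ hi) ?_ ?_
        · rw [he]
          exact finish_mid hN v w hw A J μ hv h (T.erase i) hTe (by omega)
        · rw [he]
          exact ih _ (Finset.erase_ssubset hi) hTe (by omega)
  obtain ⟨j, hj, hjn⟩ := finish_first hfr hN v w hw A J μ hv h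
  have he : A.erase j = (A \ J) ∪ J.erase j := by
    ext x
    simp only [Finset.mem_erase, Finset.mem_union, Finset.mem_sdiff]
    constructor
    · rintro ⟨h1, h2⟩
      by_cases hx : x ∈ J
      · exact Or.inr ⟨h1, hx⟩
      · exact Or.inl ⟨h2, hx⟩
    · rintro (⟨h1, h2⟩ | ⟨h1, h2⟩)
      · exact ⟨fun hxj => h2 (hxj ▸ hj), h1⟩
      · exact ⟨h1, hJA h2⟩
  refine Ch.step A j (hJA hj) hjn ?_
  rw [he]
  exact key _ (Finset.erase_subset _ _) (by rw [Finset.card_erase_of_mem hj, hJ4])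

/-- the main induction -/
theorem main_chain [FiniteDimensional ℝ V] (hfr : Module.finrank ℝ V = 3) (hN : Sn N)
    (v : ι → V) (w : ℝ) (hw : w = 1 / 3 - 1 / 10000) (A : Finset ι)
    (hv : ∀ i ∈ A, N (v i) ≤ 1) (hS : St N v w A) :
    Ch (fun B => N (∑ r ∈ B, v r) ≤ 7 / 3 - 1 / 10000) A := by
  induction A using Finset.strongInduction with
  | H A ih =>
    by_cases hc : A.card ≤ 3
    · apply Ch.of_card_le 3 A _ hc
      intro B hB hBc
      refine (hN.sum_le B _).trans ?_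
      have h1 : ∑ i ∈ B, N (v i) ≤ ∑ i ∈ B, (1 : ℝ) := Finset.sum_le_sum (fun i hi => hv i (hB hi))
      rw [Finset.sum_const, nsmul_eq_mul, mul_one] at h1
      have h2 : (B.card : ℝ) ≤ 2 := by exact_mod_cast (by omega : B.card ≤ 2)
      linarith
    · push Not at hc
      have hstep : ∀ i ∈ A, N (∑ j ∈ A.erase i, v j) ≤ 7 / 3 - 1 / 10000 →
          St N v w (A.erase i) → Ch (fun B => N (∑ r ∈ B, v r) ≤ 7 / 3 - 1 / 10000) A := by
        intro i hi h1 h2
        exact Ch.step A i hi h1 (ih _ (Finset.erase_ssubset hi)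
          (fun j hj => hv j (Finset.mem_of_mem_erase hj)) h2)
      rcases dirty hfr hN v w (by rw [hw]; norm_num) A hv hc hS with h | h
      · rcases clean hfr hN v w hw A hv hc h with h | h
        · obtain ⟨i, hi, h1, h2⟩ := h
          exact hstep i hi h1 h2
        · obtain ⟨J, μ, hJ⟩ := clustered hfr hN v w hw A hv h
          exact finish hfr hN v w hw A J μ hv hJ
      · obtain ⟨i, hi, h1, h2⟩ := h
        exact hstep i hi (by rw [hw] at h1; linarith) h2

/-- every norm on a three dimensional space has Steinitz constant at most `7/3 - 1/10000` -/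
theorem steinitz_three [FiniteDimensional ℝ V] (hfr : Module.finrank ℝ V = 3) (hN : Sn N)
    (n : ℕ) (v : Fin n → V) (hv : ∀ j, N (v j) ≤ 1) (hs : ∑ j, v j = 0) :
    ∃ σ : Equiv.Perm (Fin n), ∀ k : ℕ, k ≤ n →
      N (∑ j ∈ Finset.univ.filter (fun j : Fin n => j.val < k), v (σ j)) ≤ 7 / 3 - 1 / 10000 := by
  have hch := main_chain hfr hN v (1 / 3 - 1 / 10000) rfl Finset.univ (fun i _ => hv i)
    ⟨fun _ => 1, 0, 0, by rw [hN.zero]; norm_num, le_rfl, by norm_num,
      fun _ _ => ⟨zero_le_one, le_rfl⟩, by simpa using hs, by simp⟩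
  obtain ⟨σ, hσ⟩ := hch.exists_perm
  refine ⟨σ, ?_⟩
  intro k hk
  rcases Nat.lt_or_ge k n with h | h
  · have := hσ k h
    rw [Finset.sum_image (fun a _ b _ hab => σ.injective hab)] at this
    exact this
  · have hkn : Finset.univ.filter (fun j : Fin n => j.val < k) = Finset.univ := by
      apply Finset.filter_true_of_mem
      intro j _
      exact lt_of_lt_of_le j.isLt h
    rw [hkn, Equiv.sum_comp σ v, hs, hN.zero]
    norm_num

end Pool.Agent.Helper829.Stz
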