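import Mathlib
import Pool.Agent.Helper829.ZTutte

set_option autoImplicit false
set_option linter.unusedSectionVars false

namespace Pool.Agent.Helper829.TDom

open Finset

variable {V : Type} [Fintype V] [DecidableEq V] (G : SimpleGraph V) [DecidableRel G.Adj]

/-- Double counting of edges between two sets. -/
theorem dc (A B : Finset V) :
    ∑ x ∈ A, (B.filter (fun y => G.Adj x y)).card = ∑ y ∈ B, (A.filter (fun x => G.Adj y x)).card := by
  have h1 := Finset.sum_card_bipartiteAbove_eq_sum_card_bipartiteBelow (s := A) (t := B) (fun x y => G.Adj x y)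
  simp only [Finset.bipartiteAbove, Finset.bipartiteBelow] at h1
  rw [h1]
  apply Finset.sum_congr rfl
  intro y _
  congr 1
  apply Finset.filter_congr
  intro x _
  exact G.adj_comm x y

/-- The number of neighbours is three. -/
theorem deg3 (hreg : G.IsRegularOfDegree 3) (v : V) : (univ.filter (fun y => G.Adj v y)).card = 3 := by
  have h := hreg v
  rw [← SimpleGraph.card_neighborFinset_eq_degree, SimpleGraph.neighborFinset_eq_filter] at h
  exact h

/-- The number of ordered adjacent pairs inside a set is even. -/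
theorem even_inside (C : Finset V) : Even (∑ x ∈ C, (C.filter (fun y => G.Adj x y)).card) := by
  classical
  have h : ∑ x ∈ C, (C.filter (fun y => G.Adj x y)).card =
      ((C ×ˢ C).filter (fun p => G.Adj p.1 p.2)).card := by
    rw [Finset.card_filter, Finset.sum_product]
    apply Finset.sum_congr rfl
    intro x _
    rw [Finset.card_filter]
  rw [h]
  have h2 : ∑ p ∈ (C ×ˢ C).filter (fun p => G.Adj p.1 p.2), (1 : ZMod 2) = 0 := by
    apply Finset.sum_involution (fun p _ => (p.2, p.1))
    · intro p _; decide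
    · intro p hp _ heq
      simp only [mem_filter] at hp
      have := congrArg Prod.fst heq
      simp only at this
      exact G.ne_of_adj hp.2 this.symm
    · intro p hp
      simp only [mem_filter, mem_product] at hp ⊢
      exact ⟨⟨hp.1.2, hp.1.1⟩, hp.2.symm⟩
    · intro p _; rfl
  simp only [sum_const, nsmul_eq_mul, mul_one] at h2
  exact (ZMod.natCast_eq_zero_iff_even).1 h2

/-- Number of edges leaving a set. -/
def bd (C : Finset V) : ℕ := ∑ x ∈ C, ((Cᶜ).filter (fun y => G.Adj x y)).card

theorem split3 (hreg : G.IsRegularOfDegree 3) (C : Finset V) (x : V) :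
    (C.filter (fun y => G.Adj x y)).card + ((Cᶜ).filter (fun y => G.Adj x y)).card = 3 := by
  rw [← deg3 G hreg x, ← Finset.card_union_of_disjoint, ← Finset.filter_union, Finset.union_compl]
  apply Finset.disjoint_filter_filter
  exact disjoint_compl_right

theorem bd_parity (hreg : G.IsRegularOfDegree 3) (C : Finset V) : Even (bd G C + C.card) := by
  have h1 := even_inside G C
  have h2 : (∑ x ∈ C, (C.filter (fun y => G.Adj x y)).card) + bd G C = 3 * C.card := by
    unfold bd
    rw [← Finset.sum_add_distrib, Finset.sum_congr rfl (fun x _ => split3 G hreg C x)]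
    simp [mul_comm]
  rw [Nat.even_iff] at h1 ⊢
  omega

/-- The final counting step. -/
theorem final_step (hreg : G.IsRegularOfDegree 3) (S0 : Finset V)
    (h1 : ∀ v, ∃ u ∈ S0, G.Adj v u) (h2 : ∀ v ∈ S0, ∃ u, u ∉ S0 ∧ G.Adj v u)
    (h3 : (univ.filter (fun w => ∀ u, G.Adj w u → u ∈ S0)).card ≤ 3) :
    ∃ S : Finset V, (∀ v : V, ∃ u ∈ S, G.Adj v u) ∧ 2 * S.card ≤ Fintype.card V ∧
        ∃ D : Finset V, Disjoint D S ∧ ∀ v : V, v ∈ D ∨ ∃ u ∈ D, G.Adj v u := by
  classical
  -- a minimal set
  obtain ⟨S, hS, hmin⟩ := Finset.exists_min_image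
    ((S0.powerset).filter (fun S => ∀ v, ∃ u ∈ S, G.Adj v u)) Finset.card
    ⟨S0, by simp only [mem_filter, mem_powerset]; exact ⟨Finset.Subset.refl _, h1⟩⟩
  simp only [mem_filter, mem_powerset] at hS hmin
  obtain ⟨hSS, hSd⟩ := hS
  -- private neighbours
  have hpriv : ∀ u ∈ S, ∃ w, G.Adj w u ∧ ∀ u' ∈ S, G.Adj w u' → u' = u := by
    intro u hu
    by_contra hcon
    push Not at hcon
    have hcard := hmin (S.erase u) ⟨(Finset.erase_subset _ _).trans hSS, by
      intro v
      obtain ⟨u1, hu1, hadj⟩ := hSd v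
      by_cases hh : u1 = u
      · subst hh
        obtain ⟨u', hu', hadj', hne⟩ := hcon v hadj
        exact ⟨u', Finset.mem_erase.2 ⟨hne, hu'⟩, hadj'⟩
      · exact ⟨u1, Finset.mem_erase.2 ⟨hh, hu1⟩, hadj⟩⟩
    have := Finset.card_erase_lt_of_mem hu
    omega
  choose! p hp1 hp2 using hpriv
  refine ⟨S, hSd, ?_, Sᶜ, ?_, ?_⟩
  · set P := univ.filter (fun w => (S.filter (fun y => G.Adj w y)).card = 1) with hP
    have hPcard : S.card ≤ P.card := by
      apply Finset.card_le_card_of_injOn p
      · intro u hu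
        rw [hP, Finset.mem_coe, mem_filter]
        refine ⟨mem_univ _, ?_⟩
        rw [Finset.card_eq_one]
        refine ⟨u, ?_⟩
        ext y
        simp only [mem_filter, mem_singleton]
        constructor
        · rintro ⟨hy, hadj⟩
          exact hp2 u hu y hy hadj
        · rintro rfl
          exact ⟨hu, hp1 y hu⟩
      · intro u hu u' hu' heq
        have := hp1 u' hu'
        rw [← heq] at this
        exact (hp2 u hu u' hu' this).symm
    set A3 := univ.filter (fun w => ∀ u, G.Adj w u → u ∈ S) with hA3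
    have hA3card : A3.card ≤ 3 := by
      refine le_trans (Finset.card_le_card ?_) h3
      intro w hw
      rw [hA3, mem_filter] at hw
      rw [mem_filter]
      exact ⟨mem_univ _, fun u hu => hSS (hw.2 u hu)⟩
    have hkey : ∀ w : V, (S.filter (fun y => G.Adj w y)).card +
        (if (S.filter (fun y => G.Adj w y)).card = 1 then 1 else 0) ≤
        2 + (if (∀ u, G.Adj w u → u ∈ S) then 1 else 0) := by
      intro w
      have hsp := split3 G hreg S w
      by_cases hall : ∀ u, G.Adj w u → u ∈ S
      · simp only [if_pos hall]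
        split_ifs with h <;> omega
      · simp only [if_neg hall]
        push Not at hall
        obtain ⟨u, hadj, hu⟩ := hall
        have : 0 < ((Sᶜ).filter (fun y => G.Adj w y)).card := by
          apply Finset.card_pos.2
          exact ⟨u, by simp [hu, hadj]⟩
        split_ifs with h <;> omega
    have hsum := Finset.sum_le_sum (fun w (_ : w ∈ (univ : Finset V)) => hkey w)
    rw [Finset.sum_add_distrib, Finset.sum_add_distrib, ← Finset.card_filter, ← Finset.card_filter,
      dc G univ S, Finset.sum_congr rfl (fun y _ => deg3 G hreg y)] at hsum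
    simp only [sum_const, smul_eq_mul] at hsum
    rw [Finset.card_univ] at hsum
    have heven : Even (Fintype.card V) := by
      have := bd_parity G hreg univ
      have h0 : bd G univ = 0 := by
        unfold bd
        simp
      rw [h0, Finset.card_univ] at this
      simpa using this
    rw [Nat.even_iff] at heven
    have e1 : (univ.filter (fun w => ∀ u, G.Adj w u → u ∈ S)).card ≤ 3 := hA3card
    have e2 : S.card ≤ (univ.filter (fun w => (S.filter (fun y => G.Adj w y)).card = 1)).card := hPcard
    omega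
  · exact disjoint_compl_left
  · intro v
    by_cases hv : v ∈ S
    · right
      obtain ⟨u, hu, hadj⟩ := h2 v (hSS hv)
      exact ⟨u, Finset.mem_compl.2 (fun h => hu (hSS h)), hadj⟩
    · left; exact Finset.mem_compl.2 hv

/-- The colouring step. -/
theorem colour_step (hconn : G.Connected) (hreg : G.IsRegularOfDegree 3) (φ : V → V)
    (hinj : Function.Injective φ) (hadj : ∀ v, G.Adj v (φ v)) (y0 x' r x0 : V)
    (ha : φ y0 = x') (hb : φ x' = y0) (hc : φ r = x0) (hd : φ x0 = r) (hne : y0 ≠ r)
    (hxr : G.Adj x' r) :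
    ∃ S : Finset V, (∀ v : V, ∃ u ∈ S, G.Adj v u) ∧ 2 * S.card ≤ Fintype.card V ∧
        ∃ D : Finset V, Disjoint D S ∧ ∀ v : V, v ∈ D ∨ ∃ u ∈ D, G.Adj v u := by
  classical
  have hbij : Function.Bijective φ := Finite.injective_iff_bijective.1 hinj
  -- level predicate
  let R : ℕ → V → Prop := fun n => Nat.rec (motive := fun _ => V → Prop)
    (fun v => v = r ∨ v = x') (fun _ P v => ∃ w u, φ w = v ∧ u ≠ v ∧ G.Adj w u ∧ P u) n
  have hR0 : ∀ v, R 0 v ↔ (v = r ∨ v = x') := fun v => Iff.rfl
  have hRs : ∀ n v, R (n + 1) v ↔ ∃ w u, φ w = v ∧ u ≠ v ∧ G.Adj w u ∧ R n u := fun n v => Iff.rfl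
  -- everything is reachable
  have hreach : ∀ v, ∃ n, R n v := by
    by_contra hcon
    push Not at hcon
    obtain ⟨q0, hq0⟩ := hcon
    set Q : Finset V := univ.filter (fun v => ∀ n, ¬ R n v) with hQ
    have hQmem : ∀ v, v ∈ Q ↔ ∀ n, ¬ R n v := by intro v; simp [hQ]
    set W : Finset V := univ.filter (fun w => φ w ∈ Q) with hW
    have hWmem : ∀ w, w ∈ W ↔ φ w ∈ Q := by intro v; simp [hW]
    have hWQ : W.card = Q.card := by
      rw [← Finset.card_image_of_injective W hinj]
      congr 1
      ext v
      rw [Finset.mem_image]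
      constructor
      · rintro ⟨w, hw, rfl⟩; exact (hWmem w).1 hw
      · intro hv
        obtain ⟨w, rfl⟩ := hbij.2 v
        exact ⟨w, (hWmem w).2 hv, rfl⟩
    have hNW : ∀ w ∈ W, ∀ u, G.Adj w u → u ∈ Q := by
      intro w hw u hwu
      rw [hWmem] at hw
      by_cases huv : u = φ w
      · rw [huv]; exact hw
      · rw [hQmem] at hw ⊢
        intro n hn
        exact hw (n + 1) ((hRs n _).2 ⟨w, u, rfl, huv, hwu, hn⟩)
    have hcount : ∑ w ∈ W, (Q.filter (fun y => G.Adj w y)).card = 3 * Q.card := by
      rw [← hWQ]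
      have : ∀ w ∈ W, (Q.filter (fun y => G.Adj w y)).card = 3 := by
        intro w hw
        rw [← deg3 G hreg w]
        congr 1
        ext y
        simp only [mem_filter, mem_univ, true_and]
        exact ⟨fun h => h.2, fun h => ⟨hNW w hw y h, h⟩⟩
      rw [Finset.sum_congr rfl this]
      simp [mul_comm]
    rw [dc G W Q] at hcount
    have hNQ : ∀ q ∈ Q, ∀ w, G.Adj q w → w ∈ W := by
      by_contra hcon2
      push Not at hcon2
      obtain ⟨q, hq, w, hqw, hw⟩ := hcon2
      have hlt : ∑ y ∈ Q, (W.filter (fun x => G.Adj y x)).card < ∑ y ∈ Q, 3 := by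
        apply Finset.sum_lt_sum
        · intro y _
          have := split3 G hreg W y
          omega
        · refine ⟨q, hq, ?_⟩
          have h3 := split3 G hreg W q
          have : 0 < ((Wᶜ).filter (fun x => G.Adj q x)).card :=
            Finset.card_pos.2 ⟨w, by simp [hw, hqw]⟩
          omega
      rw [hcount] at hlt
      simp [mul_comm] at hlt
    have hall : ∀ v, v ∈ Q ∨ v ∈ W := by
      intro v
      have hq0' : q0 ∈ Q := (hQmem q0).2 hq0
      obtain ⟨p⟩ := hconn.preconnected q0 v
      have hgen : ∀ {a b : V}, G.Walk a b → (a ∈ Q ∨ a ∈ W) → (b ∈ Q ∨ b ∈ W) := by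
        intro a b p
        induction p with
        | nil => exact fun h => h
        | cons hadj' _ ih =>
          intro h
          apply ih
          rcases h with h | h
          · right; exact hNQ _ h _ hadj'
          · left; exact hNW _ h _ hadj'
      exact hgen p (Or.inl hq0')
    rcases hall r with h | h
    · exact (hQmem r).1 h 0 ((hR0 r).2 (Or.inl rfl))
    · have := hNW r h x' hxr.symm
      exact (hQmem x').1 this 0 ((hR0 x').2 (Or.inr rfl))
  let ℓ : V → ℕ := fun v => Nat.find (hreach v)
  have hℓ : ∀ v, R (ℓ v) v := fun v => Nat.find_spec (hreach v)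
  have hℓmin : ∀ v n, R n v → ℓ v ≤ n := fun v n h => Nat.find_min' (hreach v) h
  have hℓsucc : ∀ w, 0 < ℓ (φ w) → ∃ u, G.Adj w u ∧ ℓ u + 1 = ℓ (φ w) := by
    intro w hpos
    obtain ⟨n, hn⟩ : ∃ n, ℓ (φ w) = n + 1 := ⟨ℓ (φ w) - 1, by omega⟩
    have h1 := hℓ (φ w)
    rw [hn, hRs] at h1
    obtain ⟨w', u, hw', hne', hadj', hu⟩ := h1
    have : w' = w := hinj hw'
    subst this
    refine ⟨u, hadj', ?_⟩
    have h2 := hℓmin u n hu
    have h3 : ℓ (φ w') ≤ ℓ u + 1 :=
      hℓmin _ _ ((hRs _ _).2 ⟨w', u, rfl, hne', hadj', hℓ u⟩)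
    omega
  have hℓ0 : ∀ v, ℓ v = 0 → v = r ∨ v = x' := by
    intro v hv
    have := hℓ v
    rw [hv, hR0] at this
    exact this
  have hxx : x' ≠ x0 := by
    intro h
    apply hne
    rw [← hb, h, hd]
  have hℓy0 : ℓ y0 = 1 := by
    have h1 : ℓ y0 ≤ 1 := hℓmin y0 1 ((hRs 0 y0).2 ⟨x', r, hb, hne.symm, hxr, (hR0 r).2 (Or.inl rfl)⟩)
    have h2 : ℓ y0 ≠ 0 := by
      intro h
      rcases hℓ0 y0 h with h | h
      · exact hne h
      · have := hadj y0
        rw [ha, ← h] at this
        exact G.irrefl this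
    omega
  have hℓx0 : ℓ x0 = 1 := by
    have h1 : ℓ x0 ≤ 1 := hℓmin x0 1 ((hRs 0 x0).2 ⟨r, x', hc, hxx, hxr.symm, (hR0 x').2 (Or.inr rfl)⟩)
    have h2 : ℓ x0 ≠ 0 := by
      intro h
      rcases hℓ0 x0 h with h | h
      · have := hadj x0
        rw [hd, ← h] at this
        exact G.irrefl this
      · exact hxx h.symm
    omega
  have hzero : ∀ w, ℓ (φ w) = 0 → w = x0 ∨ w = y0 := by
    intro w hw
    rcases hℓ0 _ hw with h | h
    · left; apply hinj; rw [h, hd]
    · right; apply hinj; rw [h, ha]
  apply final_step G hreg (univ.filter (fun v => Even (ℓ v)))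
  · intro w
    by_cases hev : Even (ℓ (φ w))
    · exact ⟨φ w, by simp [hev], hadj w⟩
    · have hpos : 0 < ℓ (φ w) := by
        rcases Nat.eq_zero_or_pos (ℓ (φ w)) with h | h
        · rw [h] at hev; exact absurd (by decide) hev
        · exact h
      obtain ⟨u, hu, hlu⟩ := hℓsucc w hpos
      refine ⟨u, ?_, hu⟩
      simp only [mem_filter, mem_univ, true_and]
      rw [← hlu, Nat.even_add_one, not_not] at hev
      exact hev
  · intro w hw
    simp only [mem_filter, mem_univ, true_and] at hw ⊢
    by_cases hev : Even (ℓ (φ w))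
    · rcases Nat.eq_zero_or_pos (ℓ (φ w)) with h | h
      · exfalso
        rcases hzero w h with h' | h'
        · rw [h', hℓx0] at hw; exact absurd hw (by decide)
        · rw [h', hℓy0] at hw; exact absurd hw (by decide)
      · obtain ⟨u, hu, hlu⟩ := hℓsucc w h
        refine ⟨u, ?_, hu⟩
        rw [← hlu, Nat.even_add_one] at hev
        exact hev
    · exact ⟨φ w, hev, hadj w⟩
  · refine le_trans (Finset.card_le_card (t := {x0, y0}) ?_) (le_trans (Finset.card_le_two) (by norm_num))
    intro w hw
    simp only [mem_filter, mem_univ, true_and] at hw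
    simp only [mem_insert, mem_singleton]
    apply hzero
    by_contra hpos
    obtain ⟨u, hu, hlu⟩ := hℓsucc w (Nat.pos_of_ne_zero hpos)
    have h1 := hw _ (hadj w)
    have h2 := hw _ hu
    rw [← hlu, Nat.even_add_one] at h1
    exact h1 h2

end Pool.Agent.Helper829.TDom
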